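import Mathlib
import Pool.Agent.H410R2.ENIface

/-!
ENGINE, second interface file: the two halves of MomW.
-/

set_option autoImplicit false

open Finset

namespace Pool.Agent.H410R2.EN

open Pool.Agent.H410R2.AC

/-- absolute local size at p -/
noncomputable def aL (Cl : Finset ℕ) (h : ℕ → ℝ) (p : ℕ) : ℝ :=
  ∑ c ∈ Cl, |h c - 1| / ((p : ℝ) - 1)

/-- local deviation at p -/
noncomputable def dL (Cl : Finset ℕ) (h : ℕ → ℝ) (ep p : ℕ) : ℝ :=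
  ∑ c ∈ Cl, |h c - 1| * (if c = ep then 1 / ((p : ℝ) - 1) else 1 / ((p : ℝ) - 1) ^ 2)

/-- total size at p -/
noncomputable def sL (Cl : Finset ℕ) (h : ℕ → ℝ) : ℝ := ∑ c ∈ Cl, |h c - 1|

/-- EN2a: one product of local functions, over m for which all positions of U are P1-rough -/
def ExpandW : Prop := ∀ n : ℕ, ∃ K : ℕ, 1 ≤ K ∧
  ∀ (b J z0 D0 D2 : ℕ) (P1 P2 : Finset ℕ) (ρ : ℕ → ℕ → ℕ) (κ : ℕ → ℕ → ℝ) (e : ℕ → ℕ)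
    (w : ℕ → ℝ) (M : ℕ) (A : ℝ) (err : Finset ℕ → ℝ) (U Q : Finset ℕ) (h : ℕ → ℕ → ℝ)
    (Cl : ℕ → Finset ℕ) (δ : ℝ),
    U.card ≤ n → K ≤ b → K ≤ z0 → (∀ p ∈ P1, p.Prime ∧ z0 < p ∧ p ≤ 2 ^ 2 ^ J) →
    (∀ p ∈ P2, p.Prime ∧ z0 < p ∧ 2 ^ 2 ^ J < p) → Dens κ e (P1 ∪ P2) → (∀ m, 0 ≤ w m) → 0 ≤ A →
    Equid κ w M A (P1 ∪ P2) D0 err → Q ⊆ P2 → ∏ p ∈ Q, p ≤ D2 → (2 ^ 2 ^ J) ^ (K * b) * D2 ≤ D0 →
    (∀ p ∈ P1, ∀ a ∈ U, ρ p a < p) →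
    (∀ p ∈ Q, Cl p ⊆ range p ∧ ∀ c < p, c ∉ Cl p → h p c = 1) →
    dl e ρ P1 U ≤ δ → δ ≤ 1 →
    |∑ m ∈ range M, w m * ((∏ a ∈ U, rg ρ P1 a m) * ∏ p ∈ Q, h p (m % p)) -
        A * V1 P1 ^ U.card * ∏ p ∈ Q, ((∑ c ∈ range p, h p c) / (p : ℝ))| ≤
      A * V1 P1 ^ U.card *
        (K * (Real.exp (K * δ) - 1 + (1 / 2 : ℝ) ^ b) * ∏ p ∈ Q, (1 + aL (Cl p) (h p) p) +
          (∏ p ∈ Q, (1 + aL (Cl p) (h p) p + dL (Cl p) (h p) (e p) p) -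
            ∏ p ∈ Q, (1 + aL (Cl p) (h p) p))) +
      ((J : ℝ) + 2) * ∑ T2 ∈ Q.powerset, (∏ p ∈ T2, sL (Cl p) (h p)) *
        ∑ T1 ∈ P1.powerset.filter (fun T : Finset ℕ => ∏ p ∈ T, p ≤ (2 ^ 2 ^ J) ^ (K * b)),
          (K : ℝ) ^ T1.card * err (T1 ∪ T2)

/-- the local function of a pair of configurations and a choice of divisors -/
noncomputable def hh {T : Type} [Fintype T] (ρ : ℕ → ℕ → ℕ) (σ σ' : T → Option ℕ)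
    (R R' : T → Finset ℕ) (p c : ℕ) : ℝ :=
  (∏ τ ∈ Finset.univ.filter (fun τ => p ∈ R τ), psi ρ p (σ τ) c) *
    ∏ τ ∈ Finset.univ.filter (fun τ => p ∈ R' τ), psi ρ p (σ' τ) c

/-- the primes occurring -/
def QQ {T : Type} [Fintype T] (R R' : T → Finset ℕ) : Finset ℕ :=
  Finset.univ.biUnion R ∪ Finset.univ.biUnion R'

/-- the classes of the positions -/
def CL {T : Type} [Fintype T] (ρ : ℕ → ℕ → ℕ) (σ σ' : T → Option ℕ) (p : ℕ) : Finset ℕ :=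
  (pos σ ∪ pos σ').image (ρ p)

/-- EN2b: the sums over all divisors of the absolute local sizes -/
def SumW : Prop := ∀ n : ℕ, ∃ K : ℕ, 1 ≤ K ∧
  ∀ (T : Type) [Fintype T] [DecidableEq T], Fintype.card T ≤ n →
  ∀ (P : Finset ℕ) (ρ : ℕ → ℕ → ℕ) (e : ℕ → ℕ) (S S' : T → Finset (Finset ℕ))
    (σ σ' : T → Option ℕ), (∀ p ∈ P, p.Prime) → Std ρ P S σ → Std ρ P S' σ' →
    (∑ R ∈ Fintype.piFinset S, ∑ R' ∈ Fintype.piFinset S', (∏ τ, wt (R τ)) * (∏ τ, wt (R' τ)) *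
      ∏ p ∈ QQ R R', (1 + aL (CL ρ σ σ' p) (hh ρ σ σ' R R' p) p) ≤ Pi1 P ^ K) ∧
    (∑ R ∈ Fintype.piFinset S, ∑ R' ∈ Fintype.piFinset S', (∏ τ, wt (R τ)) * (∏ τ, wt (R' τ)) *
      (∏ p ∈ QQ R R', (1 + aL (CL ρ σ σ' p) (hh ρ σ σ' R R' p) p +
          dL (CL ρ σ σ' p) (hh ρ σ σ' R R' p) (e p) p) -
        ∏ p ∈ QQ R R', (1 + aL (CL ρ σ σ' p) (hh ρ σ σ' R R' p) p)) ≤
      Pi1 P ^ K * (Real.exp (K * dl e ρ P (pos σ ∪ pos σ')) - 1)) ∧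
    (∀ (F : Finset ℕ → ℝ) (D2 : ℕ), (∀ T2, 0 ≤ F T2) →
      (∀ R ∈ Fintype.piFinset S, ∀ R' ∈ Fintype.piFinset S',
        (∏ τ, ∏ p ∈ R τ, p) * (∏ τ, ∏ p ∈ R' τ, p) ≤ D2) →
      ∑ R ∈ Fintype.piFinset S, ∑ R' ∈ Fintype.piFinset S', (∏ τ, wt (R τ)) * (∏ τ, wt (R' τ)) *
        ∑ T2 ∈ (QQ R R').powerset, (∏ p ∈ T2, sL (CL ρ σ σ' p) (hh ρ σ σ' R R' p)) * F T2 ≤
      Pi1 P ^ K * ∑ T2 ∈ P.powerset.filter (fun T : Finset ℕ => ∏ p ∈ T, p ≤ D2),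
        (K : ℝ) ^ T2.card * F T2)

end Pool.Agent.H410R2.EN
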