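import Mathlib
import Pool.Agent.H410R2.ACIface

set_option autoImplicit false

open Finset

namespace Pool.Agent.H410R2.AC

lemma PP_prime {H z p : ℕ} (h : p ∈ PP H z) : p.Prime := by
  unfold PP at h
  exact (Finset.mem_filter.mp h).2.1

lemma PP_gt {H z p : ℕ} (h : p ∈ PP H z) : H < p := by
  unfold PP at h
  exact (Finset.mem_filter.mp h).2.2

lemma PP_le {H z p : ℕ} (h : p ∈ PP H z) : p ≤ z := by
  unfold PP at h
  have := (Finset.mem_filter.mp h).1
  have := Finset.mem_range.mp this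
  omega

lemma mem_PP {H z p : ℕ} : p ∈ PP H z ↔ p.Prime ∧ H < p ∧ p ≤ z := by
  constructor
  · intro h
    exact ⟨PP_prime h, PP_gt h, PP_le h⟩
  · rintro ⟨h1, h2, h3⟩
    unfold PP
    exact Finset.mem_filter.mpr ⟨Finset.mem_range.mpr (by omega), h1, h2⟩

lemma wt_nonneg {R : Finset ℕ} (h : ∀ p ∈ R, p.Prime) : 0 ≤ wt R := by
  unfold wt
  refine Finset.prod_nonneg (fun p hp => ?_)
  have h2 := (h p hp).two_le
  have : (2 : ℝ) ≤ p := by exact_mod_cast h2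
  have : (0 : ℝ) < (p : ℝ) - 1 := by linarith
  positivity

lemma wt_le_one {R : Finset ℕ} (h : ∀ p ∈ R, p.Prime) : wt R ≤ 1 := by
  unfold wt
  refine Finset.prod_le_one (fun p hp => ?_) (fun p hp => ?_)
  · have h2 := (h p hp).two_le
    have : (2 : ℝ) ≤ p := by exact_mod_cast h2
    have : (0 : ℝ) < (p : ℝ) - 1 := by linarith
    positivity
  · have h2 := (h p hp).two_le
    have h3 : (2 : ℝ) ≤ p := by exact_mod_cast h2
    rw [div_le_one (by linarith)]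
    linarith

lemma prodset_inj {R R' : Finset ℕ} (h : ∀ p ∈ R, p.Prime) (h' : ∀ p ∈ R', p.Prime)
    (he : ∏ p ∈ R, p = ∏ p ∈ R', p) : R = R' := by
  rw [← Nat.primeFactors_prod h, ← Nat.primeFactors_prod h', he]

lemma prod_ge_one {R : Finset ℕ} (h : ∀ p ∈ R, p.Prime) : (1 : ℝ) ≤ ∏ p ∈ R, (p : ℝ) := by
  have : (1 : ℕ) ≤ ∏ p ∈ R, p := Nat.one_le_iff_ne_zero.mpr
    (Finset.prod_ne_zero_iff.mpr (fun p hp => (h p hp).ne_zero))
  have h2 : ((1 : ℕ) : ℝ) ≤ ((∏ p ∈ R, p : ℕ) : ℝ) := by exact_mod_cast this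
  push_cast at h2
  simpa using h2

/-- a family of sets of primes with products at most Y satisfies the size condition -/
lemma size_bound {S : Finset (Finset ℕ)} {y : ℝ} (hS : ∀ R ∈ S, ∀ p ∈ R, p.Prime)
    (hy : ∀ R ∈ S, ∏ p ∈ R, (p : ℝ) ≤ y) (hy1 : 1 ≤ y) :
    ∑ R ∈ S, wt R * (∏ p ∈ R, (p : ℝ)) ^ 2 ≤ y ^ 3 := by
  have hcard : (S.card : ℝ) ≤ y := by
    have h1 : S.card ≤ (Finset.Icc 1 ⌊y⌋₊).card := by
      refine Finset.card_le_card_of_injOn (fun R => ∏ p ∈ R, p) ?_ ?_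
      · intro R hR
        have hR' : R ∈ S := hR
        have ha := prod_ge_one (hS R hR')
        have hb := hy R hR'
        simp only [Finset.coe_Icc, Set.mem_Icc]
        constructor
        · have : ((1 : ℕ) : ℝ) ≤ ((∏ p ∈ R, p : ℕ) : ℝ) := by push_cast; simpa using ha
          exact_mod_cast this
        · apply Nat.le_floor
          push_cast
          exact hb
      · intro R hR R' hR' he
        exact prodset_inj (hS R hR) (hS R' hR') he
    rw [Nat.card_Icc] at h1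
    have h2 : (S.card : ℝ) ≤ (⌊y⌋₊ : ℝ) := by
      have : S.card ≤ ⌊y⌋₊ := by omega
      exact_mod_cast this
    exact h2.trans (Nat.floor_le (by linarith))
  calc ∑ R ∈ S, wt R * (∏ p ∈ R, (p : ℝ)) ^ 2 ≤ ∑ R ∈ S, y ^ 2 := by
        refine Finset.sum_le_sum (fun R hR => ?_)
        have h1 := wt_nonneg (hS R hR)
        have h2 := wt_le_one (hS R hR)
        have h3 := prod_ge_one (hS R hR)
        have h4 := hy R hR
        have h5 : (∏ p ∈ R, (p : ℝ)) ^ 2 ≤ y ^ 2 := by gcongr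
        nlinarith [sq_nonneg (∏ p ∈ R, (p : ℝ))]
    _ = S.card * y ^ 2 := by rw [Finset.sum_const, nsmul_eq_mul]
    _ ≤ y * y ^ 2 := by gcongr
    _ = y ^ 3 := by ring

lemma psi_abs {ρ : ℕ → ℕ → ℕ} {p : ℕ} (hp : p.Prime) (o : Option ℕ) (m : ℕ) :
    |psi ρ p o m| ≤ p := by
  have h2 : (2 : ℝ) ≤ p := by exact_mod_cast hp.two_le
  unfold psi
  cases o with
  | none => simp only [abs_one]; linarith
  | some a =>
    simp only
    split_ifs
    · rw [abs_sub_comm, abs_of_nonneg (by linarith)]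
      linarith
    · simp only [abs_one]; linarith

/-- trivial bound -/
lemma FF_abs {ρ : ℕ → ℕ → ℕ} {S : Finset (Finset ℕ)} {Y : ℝ} (hS : ∀ R ∈ S, ∀ p ∈ R, p.Prime)
    (hY : ∑ R ∈ S, wt R * (∏ p ∈ R, (p : ℝ)) ^ 2 ≤ Y) (o : Option ℕ) (m : ℕ) :
    |FF ρ S o m| ≤ Y := by
  refine le_trans ?_ hY
  unfold FF
  refine (Finset.abs_sum_le_sum_abs _ _).trans (Finset.sum_le_sum (fun R hR => ?_))
  rw [abs_mul, abs_of_nonneg (wt_nonneg (hS R hR)), Finset.abs_prod]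
  refine mul_le_mul_of_nonneg_left ?_ (wt_nonneg (hS R hR))
  have h1 : ∏ p ∈ R, |psi ρ p o m| ≤ ∏ p ∈ R, (p : ℝ) :=
    Finset.prod_le_prod (fun p _ => abs_nonneg _) (fun p hp => psi_abs (hS R hR p hp) o m)
  have h2 := prod_ge_one (hS R hR)
  nlinarith

/-- rough position: the function takes its maximal value -/
lemma FF_rough {ρ : ℕ → ℕ → ℕ} {P : Finset ℕ} {S : Finset (Finset ℕ)} (hS : ∀ R ∈ S, R ⊆ P)
    {a m : ℕ} (h : ∀ p ∈ P, m % p ≠ ρ p a) : FF ρ S (some a) m = GG S := by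
  unfold FF GG
  refine Finset.sum_congr rfl (fun R hR => ?_)
  have : ∏ p ∈ R, psi ρ p (some a) m = 1 := by
    refine Finset.prod_eq_one (fun p hp => ?_)
    unfold psi
    simp only
    rw [if_neg (h p (hS R hR hp))]
  rw [this, mul_one]

lemma coef_abs {n : ℕ} {β : Fin n → ℝ} (hβ : ∀ τ, 0 ≤ β τ) (hs : ∑ τ, β τ = 1)
    (σ : Fin n → Option ℕ) : |coef β σ| ≤ 1 := by
  have h0 : 0 ≤ coef β σ := by
    unfold coef
    refine Finset.sum_nonneg (fun τ _ => ?_)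
    split_ifs
    · exact le_rfl
    · exact hβ τ
  rw [abs_of_nonneg h0]
  unfold coef
  rw [← hs]
  refine Finset.sum_le_sum (fun τ _ => ?_)
  split_ifs
  · exact hβ τ
  · exact le_rfl

lemma term_abs {n : ℕ} {x : Fin n → ℕ → ℝ} {y : Fin n → ℝ} (hy : ∀ τ, 1 ≤ y τ)
    (hx : ∀ τ a, |x τ a| ≤ y τ) (σ : Fin n → Option ℕ) : |term x σ| ≤ ∏ τ, y τ := by
  unfold term
  rw [Finset.abs_prod]
  refine Finset.prod_le_prod (fun τ _ => abs_nonneg _) (fun τ _ => ?_)
  cases h : σ τ with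
  | none => simp only [abs_one]; exact hy τ
  | some a => exact hx τ a

lemma cfg_card_le {n : ℕ} (B : Finset ℕ) : ((cfg n B).card : ℝ) ≤ ((B.card : ℝ) + 1) ^ n := by
  classical
  have h : (cfg n B).card ≤ (B.card + 1) ^ n := by
    unfold cfg
    refine (Finset.card_filter_le _ _).trans ?_
    rw [Fintype.card_piFinset]
    simp [Finset.card_insertNone]
  calc ((cfg n B).card : ℝ) ≤ (((B.card + 1) ^ n : ℕ) : ℝ) := by exact_mod_cast h
    _ = ((B.card : ℝ) + 1) ^ n := by push_cast; ring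

lemma WW_abs {n : ℕ} {B : Finset ℕ} {x : Fin n → ℕ → ℝ} {y : Fin n → ℝ} (hy : ∀ τ, 1 ≤ y τ)
    (hx : ∀ τ a, |x τ a| ≤ y τ) :
    |WW B (fun _ => 1) x| ≤ ((B.card : ℝ) + 1) ^ n * ∏ τ, y τ := by
  unfold WW
  refine (Finset.abs_sum_le_sum_abs _ _).trans ?_
  calc ∑ σ ∈ cfg n B, |1 * term x σ| ≤ ∑ σ ∈ cfg n B, ∏ τ, y τ := by
        refine Finset.sum_le_sum (fun σ _ => ?_)
        rw [one_mul]
        exact term_abs hy hx σ
    _ = (cfg n B).card * ∏ τ, y τ := by rw [Finset.sum_const, nsmul_eq_mul]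
    _ ≤ _ := by
        refine mul_le_mul_of_nonneg_right (cfg_card_le B) ?_
        exact Finset.prod_nonneg (fun τ _ => by linarith [hy τ])

end Pool.Agent.H410R2.AC
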