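import Mathlib
import Pool.Agent.H410R2.ACIface
import Pool.Agent.H410R2.ACCore1

set_option autoImplicit false

open Finset Filter

namespace Pool.Agent.H410R2.AC

/-- asymptotic facts: the parameters as functions of N -/
noncomputable def HH (N : ℕ) : ℕ := ⌊Real.log N / 100⌋₊

noncomputable def zz (N : ℕ) : ℕ := ⌊(N : ℝ) ^ (1 / 10 : ℝ)⌋₊

lemma tendsto_log_nat : Tendsto (fun N : ℕ => Real.log (N : ℝ)) atTop atTop :=
  Real.tendsto_log_atTop.comp tendsto_natCast_atTop_atTop

lemma tendsto_HH : Tendsto (fun N : ℕ => ((HH N : ℕ) : ℝ)) atTop atTop := by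
  have h1 : Tendsto (fun N : ℕ => Real.log (N : ℝ) / 100) atTop atTop :=
    tendsto_log_nat.atTop_div_const (by norm_num)
  have h2 : Tendsto (fun N : ℕ => HH N) atTop atTop := by
    unfold HH
    exact tendsto_nat_floor_atTop.comp h1
  exact tendsto_natCast_atTop_atTop.comp h2

lemma HH_le (N : ℕ) : ((HH N : ℕ) : ℝ) ≤ Real.log N / 100 := by
  unfold HH
  refine Nat.floor_le ?_
  have : 0 ≤ Real.log (N : ℝ) := Real.log_natCast_nonneg N
  positivity

lemma HH_ge : ∀ᶠ N : ℕ in atTop, Real.log N / 200 ≤ ((HH N : ℕ) : ℝ) := by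
  filter_upwards [tendsto_log_nat.eventually_ge_atTop 200] with N hN
  have h := Nat.lt_floor_add_one (Real.log (N : ℝ) / 100)
  unfold HH
  linarith

/-- the size of V = log H / log N -/
noncomputable def VV (N : ℕ) : ℝ := Real.log (HH N) / Real.log N

lemma VV_tendsto : Tendsto VV atTop (nhds 0) := by
  have h1 : Tendsto (fun x : ℝ => Real.log x / x) atTop (nhds 0) := by
    have := Real.isLittleO_log_id_atTop.tendsto_div_nhds_zero
    simpa using this
  have h2 : Tendsto (fun N : ℕ => Real.log (Real.log N) / Real.log N) atTop (nhds 0) :=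
    h1.comp tendsto_log_nat
  refine squeeze_zero' ?_ ?_ h2
  · filter_upwards [tendsto_HH.eventually_ge_atTop 1, tendsto_log_nat.eventually_ge_atTop 1]
      with N h h'
    unfold VV
    exact div_nonneg (Real.log_nonneg h) (by linarith)
  · filter_upwards [tendsto_HH.eventually_ge_atTop 1, tendsto_log_nat.eventually_ge_atTop 1]
      with N h h'
    unfold VV
    have h3 : ((HH N : ℕ) : ℝ) ≤ Real.log N := by
      have := HH_le N
      linarith
    gcongr

/-- the size of the non-diagonal terms -/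
noncomputable def dd (n : ℕ) (N : ℕ) : ℝ :=
  2 / (HH N : ℝ) + (2 * n + 1) ^ 2 * (Real.log N / (HH N * Real.log (HH N)))

lemma dd_tendsto (n : ℕ) : Tendsto (dd n) atTop (nhds 0) := by
  have hlH : Tendsto (fun N : ℕ => Real.log (HH N)) atTop atTop :=
    Real.tendsto_log_atTop.comp tendsto_HH
  have h1 : Tendsto (fun N : ℕ => 2 / (HH N : ℝ)) atTop (nhds 0) :=
    tendsto_HH.const_div_atTop 2
  have h2 : Tendsto (fun N : ℕ => Real.log N / (HH N * Real.log (HH N))) atTop (nhds 0) := by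
    have h3 : Tendsto (fun N : ℕ => 200 / Real.log (HH N)) atTop (nhds 0) :=
      hlH.const_div_atTop 200
    refine squeeze_zero' ?_ ?_ h3
    · filter_upwards [tendsto_HH.eventually_ge_atTop 1, tendsto_log_nat.eventually_ge_atTop 1]
        with N h h'
      have := Real.log_nonneg h
      positivity
    · filter_upwards [tendsto_HH.eventually_ge_atTop 2, tendsto_log_nat.eventually_ge_atTop 1,
        HH_ge] with N h h' h''
      have hl : 0 < Real.log (HH N) := Real.log_pos (by linarith)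
      rw [div_le_div_iff₀ (by positivity) hl]
      nlinarith
  have h4 := h1.add (h2.const_mul ((2 * (n : ℝ) + 1) ^ 2))
  have h5 : dd n = fun N : ℕ => 2 / (HH N : ℝ) +
      (2 * n + 1) ^ 2 * (Real.log N / (HH N * Real.log (HH N))) := rfl
  rw [h5]
  simpa using h4

/-- powers of N beat powers of log -/
lemma log_pow_small (k : ℕ) (c e : ℝ) (he : 0 < e) :
    ∀ᶠ N : ℕ in atTop, c * Real.log N ^ k ≤ (N : ℝ) ^ e := by
  have h1 : (fun x : ℝ => Real.log x ^ k) =o[atTop] fun x => x ^ e :=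
    isLittleO_log_rpow_rpow_atTop k he |>.congr_left (fun x => by simp)
  have h2 : (fun x : ℝ => c * Real.log x ^ k) =o[atTop] fun x => x ^ e := h1.const_mul_left c
  have h3 := h2.bound (show (0 : ℝ) < 1 by norm_num)
  have h4 := tendsto_natCast_atTop_atTop (R := ℝ) |>.eventually h3
  filter_upwards [h4, eventually_ge_atTop 1] with N hN hN1
  have hN0 : (0 : ℝ) ≤ (N : ℝ) ^ e := by positivity
  rw [one_mul, Real.norm_of_nonneg hN0] at hN
  exact (le_abs_self _).trans hN

/-- residue class of m for which p divides b + Q m - a -/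
noncomputable def rho (Q b : ℕ) (p a : ℕ) : ℕ :=
  if h : p.Prime then
    haveI : Fact p.Prime := ⟨h⟩
    (((a : ZMod p) - (b : ZMod p)) * (Q : ZMod p)⁻¹).val
  else 0

lemma rho_lt {Q b p a : ℕ} (hp : p.Prime) : rho Q b p a < p := by
  unfold rho
  rw [dif_pos hp]
  haveI : Fact p.Prime := ⟨hp⟩
  exact ZMod.val_lt _

lemma rho_iff {Q b p a m : ℕ} (hp : p.Prime) (hQ : ¬ p ∣ Q) :
    m % p = rho Q b p a ↔ (p : ℤ) ∣ (b : ℤ) + Q * m - a := by
  haveI : Fact p.Prime := ⟨hp⟩
  have hQ0 : (Q : ZMod p) ≠ 0 := by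
    intro h
    exact hQ ((ZMod.natCast_eq_zero_iff Q p).mp h)
  unfold rho
  rw [dif_pos hp]
  have h1 : m % p = (((m : ZMod p)).val) := (ZMod.val_natCast p m).symm
  rw [h1]
  have h2 : ((m : ZMod p)).val = (((a : ZMod p) - (b : ZMod p)) * (Q : ZMod p)⁻¹).val ↔
      (m : ZMod p) = ((a : ZMod p) - (b : ZMod p)) * (Q : ZMod p)⁻¹ :=
    ⟨fun h => ZMod.val_injective p h, fun h => by rw [h]⟩
  rw [h2]
  have h3 : ((p : ℤ) ∣ (b : ℤ) + Q * m - a) ↔ ((((b : ℤ) + Q * m - a : ℤ)) : ZMod p) = 0 :=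
    (ZMod.intCast_zmod_eq_zero_iff_dvd _ p).symm
  rw [h3]
  push_cast
  constructor
  · intro h
    rw [h]
    field_simp
    ring
  · intro h
    have : (m : ZMod p) * Q = (a : ZMod p) - b := by linear_combination h
    rw [← this]
    field_simp

lemma rho_collision {Q b p a a' : ℕ} (hp : p.Prime) (hQ : ¬ p ∣ Q)
    (h : rho Q b p a = rho Q b p a') : p ∣ Nat.dist a a' := by
  haveI : Fact p.Prime := ⟨hp⟩
  have hQ0 : (Q : ZMod p) ≠ 0 := by
    intro h
    exact hQ ((ZMod.natCast_eq_zero_iff Q p).mp h)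
  unfold rho at h
  rw [dif_pos hp, dif_pos hp] at h
  have h2 := ZMod.val_injective p h
  have h3 : (a : ZMod p) - (b : ZMod p) = (a' : ZMod p) - b := by
    have h4 : (Q : ZMod p)⁻¹ ≠ 0 := inv_ne_zero hQ0
    exact mul_right_cancel₀ h4 h2
  have h5 : (a : ZMod p) = (a' : ZMod p) := by linear_combination h3
  have h6 : a ≡ a' [MOD p] := (ZMod.natCast_eq_natCast_iff a a' p).mp h5
  rcases le_total a a' with hle | hle
  · rw [Nat.dist_eq_sub_of_le hle]
    exact (Nat.modEq_iff_dvd' hle).mp h6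
  · rw [Nat.dist_eq_sub_of_le_right hle]
    exact (Nat.modEq_iff_dvd' hle).mp h6.symm

end Pool.Agent.H410R2.AC
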