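import Mathlib
import Pool.Agent.H410R2.ACIface
import Pool.Agent.H410R2.ACCore1
import Pool.Agent.H410R2.ACCore2

set_option autoImplicit false

open Finset Filter

namespace Pool.Agent.H410R2.AC

lemma del_le {H z N n Q b : ℕ} {C1 : ℝ} (U : Finset ℕ) (hU : ∀ a ∈ U, a ≤ N)
    (hn : U.card ≤ 2 * n + 1) (hH : 2 ≤ H) (hQ : ∀ p ∈ PP H z, ¬ p ∣ Q)
    (h4 : ∑ p ∈ PP H z, (1 : ℝ) / ((p : ℝ) - 1) ^ 2 ≤ 2 / (H : ℝ))
    (h5 : ∀ d : ℕ, 1 ≤ d → d ≤ N →
      ∑ p ∈ (PP H z).filter (fun p : ℕ => p ∣ d), (1 : ℝ) / ((p : ℝ) - 1) ≤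
        Real.log N / (H * Real.log H)) :
    del (rho Q b) (PP H z) U ≤ 2 / (H : ℝ) + (2 * n + 1) ^ 2 *
      (Real.log N / (H * Real.log H)) := by
  unfold del
  refine add_le_add h4 ?_
  set t : ℝ := Real.log N / (H * Real.log H) with ht
  have ht0 : 0 ≤ t := by
    have h1 : 0 ≤ Real.log (N : ℝ) := Real.log_natCast_nonneg N
    have h2 : 0 ≤ Real.log (H : ℝ) := Real.log_natCast_nonneg H
    positivity
  have hpos : ∀ p ∈ PP H z, (0 : ℝ) ≤ 1 / ((p : ℝ) - 1) := by
    intro p hp
    have h2 := (PP_prime hp).two_le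
    have : (2 : ℝ) ≤ p := by exact_mod_cast h2
    have : (0 : ℝ) < (p : ℝ) - 1 := by linarith
    positivity
  calc ∑ p ∈ (PP H z).filter (fun p => ∃ a ∈ U, ∃ b' ∈ U, a ≠ b' ∧ rho Q b p a = rho Q b p b'),
        1 / ((p : ℝ) - 1)
      ≤ ∑ p ∈ PP H z, ∑ x ∈ (U ×ˢ U).filter (fun x => x.1 ≠ x.2),
          (if p ∣ Nat.dist x.1 x.2 then 1 / ((p : ℝ) - 1) else 0) := by
        rw [Finset.sum_filter]
        refine Finset.sum_le_sum (fun p hp => ?_)
        split_ifs with hc
        · obtain ⟨a, ha, a', ha', hne, he⟩ := hc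
          have hd := rho_collision (PP_prime hp) (hQ p hp) he
          have hmem : (a, a') ∈ (U ×ˢ U).filter (fun x => x.1 ≠ x.2) := by
            simp [ha, ha', hne]
          refine le_trans ?_ (Finset.single_le_sum (f := fun x : ℕ × ℕ =>
            (if p ∣ Nat.dist x.1 x.2 then 1 / ((p : ℝ) - 1) else 0)) ?_ hmem)
          · exact (if_pos hd).ge
          · intro x _
            show (0 : ℝ) ≤ (if p ∣ Nat.dist x.1 x.2 then 1 / ((p : ℝ) - 1) else 0)
            split_ifs
            · exact hpos p hp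
            · exact le_rfl
        · refine Finset.sum_nonneg (fun x _ => ?_)
          split_ifs
          · exact hpos p hp
          · exact le_rfl
    _ = ∑ x ∈ (U ×ˢ U).filter (fun x => x.1 ≠ x.2),
          ∑ p ∈ (PP H z).filter (fun p : ℕ => p ∣ Nat.dist x.1 x.2), (1 : ℝ) / ((p : ℝ) - 1) := by
        rw [Finset.sum_comm]
        refine Finset.sum_congr rfl (fun x _ => ?_)
        rw [Finset.sum_filter]
    _ ≤ ∑ x ∈ (U ×ˢ U).filter (fun x => x.1 ≠ x.2), t := by
        refine Finset.sum_le_sum (fun x hx => ?_)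
        have hx1 := (Finset.mem_filter.mp hx).1
        have hx2 := (Finset.mem_filter.mp hx).2
        have hx3 := Finset.mem_product.mp hx1
        have ha := hU _ hx3.1
        have hb := hU _ hx3.2
        refine h5 _ ?_ ?_
        · exact Nat.dist_pos_of_ne hx2
        · rcases le_total x.1 x.2 with hle | hle
          · rw [Nat.dist_eq_sub_of_le hle]; omega
          · rw [Nat.dist_eq_sub_of_le_right hle]; omega
    _ = ((U ×ˢ U).filter (fun x => x.1 ≠ x.2)).card * t := by
        rw [Finset.sum_const, nsmul_eq_mul]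
    _ ≤ (2 * n + 1) ^ 2 * t := by
        refine mul_le_mul_of_nonneg_right ?_ ht0
        have h1 : ((U ×ˢ U).filter (fun x => x.1 ≠ x.2)).card ≤ (2 * n + 1) ^ 2 := by
          refine (Finset.card_filter_le _ _).trans ?_
          rw [Finset.card_product, sq]
          exact Nat.mul_le_mul hn hn
        exact_mod_cast h1

/-- the masses of the families of small products -/
lemma mass_bounds {C1 : ℝ} (hC1 : 1 ≤ C1)
    (h2 : ∀ H z Y : ℕ, 2 ≤ H → Y ≤ z → Real.log Y / Real.log H ≤
      C1 * ∑ R ∈ (PP H z).powerset.filter (fun R : Finset ℕ => ∏ p ∈ R, p ≤ Y), wt R)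
    (h3 : ∀ H z Y : ℕ, 2 ≤ H → H ≤ Y →
      ∑ R ∈ (PP H z).powerset.filter (fun R : Finset ℕ => ∏ p ∈ R, p ≤ Y), wt R ≤
        C1 * (Real.log Y / Real.log H)) (N : ℕ) (hN : 2 ≤ N) (hH : 4 ≤ HH N)
    (t : ℝ) (ht : VV N ≤ t) (ht' : t ≤ 1 / 100) :
    t / (2 * C1 * VV N) ≤ ∑ R ∈ ((PP (HH N) (zz N)).powerset).filter
        (fun R : Finset ℕ => Real.log (∏ p ∈ R, (p : ℝ)) / Real.log N ≤ t), wt R ∧
      ∑ R ∈ ((PP (HH N) (zz N)).powerset).filter
        (fun R : Finset ℕ => Real.log (∏ p ∈ R, (p : ℝ)) / Real.log N ≤ t), wt R ≤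
        2 * C1 * t / VV N := by
  have hN0 : (0 : ℝ) < N := by positivity
  have hlN : 0 < Real.log (N : ℝ) := Real.log_pos (by exact_mod_cast (by omega : 1 < N))
  have hH4 : (4 : ℝ) ≤ (HH N : ℝ) := by exact_mod_cast hH
  have hlH : 0 < Real.log (HH N : ℝ) := Real.log_pos (by linarith)
  have hV : 0 < VV N := div_pos hlH hlN
  have ht0 : 0 < t := lt_of_lt_of_le hV ht
  -- N^t ≥ H
  have hNt : (HH N : ℝ) ≤ (N : ℝ) ^ t := by
    have h4 : Real.log (HH N) ≤ t * Real.log N := by
      have : VV N * Real.log N = Real.log (HH N) := by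
        unfold VV; field_simp
      rw [← this]
      exact mul_le_mul_of_nonneg_right ht hlN.le
    calc (HH N : ℝ) = Real.exp (Real.log (HH N)) := (Real.exp_log (by linarith)).symm
      _ ≤ Real.exp (t * Real.log N) := Real.exp_le_exp.mpr h4
      _ = (N : ℝ) ^ t := by rw [Real.rpow_def_of_pos hN0, mul_comm]
  set Y : ℕ := ⌊(N : ℝ) ^ t⌋₊ with hY
  have hYH : HH N ≤ Y := Nat.le_floor hNt
  have hYle : (Y : ℝ) ≤ (N : ℝ) ^ t := Nat.floor_le (by positivity)
  have hYz : Y ≤ zz N := by
    unfold zz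
    refine Nat.floor_le_floor ?_
    exact Real.rpow_le_rpow_of_exponent_le (by exact_mod_cast (by omega : 1 ≤ N)) (by linarith)
  have hY1 : (1 : ℝ) ≤ Y := by
    have : (HH N : ℝ) ≤ Y := by exact_mod_cast hYH
    linarith
  -- identification of the filters
  have hfil : ((PP (HH N) (zz N)).powerset).filter
        (fun R : Finset ℕ => Real.log (∏ p ∈ R, (p : ℝ)) / Real.log N ≤ t) =
      (PP (HH N) (zz N)).powerset.filter (fun R : Finset ℕ => ∏ p ∈ R, p ≤ Y) := by
    refine Finset.filter_congr (fun R hR => ?_)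
    have hRP : ∀ p ∈ R, p.Prime := fun p hp => PP_prime (Finset.mem_powerset.mp hR hp)
    have h1 := prod_ge_one hRP
    rw [div_le_iff₀ hlN, hY, Nat.le_floor_iff (by positivity)]
    push_cast
    rw [← Real.log_rpow hN0]
    exact Real.log_le_log_iff (by linarith) (by positivity)
  rw [hfil]
  constructor
  · have h := h2 (HH N) (zz N) Y (by omega) hYz
    have hlogY : t / 2 * Real.log N ≤ Real.log Y := by
      have h5 : (N : ℝ) ^ t < Y + 1 := Nat.lt_floor_add_one _
      have h6 : t * Real.log N ≤ Real.log (Y + 1) := by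
        rw [← Real.log_rpow hN0]
        exact Real.log_le_log (by positivity) h5.le
      have h7 : Real.log (Y + 1) ≤ Real.log (Y ^ 2) := by
        refine Real.log_le_log (by positivity) ?_
        have : (4 : ℝ) ≤ Y := by
          have : (HH N : ℝ) ≤ Y := by exact_mod_cast hYH
          linarith
        nlinarith
      rw [Real.log_pow] at h7
      push_cast at h7
      linarith
    have h8 : t / (2 * VV N) ≤ Real.log Y / Real.log (HH N) := by
      unfold VV
      rw [div_le_div_iff₀ (by positivity) hlH]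
      field_simp
      nlinarith
    have h9 : t / (2 * C1 * VV N) = (t / (2 * VV N)) / C1 := by
      field_simp
    rw [h9, div_le_iff₀ (by linarith)]
    calc t / (2 * VV N) ≤ Real.log Y / Real.log (HH N) := h8
      _ ≤ _ := h
      _ = _ := mul_comm _ _
  · have h := h3 (HH N) (zz N) Y (by omega) hYH
    refine h.trans ?_
    have hlogY : Real.log Y ≤ t * Real.log N := by
      rw [← Real.log_rpow hN0]
      exact Real.log_le_log (by linarith) hYle
    have h8 : Real.log Y / Real.log (HH N) ≤ t / VV N := by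
      unfold VV
      rw [div_div_eq_mul_div]
      gcongr
    calc C1 * (Real.log Y / Real.log (HH N)) ≤ C1 * (t / VV N) := by gcongr
      _ ≤ 2 * C1 * t / VV N := by
        rw [mul_div_assoc]
        have : 0 ≤ t / VV N := by positivity
        nlinarith

end Pool.Agent.H410R2.AC
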