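import Mathlib
import Pool.Agent.H410R2.ACIface
import Pool.Agent.H410R2.ACCore1
import Pool.Agent.H410R2.ACCore2
import Pool.Agent.H410R2.ACCore3

set_option autoImplicit false

open Finset Filter

namespace Pool.Agent.H410R2.AC

/-- the purely numerical final contradiction -/
lemma numeric (X M k G1 η K e C C1 V R1 R2 R3 s0 : ℝ) (hX : 0 < X) (hM : 1 ≤ M)
    (hs0 : X * M - (X * (K * e) + R1) ≤ s0)
    (hs1 : s0 ≤ k * ((1 / G1) ^ 2 * (X * (G1 * (η * M)) + (X * (K / V * e) + R2))) + R3)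
    (hG1 : 0 < G1) (hk0 : 0 ≤ k) (he : 0 ≤ e) (hK : 0 ≤ K) (hV : 0 < V)
    (hkG : k * (1 / G1) * η ≤ 1 / 4) (hkV : k * (1 / G1) ^ 2 / V ≤ C)
    (hsmall : (K + C * K) * e ≤ 1 / 4) (hR : R1 + k * ((1 / G1) ^ 2 * R2) + R3 ≤ X / 4) : False := by
  have h1 : k * ((1 / G1) ^ 2 * (X * (G1 * (η * M)) + (X * (K / V * e) + R2))) =
      X * M * (k * (1 / G1) * η) + (k * (1 / G1) ^ 2 / V) * (X * (K * e)) +
        k * ((1 / G1) ^ 2 * R2) := by
    field_simp
    ring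
  rw [h1] at hs1
  have h2 : X * M * (k * (1 / G1) * η) ≤ X * M * (1 / 4) := by
    refine mul_le_mul_of_nonneg_left hkG (by positivity)
  have h3 : (k * (1 / G1) ^ 2 / V) * (X * (K * e)) ≤ C * (X * (K * e)) := by
    refine mul_le_mul_of_nonneg_right hkV (by positivity)
  have h4 : X * ((K + C * K) * e) ≤ X * (1 / 4) := mul_le_mul_of_nonneg_left hsmall hX.le
  have h5 : X ≤ X * M := le_mul_of_one_le_right hX.le hM
  nlinarith

lemma alg1 (n : ℕ) (C L C2 T : ℝ) : ((2 * C * L) ^ n * (C2 ^ n * T)) ^ 2 =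
    C2 ^ (2 * n) * (2 * C) ^ (2 * n) * L ^ (2 * n) * T ^ 2 := by
  have h1 : ((2 * C * L) ^ n * (C2 ^ n * T)) ^ 2 =
      (2 * C * L) ^ (n * 2) * (C2 ^ (n * 2) * T ^ 2) := by
    rw [mul_pow ((2 * C * L) ^ n), mul_pow (C2 ^ n) T, ← pow_mul, ← pow_mul]
  rw [h1, mul_pow (2 * C) L, mul_comm n 2]
  ring

theorem core_of (hSecond : Second) (hCollapse : Collapse) (hMain : MainIneq) (hNT : NT)
    (hTypes : Types) : Core := by
  classical
  intro C hC
  obtain ⟨C1, hC1, hN1, hN2, hN3, hN4, hN5, -⟩ := hNT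
  -- parameters
  set η : ℝ := 1 / (800 * C ^ 2 * C1) with hη
  have hη0 : 0 < η := by positivity
  obtain ⟨n, u, β, V₀, hV₀, huβ, hβs, hus, hS⟩ := hTypes (2 * C1) η (1 / 100) (by linarith) hη0
    (by norm_num)
  have hn0 : 0 < n := by
    rcases Nat.eq_zero_or_pos n with h | h
    · subst h
      simp at hβs
    · exact h
  haveI : Nonempty (Fin n) := ⟨⟨0, hn0⟩⟩
  -- the constant for g
  obtain ⟨βm, hβm0, hβm⟩ : ∃ βm : ℝ, 0 < βm ∧ ∀ τ, βm ≤ β τ := by
    obtain ⟨τ0, -, h⟩ := Finset.exists_min_image (Finset.univ : Finset (Fin n)) β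
      Finset.univ_nonempty
    exact ⟨β τ0, (huβ τ0).2, fun τ => h τ (Finset.mem_univ τ)⟩
  set C2 : ℝ := C + C1 + η / βm + 1 with hC2
  have hηβ : 0 < η / βm := by positivity
  have hC2' : 1 ≤ C2 := by linarith
  obtain ⟨K, hK, hSec⟩ := hSecond n C2 hC2'
  -- asymptotic facts
  set C3 : ℝ := C * (200 * C1) ^ 2 with hC3
  have hC30 : 0 < C3 := by positivity
  have hev1 : ∀ᶠ N : ℕ in atTop, (K + C3 * K) * (Real.exp (K * dd n N) - 1) ≤ 1 / 4 := by
    have h1 : Tendsto (fun N : ℕ => (K + C3 * K) * (Real.exp (K * dd n N) - 1)) atTop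
        (nhds ((K + C3 * K) * (Real.exp (K * 0) - 1))) := by
      have h2 := (dd_tendsto n).const_mul K
      have h3 := (Real.continuous_exp.tendsto _).comp h2
      exact (h3.sub_const 1).const_mul _
    simp only [mul_zero, Real.exp_zero, sub_self] at h1
    exact h1.eventually_le_const (by norm_num)
  set D : ℝ := (K * (2 * C) ^ (2 * n) + C * (200 * C1) ^ 2 * (K * (2 * C) ^ (2 * n)) +
    C2 ^ (2 * n) * (2 * C) ^ (2 * n)) with hD
  have hev2 : ∀ᶠ N : ℕ in atTop, (4 * D) * Real.log N ^ (2 * n + 1) ≤ (N : ℝ) ^ (1 / 100 : ℝ) :=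
    log_pow_small _ _ _ (by norm_num)
  have hev3 : ∀ᶠ N : ℕ in atTop, VV N ≤ V₀ := VV_tendsto.eventually_le_const hV₀
  have hev4 : ∀ᶠ N : ℕ in atTop, VV N ≤ 1 / 100 := VV_tendsto.eventually_le_const (by norm_num)
  have hev5 : ∀ᶠ N : ℕ in atTop, (4 : ℝ) ≤ (HH N : ℝ) := tendsto_HH.eventually_ge_atTop 4
  have hev6 : ∀ᶠ N : ℕ in atTop, (1 : ℝ) ≤ Real.log N := tendsto_log_nat.eventually_ge_atTop 1
  have hev7 : ∀ᶠ N : ℕ in atTop, Real.log 4 * 200 ≤ Real.log N :=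
    tendsto_log_nat.eventually_ge_atTop _
  have hall := hev1.and (hev2.and (hev3.and (hev4.and (hev5.and (hev6.and
    (hev7.and (eventually_ge_atTop 16)))))))
  obtain ⟨N₀, hN₀⟩ := eventually_atTop.mp hall
  refine ⟨N₀, fun N hN H z hH hz B Q b X hBN hBc hQ hX E hE => ?_⟩
  obtain ⟨he1, he2, he3, he4, he5, he6, he7, hN16⟩ := hN₀ N hN
  have hHH : HH N = H := by rw [hH]; rfl
  have hzz : zz N = z := by rw [hz]; rfl
  by_contra hcon
  push Not at hcon
  -- basic quantities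
  have hN1' : (1 : ℝ) ≤ N := by exact_mod_cast (by omega : 1 ≤ N)
  have hN0 : (0 : ℝ) < N := by linarith
  have hlN : 0 < Real.log (N : ℝ) := by linarith
  rw [hHH] at he5
  have hH4 : 4 ≤ H := by exact_mod_cast he5
  have hlH : 0 < Real.log (H : ℝ) := Real.log_pos (by linarith)
  set V : ℝ := VV N with hVdef
  have hV' : V = Real.log H / Real.log N := by rw [hVdef]; unfold VV; rw [hHH]
  have hV : 0 < V := by rw [hV']; positivity
  have hV1 : V ≤ 1 := by linarith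
  have hX0 : (0 : ℝ) < X := lt_of_lt_of_le (by positivity) hX
  -- cardinality of B
  have hBV : (B.card : ℝ) ≤ C / V := by
    rw [hV', div_div_eq_mul_div, le_div_iff₀ hlH]
    exact hBc
  have hHz : H ≤ z := by
    rw [← hHH, ← hzz]
    unfold HH zz
    refine Nat.floor_le_floor ?_
    have h1 : Real.log (N : ℝ) ≤ (N : ℝ) ^ (1 / 10 : ℝ) / (1 / 10) :=
      Real.log_le_rpow_div hN0.le (by norm_num)
    have : (0 : ℝ) ≤ (N : ℝ) ^ (1 / 10 : ℝ) := by positivity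
    linarith
  set P : Finset ℕ := PP H z with hP
  have hPp : ∀ p ∈ P, p.Prime := fun p hp => PP_prime hp
  have hPi : Pi1 P ≤ C1 / V := by
    refine (hN1 H z (by omega) hHz).trans ?_
    rw [hV', div_div_eq_mul_div, mul_div_assoc]
    have hzN : (z : ℝ) ≤ N := by
      rw [hz]
      refine (Nat.floor_le (by positivity)).trans ?_
      calc (N : ℝ) ^ (1 / 10 : ℝ) ≤ (N : ℝ) ^ (1 : ℝ) :=
            Real.rpow_le_rpow_of_exponent_le hN1' (by norm_num)
        _ = N := Real.rpow_one _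
    have hz0 : (0 : ℝ) < z := by
      have : (H : ℝ) ≤ z := by exact_mod_cast hHz
      linarith
    have := Real.log_le_log hz0 hzN
    gcongr
  -- the families
  have hmass : ∀ t : ℝ, V ≤ t → t ≤ 1 / 100 →
      t / (2 * C1 * V) ≤ ∑ R ∈ (P.powerset).filter
        (fun R : Finset ℕ => Real.log (∏ p ∈ R, (p : ℝ)) / Real.log N ≤ t), wt R ∧
      ∑ R ∈ (P.powerset).filter
        (fun R : Finset ℕ => Real.log (∏ p ∈ R, (p : ℝ)) / Real.log N ≤ t), wt R ≤
        2 * C1 * t / V := by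
    intro t ht ht'
    have h := mass_bounds hC1 hN2 hN3 N (by omega) (by rw [hHH]; exact hH4) t ht ht'
    rw [hHH, hzz] at h
    exact h
  have hpow : ∀ R ∈ P.powerset, ∀ p ∈ R, p.Prime := fun R hR p hp =>
    hPp p (Finset.mem_powerset.mp hR hp)
  obtain ⟨S, hSsub, hSdis, hSmass⟩ := hS V P.powerset wt
    (fun R => Real.log (∏ p ∈ R, (p : ℝ)) / Real.log N) hV he3
    (fun R hR => ⟨wt_nonneg (hpow R hR), wt_le_one (hpow R hR)⟩) hmass
  have hSP : ∀ τ, ∀ R ∈ S τ, R ⊆ P := by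
    intro τ R hR
    exact Finset.mem_powerset.mp (Finset.mem_filter.mp (hSsub τ hR)).1
  have hSpr : ∀ τ, ∀ R ∈ S τ, ∀ p ∈ R, p.Prime := fun τ R hR p hp => hPp p (hSP τ R hR hp)
  have hSe : ∀ τ, ∅ ∉ S τ := by
    intro τ h
    have h1 := (Finset.mem_filter.mp (hSsub τ h)).2.1
    simp at h1
    linarith
  have hSGG : ∀ τ, β τ ^ 2 / (η * V) ≤ GG (S τ) := hSmass
  have hGpos : ∀ τ, 0 < GG (S τ) := fun τ =>
    lt_of_lt_of_le (by have := (huβ τ).2; positivity) (hSGG τ)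
  set g : Fin n → ℝ := fun τ => β τ / GG (S τ) with hg
  have hgG : ∀ τ, g τ * GG (S τ) = β τ := fun τ => div_mul_cancel₀ _ (hGpos τ).ne'
  have hgle : ∀ τ, g τ ≤ η / βm * V := by
    intro τ
    have hb := (huβ τ).2
    have h1 : g τ ≤ β τ / (β τ ^ 2 / (η * V)) := by
      have := hSGG τ
      simp only [hg]
      gcongr
    have h2 : β τ / (β τ ^ 2 / (η * V)) = η / β τ * V := by field_simp
    rw [h2] at h1
    refine h1.trans ?_
    have := hβm τ
    gcongr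
  have hg0 : ∀ τ, 0 ≤ g τ := fun τ => div_nonneg (huβ τ).2.le (hGpos τ).le
  -- sizes
  set Y : Fin n → ℝ := fun τ => (N : ℝ) ^ (3 * u τ) with hYdef
  have hY1 : ∀ τ, 1 ≤ Y τ := fun τ => Real.one_le_rpow hN1' (by have := (huβ τ).1; positivity)
  have hsz : ∀ τ, ∀ R ∈ S τ, ∏ p ∈ R, (p : ℝ) ≤ (N : ℝ) ^ (u τ) := by
    intro τ R hR
    have h1 := (Finset.mem_filter.mp (hSsub τ hR)).2.2
    have h2 := prod_ge_one (hSpr τ R hR)
    rw [div_le_iff₀ hlN, ← Real.log_rpow hN0] at h1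
    exact (Real.log_le_log_iff (by linarith) (by positivity)).mp h1
  have hYs : ∀ τ, ∑ R ∈ S τ, wt R * (∏ p ∈ R, (p : ℝ)) ^ 2 ≤ Y τ := by
    intro τ
    have h := size_bound (hSpr τ) (hsz τ)
      (Real.one_le_rpow hN1' (huβ τ).1.le)
    refine h.trans_eq ?_
    simp only [hYdef]
    rw [← Real.rpow_natCast, ← Real.rpow_mul hN0.le]
    congr 1
    push_cast
    ring
  have hYprod : ∏ τ, Y τ ≤ (N : ℝ) ^ (3 / 100 : ℝ) := by
    have h1 : ∏ τ, Y τ = (N : ℝ) ^ (∑ τ, 3 * u τ) := by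
      rw [Real.rpow_sum_of_pos hN0]
    rw [h1, ← Finset.mul_sum]
    exact Real.rpow_le_rpow_of_exponent_le hN1' (by linarith)
  have hYprod1 : 1 ≤ ∏ τ, Y τ := by
    have := Finset.prod_le_prod (s := (Finset.univ : Finset (Fin n))) (f := fun _ => (1 : ℝ))
      (g := Y) (fun _ _ => zero_le_one) (fun τ _ => hY1 τ)
    simpa using this
  -- the star family
  set S1 : Finset (Finset ℕ) := (P.powerset).filter
        (fun R : Finset ℕ => Real.log (∏ p ∈ R, (p : ℝ)) / Real.log N ≤ 1 / 100) with hS1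
  have hS1P : ∀ R ∈ S1, R ⊆ P := fun R hR =>
    Finset.mem_powerset.mp (Finset.mem_filter.mp hR).1
  have hS1pr : ∀ R ∈ S1, ∀ p ∈ R, p.Prime := fun R hR p hp => hPp p (hS1P R hR hp)
  have hG1 : 1 / (200 * C1 * V) ≤ GG S1 := by
    have h := (hmass (1 / 100) he4 le_rfl).1
    have h2 : (1 : ℝ) / 100 / (2 * C1 * V) = 1 / (200 * C1 * V) := by
      field_simp
      norm_num
    rw [h2] at h
    exact h
  have hG1pos : 0 < GG S1 := lt_of_lt_of_le (by positivity) hG1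
  have hG1inv : 1 / GG S1 ≤ 200 * C1 * V := by
    rw [div_le_iff₀ hG1pos]
    have h1 : 1 = 200 * C1 * V * (1 / (200 * C1 * V)) := by field_simp
    calc (1 : ℝ) = 200 * C1 * V * (1 / (200 * C1 * V)) := h1
      _ ≤ 200 * C1 * V * GG S1 := by gcongr
  have hY1s : ∑ R ∈ S1, wt R * (∏ p ∈ R, (p : ℝ)) ^ 2 ≤ (N : ℝ) ^ (3 / 100 : ℝ) := by
    have hsz1 : ∀ R ∈ S1, ∏ p ∈ R, (p : ℝ) ≤ (N : ℝ) ^ (1 / 100 : ℝ) := by
      intro R hR
      have h1 := (Finset.mem_filter.mp hR).2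
      have h2 := prod_ge_one (hS1pr R hR)
      rw [div_le_iff₀ hlN, ← Real.log_rpow hN0] at h1
      exact (Real.log_le_log_iff (by linarith) (by positivity)).mp h1
    have h := size_bound hS1pr hsz1 (Real.one_le_rpow hN1' (by norm_num))
    refine h.trans_eq ?_
    rw [← Real.rpow_natCast, ← Real.rpow_mul hN0.le]
    norm_num
  have hNp1 : 1 ≤ (N : ℝ) ^ (3 / 100 : ℝ) := Real.one_le_rpow hN1' (by norm_num)
  -- apply Second
  have hdel : ∀ U ⊆ B, U.card ≤ 2 * n + 1 → del (rho Q b) P U ≤ dd n N := by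
    intro U hU hUc
    have h := del_le (C1 := C1) (n := n) (b := b) U (fun a ha => hBN a (hU ha)) hUc (by omega) hQ
      (hN4 H z (by omega)) (fun d hd hd' => hN5 H z d N (by omega) hd hd')
    have h2 : dd n N = 2 / (H : ℝ) + (2 * n + 1) ^ 2 * (Real.log N / (H * Real.log H)) := by
      unfold dd; rw [hHH]
    rw [h2]
    exact h
  have hdd0 : 0 ≤ dd n N := by
    unfold dd
    rw [hHH]
    positivity
  obtain ⟨hA, hB⟩ := hSec P B (rho Q b) S g Y V (dd n N) hPp hV hV1 hdd0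
    (hPi.trans (by gcongr; linarith [hηβ])) (hBV.trans (by gcongr; linarith [hηβ]))
    (fun τ => ⟨hg0 τ, (hgle τ).trans (by gcongr; linarith)⟩) hSP hSe hSdis
    (fun p hp a _ => rho_lt (hPp p hp)) hdel (fun τ => ⟨hY1 τ, hYs τ⟩)
  set x : ℕ → Fin n → ℕ → ℝ := fun m τ a => - g τ * FF (rho Q b) (S τ) (some a) m with hx
  set M : ℝ := ∑ σ ∈ cfg n B, occ (fun τ => g τ ^ 2 * GG (S τ)) σ with hM
  have hA1 := hA (fun _ => 1) (fun σ => by simp) X
  simp only [one_pow, one_mul] at hA1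
  -- main inequality
  have hβ0 : ∀ τ, 0 ≤ β τ := fun τ => (huβ τ).2.le
  have hq : ∀ τ, 0 ≤ g τ ^ 2 * GG (S τ) := fun τ => mul_nonneg (sq_nonneg _) (hGpos τ).le
  have hqη : ∀ τ, (B.card : ℝ) * (g τ ^ 2 * GG (S τ)) ≤ C * η := by
    intro τ
    have h1 : g τ ^ 2 * GG (S τ) = β τ ^ 2 / GG (S τ) := by
      simp only [hg]
      have := (hGpos τ).ne'
      field_simp
    have h2 : β τ ^ 2 / GG (S τ) ≤ η * V := by
      rw [div_le_iff₀ (hGpos τ)]
      have h3 := hSGG τ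
      rw [div_le_iff₀ (by positivity)] at h3
      linarith
    rw [h1]
    have h4 : 0 ≤ β τ ^ 2 / GG (S τ) := div_nonneg (sq_nonneg _) (hGpos τ).le
    calc (B.card : ℝ) * (β τ ^ 2 / GG (S τ)) ≤ (C / V) * (η * V) :=
          mul_le_mul hBV h2 h4 (by positivity)
      _ = C * η := by field_simp
  have hM1 : 1 ≤ M := (hMain n B 0 β _ (C * η) hβ0 hβs hq hqη).2
  -- lower bound for the second moment
  have hlow : (X : ℝ) * M - ((X : ℝ) * (K * (Real.exp (K * dd n N) - 1)) +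
      K * ((B.card + 1 : ℝ) ^ (2 * n) * (∏ τ, Y τ) ^ 2)) ≤
      ∑ m ∈ range X, WW B (fun _ => 1) (x m) ^ 2 := by
    have := (abs_le.mp hA1).1
    linarith
  -- upper bound through the rough positions
  have hup : ∑ m ∈ range X, WW B (fun _ => 1) (x m) ^ 2 ≤
      B.card * ((1 / GG S1) ^ 2 * ((X : ℝ) * (GG S1 * ((C * η) * M)) +
        ((X : ℝ) * (K / V * (Real.exp (K * dd n N) - 1)) +
          K * ((B.card + 1 : ℝ) ^ (2 * n) * ((N : ℝ) ^ (3 / 100 : ℝ) * ∏ τ, Y τ) ^ 2)))) +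
      ∑ m ∈ (range X).filter (fun m => m ∈ E), WW B (fun _ => 1) (x m) ^ 2 := by
    have h1 : ∀ m ∈ range X, WW B (fun _ => 1) (x m) ^ 2 ≤
        ∑ a₀ ∈ B, (1 / GG S1) ^ 2 * (WW (B.erase a₀) (coef β) (x m) *
          FF (rho Q b) S1 (some a₀) m) ^ 2 +
        (if m ∈ E then WW B (fun _ => 1) (x m) ^ 2 else 0) := by
      intro m hm
      have hnn : 0 ≤ ∑ a₀ ∈ B, (1 / GG S1) ^ 2 * (WW (B.erase a₀) (coef β) (x m) *
          FF (rho Q b) S1 (some a₀) m) ^ 2 :=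
        Finset.sum_nonneg (fun a _ => by positivity)
      by_cases hmE : m ∈ E
      · rw [if_pos hmE]
        linarith
      · rw [if_neg hmE, add_zero]
        obtain ⟨a₀, ha₀, hr⟩ := hcon m (Finset.mem_range.mp hm) hmE
        have hrough : ∀ p ∈ P, m % p ≠ rho Q b p a₀ := by
          intro p hp he
          exact hr p hp ((rho_iff (hPp p hp) (hQ p hp)).mp he)
        have hxβ : ∀ τ, x m τ a₀ = - β τ := by
          intro τ
          simp only [hx]
          rw [FF_rough (hSP τ) hrough, ← hgG τ]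
          ring
        have hc := hCollapse n B a₀ β (x m) ha₀ hβs hxβ
        have hf : FF (rho Q b) S1 (some a₀) m = GG S1 := FF_rough hS1P hrough
        refine le_trans ?_ (Finset.single_le_sum (f := fun a₀ => (1 / GG S1) ^ 2 *
          (WW (B.erase a₀) (coef β) (x m) * FF (rho Q b) S1 (some a₀) m) ^ 2)
          (fun a _ => by positivity) ha₀)
        show WW B (fun _ => 1) (x m) ^ 2 ≤ (1 / GG S1) ^ 2 *
          (WW (B.erase a₀) (coef β) (x m) * FF (rho Q b) S1 (some a₀) m) ^ 2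
        rw [hc, hf, mul_pow]
        have : (1 / GG S1) ^ 2 * (WW (B.erase a₀) (coef β) (x m) ^ 2 * GG S1 ^ 2) =
            WW (B.erase a₀) (coef β) (x m) ^ 2 := by
          field_simp
        rw [this]
    refine (Finset.sum_le_sum h1).trans ?_
    rw [Finset.sum_add_distrib, Finset.sum_comm, ← Finset.sum_filter]
    refine add_le_add ?_ le_rfl
    rw [← nsmul_eq_mul]
    refine Finset.sum_le_card_nsmul _ _ _ (fun a₀ ha₀ => ?_)
    rw [← Finset.mul_sum]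
    refine mul_le_mul_of_nonneg_left ?_ (by positivity)
    have h2 := hB S1 ((N : ℝ) ^ (3 / 100 : ℝ)) hS1P hNp1 hY1s a₀ ha₀ (coef β)
      (fun σ => coef_abs hβ0 hβs σ) X
    have h3 := (abs_le.mp h2).2
    have h4 := (hMain n B a₀ β _ (C * η) hβ0 hβs hq hqη).1
    have h5 : (X : ℝ) * (GG S1 * ∑ σ ∈ cfg n (B.erase a₀),
        coef β σ ^ 2 * occ (fun τ => g τ ^ 2 * GG (S τ)) σ) ≤
        (X : ℝ) * (GG S1 * ((C * η) * M)) := by
      gcongr
    linarith
  -- the exceptional set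
  have hBlog : (B.card : ℝ) + 1 ≤ 2 * C * Real.log N := by
    have h1 : (B.card : ℝ) ≤ C * Real.log N := by
      have hlH1 : 1 ≤ Real.log (H : ℝ) := by
        have h2 : Real.exp 1 ≤ H := by
          have := Real.exp_one_lt_d9
          linarith
        calc (1 : ℝ) = Real.log (Real.exp 1) := (Real.log_exp 1).symm
          _ ≤ Real.log H := Real.log_le_log (Real.exp_pos 1) h2
      have h3 : (B.card : ℝ) * 1 ≤ B.card * Real.log H := by gcongr
      linarith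
    have h2 : 1 ≤ C * Real.log N := one_le_mul_of_one_le_of_one_le hC he6
    linarith
  have hxabs : ∀ m τ a, |x m τ a| ≤ C2 * Y τ := by
    intro m τ a
    simp only [hx]
    rw [abs_mul, abs_neg, abs_of_nonneg (hg0 τ)]
    have h1 := FF_abs (ρ := rho Q b) (hSpr τ) (hYs τ) (some a) m
    have h2 : g τ ≤ C2 := by
      refine (hgle τ).trans ?_
      have : η / βm * V ≤ η / βm * 1 := by gcongr
      linarith
    exact mul_le_mul h2 h1 (abs_nonneg _) (by linarith)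
  have hWabs : ∀ m, WW B (fun _ => 1) (x m) ^ 2 ≤
      C2 ^ (2 * n) * (2 * C) ^ (2 * n) * Real.log N ^ (2 * n) * (N : ℝ) ^ (6 / 100 : ℝ) := by
    intro m
    have h1 := WW_abs (n := n) (B := B) (x := x m) (y := fun τ => C2 * Y τ)
      (fun τ => one_le_mul_of_one_le_of_one_le hC2' (hY1 τ)) (fun τ a => hxabs m τ a)
    have h2 : ∏ τ, C2 * Y τ ≤ C2 ^ n * (N : ℝ) ^ (3 / 100 : ℝ) := by
      rw [Finset.prod_mul_distrib, Finset.prod_const, Finset.card_univ, Fintype.card_fin]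
      gcongr
    have h3 : |WW B (fun _ => 1) (x m)| ≤
        (2 * C * Real.log N) ^ n * (C2 ^ n * (N : ℝ) ^ (3 / 100 : ℝ)) := by
      refine h1.trans (mul_le_mul ?_ h2 ?_ (by positivity))
      · gcongr
      · exact Finset.prod_nonneg (fun τ _ => by have := hY1 τ; positivity)
    rw [← sq_abs]
    calc |WW B (fun _ => 1) (x m)| ^ 2 ≤
          ((2 * C * Real.log N) ^ n * (C2 ^ n * (N : ℝ) ^ (3 / 100 : ℝ))) ^ 2 := by gcongr
      _ = C2 ^ (2 * n) * (2 * C) ^ (2 * n) * Real.log N ^ (2 * n) *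
          ((N : ℝ) ^ (3 / 100 : ℝ)) ^ 2 := alg1 n C _ C2 _
      _ = _ := by
        rw [← Real.rpow_natCast ((N : ℝ) ^ (3 / 100 : ℝ)) 2, ← Real.rpow_mul hN0.le]
        norm_num
  have hR3 : ∑ m ∈ (range X).filter (fun m => m ∈ E), WW B (fun _ => 1) (x m) ^ 2 ≤
      C2 ^ (2 * n) * (2 * C) ^ (2 * n) * Real.log N ^ (2 * n + 1) * (N : ℝ) ^ (31 / 100 : ℝ) := by
    have h1 : (((range X).filter (fun m => m ∈ E)).card : ℝ) ≤ (N : ℝ) ^ (1 / 4 : ℝ) := by
      refine le_trans ?_ hE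
      have : ((range X).filter (fun m => m ∈ E)) ⊆ E := fun m hm => (Finset.mem_filter.mp hm).2
      exact_mod_cast Finset.card_le_card this
    refine (Finset.sum_le_card_nsmul _ _ _ (fun m _ => hWabs m)).trans ?_
    rw [nsmul_eq_mul]
    calc (((range X).filter (fun m => m ∈ E)).card : ℝ) *
          (C2 ^ (2 * n) * (2 * C) ^ (2 * n) * Real.log N ^ (2 * n) * (N : ℝ) ^ (6 / 100 : ℝ))
        ≤ (N : ℝ) ^ (1 / 4 : ℝ) *
          (C2 ^ (2 * n) * (2 * C) ^ (2 * n) * Real.log N ^ (2 * n) * (N : ℝ) ^ (6 / 100 : ℝ)) := by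
          gcongr
      _ = C2 ^ (2 * n) * (2 * C) ^ (2 * n) * Real.log N ^ (2 * n) *
          ((N : ℝ) ^ (1 / 4 : ℝ) * (N : ℝ) ^ (6 / 100 : ℝ)) := by ring
      _ = C2 ^ (2 * n) * (2 * C) ^ (2 * n) * Real.log N ^ (2 * n) * (N : ℝ) ^ (31 / 100 : ℝ) := by
          rw [← Real.rpow_add hN0]
          norm_num
      _ ≤ C2 ^ (2 * n) * (2 * C) ^ (2 * n) * Real.log N ^ (2 * n + 1) *
          (N : ℝ) ^ (31 / 100 : ℝ) := by
          have : Real.log N ^ (2 * n) ≤ Real.log N ^ (2 * n + 1) :=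
            pow_le_pow_right₀ he6 (by omega)
          gcongr
  have hR1 : K * ((B.card + 1 : ℝ) ^ (2 * n) * (∏ τ, Y τ) ^ 2) ≤
      K * (2 * C) ^ (2 * n) * Real.log N ^ (2 * n + 1) * (N : ℝ) ^ (31 / 100 : ℝ) := by
    have h1 : (∏ τ, Y τ) ^ 2 ≤ (N : ℝ) ^ (31 / 100 : ℝ) := by
      calc (∏ τ, Y τ) ^ 2 ≤ ((N : ℝ) ^ (3 / 100 : ℝ)) ^ 2 := by gcongr
        _ = (N : ℝ) ^ (6 / 100 : ℝ) := by
          rw [← Real.rpow_natCast ((N : ℝ) ^ (3 / 100 : ℝ)) 2, ← Real.rpow_mul hN0.le]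
          norm_num
        _ ≤ _ := Real.rpow_le_rpow_of_exponent_le hN1' (by norm_num)
    have h2 : (B.card + 1 : ℝ) ^ (2 * n) ≤ (2 * C) ^ (2 * n) * Real.log N ^ (2 * n + 1) := by
      calc (B.card + 1 : ℝ) ^ (2 * n) ≤ (2 * C * Real.log N) ^ (2 * n) := by gcongr
        _ = (2 * C) ^ (2 * n) * Real.log N ^ (2 * n) := by rw [mul_pow]
        _ ≤ _ := by
          have : Real.log N ^ (2 * n) ≤ Real.log N ^ (2 * n + 1) :=
            pow_le_pow_right₀ he6 (by omega)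
          gcongr
    calc K * ((B.card + 1 : ℝ) ^ (2 * n) * (∏ τ, Y τ) ^ 2) ≤
          K * (((2 * C) ^ (2 * n) * Real.log N ^ (2 * n + 1)) * (N : ℝ) ^ (31 / 100 : ℝ)) := by
          gcongr
      _ = _ := by ring
  have hG1inv1 : 1 / GG S1 ≤ 200 * C1 := by
    refine hG1inv.trans ?_
    have : 200 * C1 * V ≤ 200 * C1 * 1 := by gcongr
    linarith
  have hR2 : B.card * ((1 / GG S1) ^ 2 *
      (K * ((B.card + 1 : ℝ) ^ (2 * n) * ((N : ℝ) ^ (3 / 100 : ℝ) * ∏ τ, Y τ) ^ 2))) ≤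
      C * (200 * C1) ^ 2 * (K * (2 * C) ^ (2 * n)) * Real.log N ^ (2 * n + 1) *
        (N : ℝ) ^ (31 / 100 : ℝ) := by
    have h1 : ((N : ℝ) ^ (3 / 100 : ℝ) * ∏ τ, Y τ) ^ 2 ≤ (N : ℝ) ^ (31 / 100 : ℝ) := by
      calc ((N : ℝ) ^ (3 / 100 : ℝ) * ∏ τ, Y τ) ^ 2 ≤
            ((N : ℝ) ^ (3 / 100 : ℝ) * (N : ℝ) ^ (3 / 100 : ℝ)) ^ 2 := by gcongr
        _ = (N : ℝ) ^ (12 / 100 : ℝ) := by
          rw [← Real.rpow_add hN0, ← Real.rpow_natCast _ 2, ← Real.rpow_mul hN0.le]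
          norm_num
        _ ≤ _ := Real.rpow_le_rpow_of_exponent_le hN1' (by norm_num)
    have h2 : (B.card + 1 : ℝ) ^ (2 * n) ≤ (2 * C) ^ (2 * n) * Real.log N ^ (2 * n) := by
      calc (B.card + 1 : ℝ) ^ (2 * n) ≤ (2 * C * Real.log N) ^ (2 * n) := by gcongr
        _ = (2 * C) ^ (2 * n) * Real.log N ^ (2 * n) := by rw [mul_pow]
    have hB1 : (B.card : ℝ) ≤ C * Real.log N := by
      rw [hV'] at hBV
      have hlH1 : 1 ≤ Real.log (H : ℝ) := by
        have h2 : Real.exp 1 ≤ H := by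
          have := Real.exp_one_lt_d9
          linarith
        calc (1 : ℝ) = Real.log (Real.exp 1) := (Real.log_exp 1).symm
          _ ≤ Real.log H := Real.log_le_log (Real.exp_pos 1) h2
      have h3 : (B.card : ℝ) * 1 ≤ B.card * Real.log H := by gcongr
      linarith
    have hinv0 : 0 ≤ 1 / GG S1 := by positivity
    calc B.card * ((1 / GG S1) ^ 2 *
      (K * ((B.card + 1 : ℝ) ^ (2 * n) * ((N : ℝ) ^ (3 / 100 : ℝ) * ∏ τ, Y τ) ^ 2))) ≤
        (C * Real.log N) * ((200 * C1) ^ 2 *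
          (K * (((2 * C) ^ (2 * n) * Real.log N ^ (2 * n)) * (N : ℝ) ^ (31 / 100 : ℝ)))) := by
          gcongr
      _ = _ := by ring
  -- final numerics
  have hX31 : D * Real.log N ^ (2 * n + 1) * (N : ℝ) ^ (31 / 100 : ℝ) ≤ X / 4 := by
    have h1 : 4 * (D * Real.log N ^ (2 * n + 1) * (N : ℝ) ^ (31 / 100 : ℝ)) ≤ X := by
      calc 4 * (D * Real.log N ^ (2 * n + 1) * (N : ℝ) ^ (31 / 100 : ℝ)) =
            (4 * D * Real.log N ^ (2 * n + 1)) * (N : ℝ) ^ (31 / 100 : ℝ) := by ring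
        _ ≤ (N : ℝ) ^ (1 / 100 : ℝ) * (N : ℝ) ^ (31 / 100 : ℝ) := by gcongr
        _ = (N : ℝ) ^ (32 / 100 : ℝ) := by
          rw [← Real.rpow_add hN0]
          norm_num
        _ ≤ (N : ℝ) ^ (1 / 2 : ℝ) := Real.rpow_le_rpow_of_exponent_le hN1' (by norm_num)
        _ ≤ X := hX
    linarith
  have he0 : 0 ≤ Real.exp (K * dd n N) - 1 := by
    have := Real.one_le_exp (mul_nonneg hK hdd0)
    linarith
  refine numeric (X := (X : ℝ)) (M := M) (k := (B.card : ℝ)) (G1 := GG S1) (η := C * η) (K := K)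
    (e := Real.exp (K * dd n N) - 1) (C := C3) (C1 := C1) (V := V)
    (R1 := K * ((B.card + 1 : ℝ) ^ (2 * n) * (∏ τ, Y τ) ^ 2))
    (R2 := K * ((B.card + 1 : ℝ) ^ (2 * n) * ((N : ℝ) ^ (3 / 100 : ℝ) * ∏ τ, Y τ) ^ 2))
    (R3 := ∑ m ∈ (range X).filter (fun m => m ∈ E), WW B (fun _ => 1) (x m) ^ 2)
    (s0 := ∑ m ∈ range X, WW B (fun _ => 1) (x m) ^ 2)
    hX0 hM1 hlow hup hG1pos (by positivity) he0 hK hV ?_ ?_ he1 ?_
  · calc (B.card : ℝ) * (1 / GG S1) * (C * η) ≤ (C / V) * (200 * C1 * V) * (C * η) := by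
          gcongr
      _ = 1 / 4 := by
          rw [hη]
          field_simp
          norm_num
  · have hinv0 : 0 ≤ 1 / GG S1 := by positivity
    calc (B.card : ℝ) * (1 / GG S1) ^ 2 / V ≤ (C / V) * (200 * C1 * V) ^ 2 / V := by
          gcongr
      _ = C3 := by
          rw [hC3]
          field_simp
  · have h1 := hR1
    have h2 := hR2
    have h3 := hR3
    have h4 : K * (2 * C) ^ (2 * n) * Real.log N ^ (2 * n + 1) * (N : ℝ) ^ (31 / 100 : ℝ) +
        C * (200 * C1) ^ 2 * (K * (2 * C) ^ (2 * n)) * Real.log N ^ (2 * n + 1) *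
          (N : ℝ) ^ (31 / 100 : ℝ) +
        C2 ^ (2 * n) * (2 * C) ^ (2 * n) * Real.log N ^ (2 * n + 1) * (N : ℝ) ^ (31 / 100 : ℝ) =
        D * Real.log N ^ (2 * n + 1) * (N : ℝ) ^ (31 / 100 : ℝ) := by
      rw [hD]; ring
    linarith

end Pool.Agent.H410R2.AC
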