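import Mathlib
import Pool.Agent.H410R2.ACIface
import Pool.Agent.H410R2.ACCore
import Pool.Agent.H415R2.ACLocal
import Pool.Agent.H898R2.AC5
import Pool.Agent.H708R2.ACTypes
import Pool.Agent.H212R2.AC4b
import Pool.Agent.H724R2.ACEqui
import Pool.Agent.H143R2.ACMoment
import Pool.Agent.H143R2.ACFinal
import Pool.Agent.H647R2.ACNT
import Pool.Agent.H400R2.AC4

set_option autoImplicit false

namespace Pool.Agent.H410R2.AC

theorem moment : Moment :=
  Pool.Agent.H143R2.ACM.moment_of Pool.Agent.H415R2.ACLocal.localSum Pool.Agent.H724R2.equi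

theorem second : Second :=
  Pool.Agent.H400R2.AC4.second_of Pool.Agent.H212R2.AC4b.countMaps moment

/-- the core theorem: up to C log N / log H positions can be hit simultaneously by primes -/
theorem core : Core :=
  core_of second Pool.Agent.H898R2.AC5.collapse Pool.Agent.H898R2.AC5.mainIneq
    Pool.Agent.H647R2.ACNT.nt Pool.Agent.H708R2.types

theorem final : Final := Pool.Agent.H143R2.ACF.final_of Pool.Agent.H647R2.ACNT.nt core

end Pool.Agent.H410R2.AC
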