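import Pool.Agent.H410R2.EDIface

set_option autoImplicit false

open Finset

namespace Pool.Agent.H410R2.ED

/-- parameters -/
theorem params (C : ℝ) (hC : 0 < C) (k : ℕ) : ∃ b T : ℕ, 2 ≤ b ∧
    2 * (k + 1) * (T + 2) ^ (k + 2) ≤ b ∧
    2 * (C * ((k + 1) * b ^ k : ℕ) * Real.log ((k + 1) * b ^ k : ℕ)) ≤ (T * b ^ k : ℕ) := by
  -- T(b) := ceil (2 C (k+1) log ((k+1) b^k))
  set F : ℝ → ℝ := fun x => 2 * C * (k + 1) * (Real.log (k + 1) + k * Real.log x) + 3 with hF
  have h1 : Filter.Tendsto (fun x : ℝ => F x ^ (k + 2) / x) Filter.atTop (nhds 0) := by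
    have hlog : ∀ j : ℕ, Filter.Tendsto (fun x : ℝ => Real.log x ^ j / x) Filter.atTop (nhds 0) := by
      intro j
      have := Real.tendsto_pow_log_div_mul_add_atTop 1 0 j one_ne_zero
      simpa using this
    set α : ℝ := 2 * C * (k + 1) * Real.log (k + 1) + 3 with hα
    set β : ℝ := 2 * C * (k + 1) * k with hβ
    have h2 : ∀ x : ℝ, F x ^ (k + 2) / x =
        ∑ j ∈ range (k + 2 + 1), (α ^ (k + 2 - j) * β ^ j * ((k + 2).choose j)) * (Real.log x ^ j / x) := by
      intro x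
      have : F x = β * Real.log x + α := by simp only [hF, hα, hβ]; ring
      rw [this, add_pow, sum_div]
      refine sum_congr rfl fun j _ => ?_
      rw [mul_pow]; ring
    simp_rw [h2]
    have : (0 : ℝ) = ∑ j ∈ range (k + 2 + 1), (α ^ (k + 2 - j) * β ^ j * ((k + 2).choose j)) * 0 := by
      simp
    rw [this]
    refine tendsto_finsetSum _ fun j _ => ?_
    exact (hlog j).const_mul _
  have h3 : Filter.Tendsto (fun n : ℕ => F (n : ℝ) ^ (k + 2) / (n : ℝ)) Filter.atTop (nhds 0) :=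
    h1.comp tendsto_natCast_atTop_atTop
  have hpos : (0 : ℝ) < 1 / (2 * (k + 1)) := by positivity
  obtain ⟨n0, hn0⟩ := (h3.eventually (gt_mem_nhds hpos)).exists_forall_of_atTop
  set b := max n0 2 with hb
  have hb2 : 2 ≤ b := le_max_right _ _
  have hbR : (2 : ℝ) ≤ b := by exact_mod_cast hb2
  have hb0 : (0 : ℝ) < b := by linarith
  have hlt := hn0 b (le_max_left _ _)
  have hlogb : 0 ≤ Real.log b := Real.log_nonneg (by linarith)
  have hlogk : 0 ≤ Real.log ((k : ℝ) + 1) := Real.log_nonneg (by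
    have : (0 : ℝ) ≤ k := Nat.cast_nonneg k
    linarith)
  set A : ℝ := 2 * C * (k + 1) * (Real.log (k + 1) + k * Real.log b) with hA
  have hA0 : 0 ≤ A := by positivity
  set T := ⌈A⌉₊ with hT
  have hT1 : (T : ℝ) ≤ A + 1 := (Nat.ceil_lt_add_one hA0).le
  have hT2 : A ≤ T := Nat.le_ceil A
  refine ⟨b, T, hb2, ?_, ?_⟩
  · have h4 : ((T : ℝ) + 2) ^ (k + 2) ≤ F b ^ (k + 2) := by
      apply pow_le_pow_left₀ (by positivity)
      simp only [hF]
      linarith
    have h5 : F b ^ (k + 2) < b / (2 * (k + 1)) := by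
      rw [div_lt_iff₀ hb0] at hlt
      calc F b ^ (k + 2) < 1 / (2 * (k + 1)) * b := hlt
        _ = b / (2 * (k + 1)) := by ring
    have h6 : ((2 * (k + 1) * (T + 2) ^ (k + 2) : ℕ) : ℝ) ≤ b := by
      push_cast
      have h7 : ((T : ℝ) + 2) ^ (k + 2) ≤ b / (2 * (k + 1)) := h4.trans h5.le
      rw [le_div_iff₀ (by positivity)] at h7
      linarith
    exact_mod_cast h6
  · have h8 : Real.log ((k + 1) * b ^ k : ℕ) = Real.log (k + 1) + k * Real.log b := by
      push_cast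
      rw [Real.log_mul (by positivity) (by positivity), Real.log_pow]
    rw [h8]
    push_cast
    have h9 : (0 : ℝ) ≤ (b : ℝ) ^ k := by positivity
    calc 2 * (C * ((k + 1) * (b : ℝ) ^ k) * (Real.log (k + 1) + k * Real.log b))
        = A * (b : ℝ) ^ k := by rw [hA]; ring
      _ ≤ T * (b : ℝ) ^ k := mul_le_mul_of_nonneg_right hT2 h9

theorem dd_squarefree {n : ℕ} (hn : Squarefree n) : dd n = 2 ^ om n := by
  unfold dd om
  have h0 : n ≠ 0 := hn.ne_zero
  rw [Nat.card_divisors h0]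
  rw [Finset.prod_congr rfl (g := fun _ => 2)]
  · simp
  · intro p hp
    have hpp := Nat.prime_of_mem_primeFactors hp
    have h1 : n.factorization p ≤ 1 := (Nat.squarefree_iff_factorization_le_one h0).1 hn p
    have h2 : 1 ≤ n.factorization p :=
      (hpp.dvd_iff_one_le_factorization h0).1 (Nat.dvd_of_mem_primeFactors hp)
    omega

theorem equalRuns_of (hC : Comb) (hD : Design) (hE : Equalize) (hS : SieveOmega) : EqualRuns := by
  intro m N
  obtain ⟨C, hC0, hS⟩ := hS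
  set k := m + 1 with hk
  obtain ⟨b, T, hb2, hbT, hCT⟩ := params C hC0 k
  obtain ⟨ρ, hρ, hcomb⟩ := hC k b T hbT
  obtain ⟨Q, X, h, σ, s, hQ0, hQB, hh0, hhQ, hs, hdes⟩ :=
    hD k b (2 * Fintype.card (Pt k b)) ρ (fun e l => (hρ e l).1)
  obtain ⟨Q', X', U, a, c, hQ'0, hQQ', hX', hU0, ha0, hac, haQ, heq⟩ := hE (Pt k b) s Q X hQ0
  have hcard : Fintype.card (Pt k b) = (k + 1) * b ^ k := by
    simp [Pt]
  have hcard2 : 2 ≤ Fintype.card (Pt k b) := by
    rw [hcard]
    have : 1 ≤ b ^ k := Nat.one_le_pow _ _ (by omega)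
    nlinarith
  obtain ⟨n, hn, hsq, hsum⟩ := hS (Pt k b) a c hcard2 ha0 hac
    (fun i p hp hpB => haQ i p hp (hQB p hp hpB)) N
  have hf : 2 * ∑ p, om (a p * n + c p) ≤ T * b ^ k := by
    rw [hcard] at hsum
    have h1 : ((2 * ∑ p, om (a p * n + c p) : ℕ) : ℝ) ≤ ((T * b ^ k : ℕ) : ℝ) := by
      refine le_trans ?_ hCT
      push_cast at hsum ⊢
      linarith
    exact_mod_cast h1
  obtain ⟨e, he⟩ := hcomb (fun p => om (a p * n + c p)) hf
  set Y := Q' * n + X' with hY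
  have hYX : Y ≡ X [MOD Q] := by
    have h1 : Q' * n ≡ 0 [MOD Q] := (Nat.modEq_zero_iff_dvd).2 (hQQ'.mul_right n)
    have h2 := h1.add hX'
    simpa [hY] using h2
  obtain ⟨hdvd, hl⟩ := hdes Y hYX e
  have hval : ∀ l : Fin (k + 1), dd (h e) * dd ((Y + σ e) / h e + l) = U * 2 ^ (T + 1) := by
    intro l
    rw [hl l, hY, heq, dd_squarefree (hsq _), ← he l, pow_add]
    ring
  have hddh : 0 < dd (h e) := by
    unfold dd
    exact card_pos.2 (Nat.nonempty_divisors.2 (hh0 e).ne')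
  refine ⟨(Y + σ e) / h e, ?_, ?_⟩
  · refine hn.trans ?_
    rw [Nat.le_div_iff_mul_le (hh0 e)]
    have h1 : h e ≤ Q' := Nat.le_of_dvd hQ'0 ((hhQ e).trans hQQ')
    calc n * h e ≤ n * Q' := Nat.mul_le_mul_left _ h1
      _ = Q' * n := Nat.mul_comm _ _
      _ ≤ Y + σ e := by omega
  · intro j hj
    have h1 := hval ⟨j, by omega⟩
    have h2 := hval 0
    simp only [Fin.val_zero, add_zero] at h2
    exact Nat.eq_of_mul_eq_mul_left hddh (h1.trans h2.symm)

end Pool.Agent.H410R2.ED
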