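import Pool.Agent.H410R2.EDFinal
import Pool.Agent.H410R2.EDSieve2
import Pool.Agent.H446R2.ED_T1
import Pool.Agent.H658R2.ED_T2
import Pool.Agent.H81R2.ED_T3
import Pool.Agent.H483R2.ED_BHK
import Pool.Agent.H483R2.ED_CountCRT

set_option autoImplicit false

open Finset

namespace Pool.Agent.H410R2.ED

theorem sieveOmega : SieveOmega := T6.sieveOmega_of Pool.Agent.H483R2.bhk Pool.Agent.H483R2.countCRT

/-- for all `m`, `N` there is `y ≥ N` with `d(y) = d(y+1) = ... = d(y+m-1)` -/
theorem equalRuns : EqualRuns :=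
  equalRuns_of Pool.Agent.H446R2.comb Pool.Agent.H658R2.ED.design Pool.Agent.H81R2.EDT3.equalize
    sieveOmega

end Pool.Agent.H410R2.ED
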