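import Pool.Agent.H410R2.EDIface
import Pool.Agent.Erdos456.Mertens

set_option autoImplicit false

open Finset

namespace Pool.Agent.H410R2.ED.T6

variable {ι : Type} [Fintype ι]

/-- product of the forms -/
def FF (a b : ι → ℕ) (n : ℕ) : ℕ := ∏ i, (a i * n + b i)

theorem prime_dvd_FF {a b : ι → ℕ} {l n : ℕ} (hl : l.Prime) :
    l ∣ FF a b n ↔ ∃ i, l ∣ a i * n + b i := by
  unfold FF
  rw [Prime.dvd_finsetProd_iff hl.prime]
  simp

theorem dvd_shift (a b l n : ℕ) : l ∣ a * (n + l) + b ↔ l ∣ a * n + b := by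
  rw [show a * (n + l) + b = l * a + (a * n + b) by ring]
  exact (Nat.dvd_add_right (dvd_mul_right l a))

/-- the number of roots of one form -/
def r1 (a b q : ℕ) : ℕ := ((range q).filter (fun r => q ∣ a * r + b)).card

/-- the number of roots of the product -/
def rr (a b : ι → ℕ) (q : ℕ) : ℕ := ((range q).filter (fun r => q ∣ FF a b r)).card

theorem not_dvd_of_coprime {a b q n : ℕ} (hq : q.Prime) (h : Nat.Coprime a b)
    (hd : q ∣ a * n + b) : ¬ q ∣ a := by
  intro ha
  have h1 : q ∣ b := (Nat.dvd_add_right (ha.mul_right n)).1 hd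
  have h2 : q ∣ Nat.gcd a b := Nat.dvd_gcd ha h1
  rw [h] at h2
  exact hq.one_lt.ne' (Nat.dvd_one.1 h2)

theorem modEq_of_dvd {a b m n n' : ℕ} (ham : Nat.Coprime a m) (h1 : m ∣ a * n + b)
    (h2 : m ∣ a * n' + b) : n ≡ n' [MOD m] := by
  have h3 : a * n + b ≡ a * n' + b [MOD m] :=
    ((Nat.modEq_zero_iff_dvd).2 h1).trans ((Nat.modEq_zero_iff_dvd).2 h2).symm
  have h4 : a * n ≡ a * n' [MOD m] := Nat.ModEq.add_right_cancel' b h3
  exact Nat.ModEq.cancel_left_of_coprime (by rwa [Nat.coprime_comm] at ham) h4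

theorem r1_le {a b q : ℕ} (hq : q.Prime) (h : Nat.Coprime a b) : r1 a b q ≤ 1 := by
  unfold r1
  rw [card_le_one]
  intro r hr r' hr'
  rw [mem_filter, mem_range] at hr hr'
  have hqa := not_dvd_of_coprime hq h hr.2
  have hc : Nat.Coprime a q := ((Nat.Prime.coprime_iff_not_dvd hq).2 hqa).symm
  have h1 := modEq_of_dvd hc hr.2 hr'.2
  exact Nat.ModEq.eq_of_lt_of_lt h1 hr.1 hr'.1

theorem rr_le {a b : ι → ℕ} {q : ℕ} (hq : q.Prime) (h : ∀ i, Nat.Coprime (a i) (b i)) :
    rr a b q ≤ Fintype.card ι := by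
  classical
  unfold rr
  have h1 : (range q).filter (fun r => q ∣ FF a b r) ⊆
      (univ : Finset ι).biUnion (fun i => (range q).filter (fun r => q ∣ a i * r + b i)) := by
    intro r hr
    rw [mem_filter, prime_dvd_FF hq] at hr
    obtain ⟨hr1, i, hi⟩ := hr
    rw [mem_biUnion]
    exact ⟨i, mem_univ _, mem_filter.2 ⟨hr1, hi⟩⟩
  refine (card_le_card h1).trans (card_biUnion_le.trans ?_)
  calc ∑ i : ι, ((range q).filter (fun r => q ∣ a i * r + b i)).card
      ≤ ∑ i : ι, 1 := sum_le_sum fun i _ => r1_le hq (h i)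
    _ = Fintype.card ι := by simp

theorem hits_count (hC : CountCRT) (a b : ι → ℕ) (hab : ∀ i, Nat.Coprime (a i) (b i))
    (D : Finset ℕ) (hD : ∀ l ∈ D, l.Prime) (M N : ℕ) :
    |(((Ico M (M + N)).filter (fun n => ∀ l ∈ D, l ∣ FF a b n)).card : ℝ) -
      N * ∏ l ∈ D, ((rr a b l : ℝ) / l)| ≤ (Fintype.card ι : ℝ) ^ D.card * 1 := by
  have h1 := hC D (fun l n => l ∣ FF a b n) hD (by
    intro l hl n
    rw [prime_dvd_FF (hD l hl), prime_dvd_FF (hD l hl)]
    simp only [dvd_shift]) M N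
  rw [mul_one]
  refine h1.trans ?_
  calc ∏ l ∈ D, (((range l).filter (fun n => l ∣ FF a b n)).card : ℝ)
      ≤ ∏ l ∈ D, (Fintype.card ι : ℝ) := by
        refine prod_le_prod (fun _ _ => Nat.cast_nonneg _) fun l hl => ?_
        exact_mod_cast rr_le (hD l hl) hab
    _ = (Fintype.card ι : ℝ) ^ D.card := by rw [prod_const]

theorem hits_count_q (hC : CountCRT) (a b : ι → ℕ) (hab : ∀ i, Nat.Coprime (a i) (b i))
    (D : Finset ℕ) (hD : ∀ l ∈ D, l.Prime) (M N : ℕ) (i : ι) {q : ℕ} (hq : q.Prime)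
    (hqD : q ∉ D) :
    |((((Ico M (M + N)).filter (fun n => q ∣ a i * n + b i)).filter
        (fun n => ∀ l ∈ D, l ∣ FF a b n)).card : ℝ) -
      (N * ((r1 (a i) (b i) q : ℝ) / q)) * ∏ l ∈ D, ((rr a b l : ℝ) / l)| ≤
      (Fintype.card ι : ℝ) ^ D.card * 1 := by
  classical
  set P : ℕ → ℕ → Prop := fun l n => if l = q then q ∣ a i * n + b i else l ∣ FF a b n with hP
  have h1 := hC (insert q D) P (by
    intro l hl
    rcases mem_insert.1 hl with rfl | hl
    · exact hq
    · exact hD l hl) (by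
    intro l hl n
    simp only [hP]
    split_ifs with hlq
    · subst hlq; exact dvd_shift _ _ _ _
    · rcases mem_insert.1 hl with rfl | hl
      · exact absurd rfl hlq
      · rw [prime_dvd_FF (hD l hl), prime_dvd_FF (hD l hl)]
        simp only [dvd_shift]) M N
  have hPq : ∀ n, P q n ↔ q ∣ a i * n + b i := by
    intro n; simp [hP]
  have hPl : ∀ l ∈ D, ∀ n, P l n ↔ l ∣ FF a b n := by
    intro l hl n
    have : l ≠ q := fun h => hqD (h ▸ hl)
    simp [hP, this]
  have hset : (Ico M (M + N)).filter (fun n => ∀ l ∈ insert q D, P l n) =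
      ((Ico M (M + N)).filter (fun n => q ∣ a i * n + b i)).filter
        (fun n => ∀ l ∈ D, l ∣ FF a b n) := by
    rw [filter_filter]
    apply filter_congr
    intro n _
    rw [forall_mem_insert, hPq]
    exact and_congr_right fun _ => forall₂_congr fun l hl => hPl l hl n
  have hcq : ((range q).filter (P q)).card = r1 (a i) (b i) q := by
    unfold r1
    congr 1
    exact filter_congr fun n _ => hPq n
  have hcl : ∀ l ∈ D, ((range l).filter (P l)).card = rr a b l := by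
    intro l hl
    unfold rr
    congr 1
    exact filter_congr fun n _ => hPl l hl n
  rw [hset, prod_insert hqD, prod_insert hqD, hcq] at h1
  rw [prod_congr rfl (fun l hl => by rw [hcl l hl] :
    ∀ l ∈ D, ((((range l).filter (P l)).card : ℝ) / l) = (rr a b l : ℝ) / l)] at h1
  rw [prod_congr rfl (fun l hl => by rw [hcl l hl] :
    ∀ l ∈ D, (((range l).filter (P l)).card : ℝ) = (rr a b l : ℝ))] at h1
  rw [mul_one, mul_assoc]
  refine h1.trans ?_
  have h2 : (r1 (a i) (b i) q : ℝ) ≤ 1 := by exact_mod_cast r1_le hq (hab i)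
  have h3 : ∏ l ∈ D, (rr a b l : ℝ) ≤ (Fintype.card ι : ℝ) ^ D.card := by
    calc ∏ l ∈ D, (rr a b l : ℝ) ≤ ∏ l ∈ D, (Fintype.card ι : ℝ) := by
          refine prod_le_prod (fun _ _ => Nat.cast_nonneg _) fun l hl => ?_
          exact_mod_cast rr_le (hD l hl) hab
      _ = (Fintype.card ι : ℝ) ^ D.card := by rw [prod_const]
  calc (r1 (a i) (b i) q : ℝ) * ∏ l ∈ D, (rr a b l : ℝ) ≤ 1 * ∏ l ∈ D, (rr a b l : ℝ) :=
        mul_le_mul_of_nonneg_right h2 (prod_nonneg fun _ _ => Nat.cast_nonneg _)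
    _ ≤ _ := by rw [one_mul]; exact h3

/-- integers of an interval in one class -/
theorem class_count {m M N : ℕ} (s : Finset ℕ) (hs : s ⊆ Ico M (M + N))
    (h : ∀ n ∈ s, ∀ n' ∈ s, n ≡ n' [MOD m]) : s.card ≤ N / m + 1 := by
  have h1 : s.card ≤ (range (N / m + 1)).card := by
    refine card_le_card_of_injOn (fun n => (n - M) / m) ?_ ?_
    · intro n hn
      have := mem_Ico.1 (hs hn)
      simp only [coe_range, Set.mem_Iio]
      exact Nat.lt_succ_of_le (Nat.div_le_div_right (by omega))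
    · intro n hn n' hn' he
      have h1 := mem_Ico.1 (hs hn)
      have h2 := mem_Ico.1 (hs hn')
      simp only at he
      have h3 := h n hn n' hn'
      have h4 : n - M ≡ n' - M [MOD m] := by
        have e1 : n - M + M = n := by omega
        have e2 : n' - M + M = n' := by omega
        apply Nat.ModEq.add_right_cancel' M
        rw [e1, e2]; exact h3
      have h5 : n - M = n' - M := by
        rw [← Nat.div_add_mod (n - M) m, ← Nat.div_add_mod (n' - M) m, he]
        unfold Nat.ModEq at h4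
        rw [h4]
      omega
  simpa using h1

theorem sq_count {a b q M N : ℕ} (hq : q.Prime) (h : Nat.Coprime a b) :
    ((Ico M (M + N)).filter (fun n => q ^ 2 ∣ a * n + b)).card ≤ N / q ^ 2 + 1 := by
  refine class_count _ (filter_subset _ _) ?_
  intro n hn n' hn'
  rw [mem_filter] at hn hn'
  have hqa := not_dvd_of_coprime hq h ((dvd_pow_self q two_ne_zero).trans hn.2)
  have hc : Nat.Coprime a (q ^ 2) := Nat.Coprime.pow_right 2
    ((Nat.Prime.coprime_iff_not_dvd hq).2 hqa).symm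
  exact modEq_of_dvd hc hn.2 hn'.2

/-- few large prime factors -/
theorem large_primes {M W : ℕ} (hM : 0 < M) (hMW : M < W ^ 3) :
    (M.primeFactors.filter (fun p => W ≤ p)).card ≤ 2 := by
  by_contra hcon
  push Not at hcon
  have h1 : W ^ (M.primeFactors.filter (fun p => W ≤ p)).card ≤ M := by
    calc W ^ (M.primeFactors.filter (fun p => W ≤ p)).card
        = ∏ p ∈ M.primeFactors.filter (fun p => W ≤ p), W := by rw [prod_const]
      _ ≤ ∏ p ∈ M.primeFactors.filter (fun p => W ≤ p), p :=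
          prod_le_prod' fun p hp => (mem_filter.1 hp).2
      _ ≤ ∏ p ∈ M.primeFactors, p := by
          refine prod_le_prod_of_subset_of_one_le' (filter_subset _ _) ?_
          intro p hp _
          exact (Nat.prime_of_mem_primeFactors hp).one_lt.le
      _ ≤ M := Nat.le_of_dvd hM (Nat.prod_primeFactors_dvd M)
  have hW : 0 < W := by
    rcases Nat.eq_zero_or_pos W with h | h
    · subst h; simp at hMW
    · exact h
  have h2 : W ^ 3 ≤ W ^ (M.primeFactors.filter (fun p => W ≤ p)).card :=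
    Nat.pow_le_pow_right hW hcon
  omega

theorem one_sub_ge {x : ℝ} (h0 : 0 ≤ x) (h1 : x ≤ 1 / 2) : Real.exp (-(2 * x)) ≤ 1 - x := by
  have h2 := Real.add_one_le_exp (2 * x)
  rw [Real.exp_neg]
  have h3 : (0 : ℝ) < 1 - x := by linarith
  rw [inv_le_comm₀ (Real.exp_pos _) h3]
  refine le_trans ?_ h2
  rw [inv_le_iff_one_le_mul₀ h3]
  nlinarith

theorem V_ge {κ J : ℕ} (g : ℕ → ℝ)
    (hg : ∀ l, l.Prime → 0 ≤ g l ∧ g l ≤ (κ : ℝ) / l) :
    Real.exp (-(2 * κ * ∑ l ∈ Pr κ J, (1 : ℝ) / l)) ≤ ∏ l ∈ Pr κ J, (1 - g l) := by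
  rw [mul_sum, ← sum_neg_distrib, Real.exp_sum]
  refine prod_le_prod (fun _ _ => (Real.exp_pos _).le) fun l hl => ?_
  unfold Pr at hl
  rw [mem_filter] at hl
  obtain ⟨-, hlp, hlκ⟩ := hl
  obtain ⟨h0, h1⟩ := hg l hlp
  have hl0 : (0 : ℝ) < l := by exact_mod_cast hlp.pos
  have hk : (2 : ℝ) * κ < l := by exact_mod_cast hlκ
  have h2 : (κ : ℝ) / l ≤ 1 / 2 := by
    rw [div_le_iff₀ hl0]; linarith
  have h3 := one_sub_ge h0 (h1.trans h2)
  refine le_trans (Real.exp_le_exp.2 ?_) h3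
  have : 2 * (κ : ℝ) * (1 / l) = 2 * (κ / l) := by ring
  rw [this]
  linarith

theorem mert : ∃ C : ℝ, 0 ≤ C ∧ (∀ κ J : ℕ, 1 ≤ J → ∑ l ∈ Pr κ J, (1 : ℝ) / l ≤
      Real.log (Real.log ((2 : ℝ) ^ 2 ^ J)) + C) ∧
    ∀ J r : ℕ, 1 ≤ J → 1 ≤ r →
      ∑ q ∈ (Ico (2 ^ 2 ^ J) ((2 ^ 2 ^ J) ^ r)).filter Nat.Prime, (1 : ℝ) / q ≤
        Real.log r + C := by
  obtain ⟨C, hC⟩ := Pool.Agent.Erdos456.Mert.mertens_inv
  have hC0 : 0 ≤ C := (abs_nonneg _).trans (hC 3 le_rfl)
  refine ⟨2 * C + 1, by linarith, ?_, ?_⟩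
  · intro κ J hJ
    have hz : 3 ≤ 2 ^ 2 ^ J := by
      have h1 : 2 ≤ 2 ^ J := by
        calc 2 = 2 ^ 1 := rfl
          _ ≤ 2 ^ J := Nat.pow_le_pow_right (by norm_num) hJ
      calc 3 ≤ 2 ^ 2 := by norm_num
        _ ≤ 2 ^ 2 ^ J := Nat.pow_le_pow_right (by norm_num) h1
    have h1 := (abs_le.1 (hC _ hz)).2
    have h2 : ∑ l ∈ Pr κ J, (1 : ℝ) / l ≤
        ∑ p ∈ (Icc 1 (2 ^ 2 ^ J)).filter Nat.Prime, (1 : ℝ) / p := by
      refine sum_le_sum_of_subset_of_nonneg ?_ (fun _ _ _ => by positivity)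
      intro l hl
      unfold Pr at hl
      rw [mem_filter, mem_range] at hl
      rw [mem_filter, mem_Icc]
      exact ⟨⟨hl.2.1.one_lt.le, hl.1.le⟩, hl.2.1⟩
    push_cast at h1
    linarith
  · intro J r hJ hr
    have hJ2 : 2 ≤ 2 ^ J := by
      calc 2 = 2 ^ 1 := rfl
        _ ≤ 2 ^ J := Nat.pow_le_pow_right (by norm_num) hJ
    have hz : 4 ≤ 2 ^ 2 ^ J := by
      calc 4 = 2 ^ 2 := by norm_num
        _ ≤ 2 ^ 2 ^ J := Nat.pow_le_pow_right (by norm_num) hJ2
    set z := 2 ^ 2 ^ J with hzdef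
    have hzr : z ≤ z ^ r := Nat.le_self_pow (by omega) z
    have h1 := hC (z - 1) (by omega)
    have h2 := hC (z ^ r) (by omega)
    have hsub : ∑ q ∈ (Ico z (z ^ r)).filter Nat.Prime, (1 : ℝ) / q +
        ∑ p ∈ (Icc 1 (z - 1)).filter Nat.Prime, (1 : ℝ) / p ≤
        ∑ p ∈ (Icc 1 (z ^ r)).filter Nat.Prime, (1 : ℝ) / p := by
      rw [← sum_union]
      · refine sum_le_sum_of_subset_of_nonneg ?_ (fun _ _ _ => by positivity)
        intro p hp
        rw [mem_union, mem_filter, mem_filter, mem_Ico, mem_Icc] at hp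
        rw [mem_filter, mem_Icc]
        rcases hp with h | h
        · exact ⟨⟨by omega, by omega⟩, h.2⟩
        · exact ⟨⟨by omega, by omega⟩, h.2⟩
      · rw [disjoint_left]
        intro p hp hp'
        rw [mem_filter, mem_Ico] at hp
        rw [mem_filter, mem_Icc] at hp'
        omega
    have h3 := (abs_le.1 h1).1
    have h4 := (abs_le.1 h2).2
    have hzR : (4 : ℝ) ≤ z := by exact_mod_cast hz
    -- log (z-1) >= log z / e
    have h5 : Real.log (Real.log (z : ℝ)) - 1 ≤ Real.log (Real.log ((z - 1 : ℕ) : ℝ)) := by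
      have hz1 : ((z - 1 : ℕ) : ℝ) = z - 1 := by
        rw [Nat.cast_sub (by omega)]; norm_num
      rw [hz1]
      have hlz : 0 < Real.log (z : ℝ) := Real.log_pos (by linarith)
      have h6 : Real.log (z : ℝ) / 2 ≤ Real.log ((z : ℝ) - 1) := by
        have : Real.log (z : ℝ) ≤ 2 * Real.log ((z : ℝ) - 1) := by
          have e : 2 * Real.log ((z : ℝ) - 1) = Real.log (((z : ℝ) - 1) ^ 2) := by
            rw [Real.log_pow]; norm_num
          rw [e]
          apply Real.log_le_log (by linarith)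
          nlinarith
        linarith
      have h7 : Real.log (Real.log (z : ℝ) / 2) ≤ Real.log (Real.log ((z : ℝ) - 1)) :=
        Real.log_le_log (by positivity) h6
      rw [Real.log_div hlz.ne' (by norm_num)] at h7
      have h8 : Real.log 2 ≤ 1 := by
        have := Real.log_two_lt_d9; linarith
      linarith
    have h9 : Real.log (Real.log ((z ^ r : ℕ) : ℝ)) =
        Real.log r + Real.log (Real.log (z : ℝ)) := by
      push_cast
      rw [Real.log_pow, Real.log_mul]
      · have : (0 : ℝ) < r := by exact_mod_cast hr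
        exact this.ne'
      · exact (Real.log_pos (by linarith)).ne'
    rw [h9] at h4
    linarith

end Pool.Agent.H410R2.ED.T6
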