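import Mathlib
import Pool.Agent.H410R2.ENIface
import Pool.Agent.H410R2.ACCore1

set_option autoImplicit false

open Finset Filter

namespace Pool.Agent.H410R2.EN

open Pool.Agent.H410R2.AC

lemma one_sub_pos {p : ℕ} (hp : p.Prime) : (0 : ℝ) < (p : ℝ) - 1 := by
  have : (2 : ℝ) ≤ p := by exact_mod_cast hp.two_le
  linarith

lemma split_P {z0 z1 z2 : ℕ} (ps : ℕ) (h01 : z0 ≤ z1) (h12 : z1 ≤ z2) :
    (PP z0 z1).erase ps ∪ (PP z1 z2).erase ps = (PP z0 z2).erase ps := by
  ext p
  simp only [Finset.mem_union, Finset.mem_erase, mem_PP]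
  constructor
  · rintro (⟨h, h1, h2, h3⟩ | ⟨h, h1, h2, h3⟩)
    · exact ⟨h, h1, h2, by omega⟩
    · exact ⟨h, h1, by omega, h3⟩
  · rintro ⟨h, h1, h2, h3⟩
    by_cases h4 : p ≤ z1
    · exact Or.inl ⟨h, h1, h2, h4⟩
    · exact Or.inr ⟨h, h1, by omega, h3⟩

lemma V1_mul_Pi1 {P : Finset ℕ} (hP : ∀ p ∈ P, p.Prime) : V1 P * Pi1 P = 1 := by
  unfold V1 Pi1
  rw [← Finset.prod_mul_distrib]
  refine Finset.prod_eq_one (fun p hp => ?_)
  have h1 := one_sub_pos (hP p hp)
  have h2 : (p : ℝ) ≠ 0 := by linarith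
  field_simp
  ring

lemma Pi1_pos {P : Finset ℕ} (hP : ∀ p ∈ P, p.Prime) : 0 < Pi1 P := by
  unfold Pi1
  refine Finset.prod_pos (fun p hp => ?_)
  have h1 := one_sub_pos (hP p hp)
  positivity

lemma one_le_Pi1 {P : Finset ℕ} (hP : ∀ p ∈ P, p.Prime) : 1 ≤ Pi1 P := by
  unfold Pi1
  have : ∏ p ∈ P, (1 : ℝ) ≤ ∏ p ∈ P, (1 + 1 / ((p : ℝ) - 1)) := by
    refine Finset.prod_le_prod (fun _ _ => zero_le_one) (fun p hp => ?_)
    have h1 := one_sub_pos (hP p hp)
    have : 0 ≤ 1 / ((p : ℝ) - 1) := by positivity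
    linarith
  simpa using this

lemma Pi1_erase_le {P : Finset ℕ} (hP : ∀ p ∈ P, p.Prime) (ps : ℕ) :
    Pi1 (P.erase ps) ≤ Pi1 P := by
  by_cases h : ps ∈ P
  · have h1 := one_sub_pos (hP ps h)
    have h2 : Pi1 P = (1 + 1 / ((ps : ℝ) - 1)) * Pi1 (P.erase ps) := by
      unfold Pi1
      rw [Finset.mul_prod_erase P (fun p => (1 + 1 / ((p : ℝ) - 1))) h]
    have h3 := Pi1_pos (P := P.erase ps) (fun p hp => hP p (Finset.mem_of_mem_erase hp))
    have h4 : 0 ≤ 1 / ((ps : ℝ) - 1) := by positivity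
    rw [h2]
    nlinarith
  · rw [Finset.erase_eq_of_notMem h]

lemma Pi1_le_erase {P : Finset ℕ} (hP : ∀ p ∈ P, p.Prime) (ps : ℕ) :
    Pi1 P ≤ 2 * Pi1 (P.erase ps) := by
  have h3 := Pi1_pos (P := P.erase ps) (fun p hp => hP p (Finset.mem_of_mem_erase hp))
  by_cases h : ps ∈ P
  · have h1 := one_sub_pos (hP ps h)
    have h2 : Pi1 P = (1 + 1 / ((ps : ℝ) - 1)) * Pi1 (P.erase ps) := by
      unfold Pi1
      rw [Finset.mul_prod_erase P (fun p => (1 + 1 / ((p : ℝ) - 1))) h]
    have h4 : 1 / ((ps : ℝ) - 1) ≤ 1 := by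
      have h5 : (2 : ℝ) ≤ ps := by exact_mod_cast (hP ps h).two_le
      rw [div_le_one h1]
      linarith
    rw [h2]
    nlinarith
  · rw [Finset.erase_eq_of_notMem h]
    linarith [Pi1_pos hP]

/-- removing one prime loses at most a factor two -/
lemma mass_erase {P : Finset ℕ} (hP : ∀ p ∈ P, p.Prime) (ps Y : ℕ) :
    ∑ R ∈ P.powerset.filter (fun R : Finset ℕ => ∏ p ∈ R, p ≤ Y), wt R ≤
      2 * ∑ R ∈ (P.erase ps).powerset.filter (fun R : Finset ℕ => ∏ p ∈ R, p ≤ Y), wt R := by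
  classical
  have hnn : ∀ R ∈ (P.erase ps).powerset.filter (fun R : Finset ℕ => ∏ p ∈ R, p ≤ Y), 0 ≤ wt R := by
    intro R hR
    refine wt_nonneg (fun p hp => hP p ?_)
    exact Finset.mem_of_mem_erase (Finset.mem_powerset.mp (Finset.mem_filter.mp hR).1 hp)
  by_cases h : ps ∈ P
  · have hpp := hP ps h
    have h1 := one_sub_pos hpp
    have h1' : 1 / ((ps : ℝ) - 1) ≤ 1 := by
      have h5 : (2 : ℝ) ≤ ps := by exact_mod_cast hpp.two_le
      rw [div_le_one h1]
      linarith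
    set F := (P.erase ps).powerset.filter (fun R : Finset ℕ => ∏ p ∈ R, p ≤ Y) with hF
    have hsub : P.powerset.filter (fun R : Finset ℕ => ∏ p ∈ R, p ≤ Y) ⊆
        F ∪ F.image (fun R => insert ps R) := by
      intro R hR
      rw [Finset.mem_filter, Finset.mem_powerset] at hR
      by_cases hps : ps ∈ R
      · refine Finset.mem_union_right _ (Finset.mem_image.mpr ⟨R.erase ps, ?_, ?_⟩)
        · rw [hF, Finset.mem_filter, Finset.mem_powerset]
          refine ⟨Finset.erase_subset_erase _ hR.1, ?_⟩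
          have h2 : ps * ∏ p ∈ R.erase ps, p = ∏ p ∈ R, p :=
            Finset.mul_prod_erase R (fun p => p) hps
          have h3 := hpp.pos
          calc ∏ p ∈ R.erase ps, p ≤ ps * ∏ p ∈ R.erase ps, p := Nat.le_mul_of_pos_left _ h3
            _ = ∏ p ∈ R, p := h2
            _ ≤ Y := hR.2
        · exact Finset.insert_erase hps
      · refine Finset.mem_union_left _ ?_
        rw [hF, Finset.mem_filter, Finset.mem_powerset]
        exact ⟨Finset.subset_erase.mpr ⟨hR.1, hps⟩, hR.2⟩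
    have hnn2 : ∀ R ∈ F ∪ F.image (fun R => insert ps R), 0 ≤ wt R := by
      intro R hR
      refine wt_nonneg (fun p hp => ?_)
      rcases Finset.mem_union.mp hR with h2 | h2
      · exact hP p (Finset.mem_of_mem_erase
          (Finset.mem_powerset.mp (Finset.mem_filter.mp h2).1 hp))
      · obtain ⟨R', hR', rfl⟩ := Finset.mem_image.mp h2
        rcases Finset.mem_insert.mp hp with h3 | h3
        · rw [h3]; exact hpp
        · exact hP p (Finset.mem_of_mem_erase
            (Finset.mem_powerset.mp (Finset.mem_filter.mp hR').1 h3))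
    have hdisj : Disjoint F (F.image (fun R => insert ps R)) := by
      rw [Finset.disjoint_left]
      intro R hR hR'
      obtain ⟨R', hR'', rfl⟩ := Finset.mem_image.mp hR'
      have h4 := Finset.mem_powerset.mp (Finset.mem_filter.mp hR).1 (Finset.mem_insert_self ps R')
      exact (Finset.notMem_erase ps P) h4
    have hinj : Set.InjOn (fun R : Finset ℕ => insert ps R) (F : Set (Finset ℕ)) := by
      intro R hR R' hR' he
      have h5 : ps ∉ R := fun h6 => (Finset.notMem_erase ps P)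
        (Finset.mem_powerset.mp (Finset.mem_filter.mp hR).1 h6)
      have h5' : ps ∉ R' := fun h6 => (Finset.notMem_erase ps P)
        (Finset.mem_powerset.mp (Finset.mem_filter.mp hR').1 h6)
      have he' : insert ps R = insert ps R' := he
      rw [← Finset.erase_insert h5, he', Finset.erase_insert h5']
    calc ∑ R ∈ P.powerset.filter (fun R : Finset ℕ => ∏ p ∈ R, p ≤ Y), wt R
        ≤ ∑ R ∈ F ∪ F.image (fun R => insert ps R), wt R :=
          Finset.sum_le_sum_of_subset_of_nonneg hsub (fun R hR _ => hnn2 R hR)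
      _ = ∑ R ∈ F, wt R + ∑ R ∈ F, wt (insert ps R) := by
          rw [Finset.sum_union hdisj, Finset.sum_image hinj]
      _ ≤ ∑ R ∈ F, wt R + ∑ R ∈ F, wt R := by
          refine add_le_add le_rfl (Finset.sum_le_sum (fun R hR => ?_))
          have h5 : ps ∉ R := fun h6 => (Finset.notMem_erase ps P)
            (Finset.mem_powerset.mp (Finset.mem_filter.mp hR).1 h6)
          have h6 : wt (insert ps R) = 1 / ((ps : ℝ) - 1) * wt R := by
            unfold wt
            rw [Finset.prod_insert h5]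
          rw [h6]
          have h7 := hnn R hR
          nlinarith
      _ = 2 * ∑ R ∈ F, wt R := by ring
  · rw [Finset.erase_eq_of_notMem h]
    rw [Finset.erase_eq_of_notMem h] at hnn
    have := Finset.sum_nonneg hnn
    linarith

lemma mass_erase_le {P : Finset ℕ} (hP : ∀ p ∈ P, p.Prime) (ps Y : ℕ) :
    ∑ R ∈ (P.erase ps).powerset.filter (fun R : Finset ℕ => ∏ p ∈ R, p ≤ Y), wt R ≤
    ∑ R ∈ P.powerset.filter (fun R : Finset ℕ => ∏ p ∈ R, p ≤ Y), wt R := by
  refine Finset.sum_le_sum_of_subset_of_nonneg ?_ (fun R hR _ => ?_)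
  · refine Finset.filter_subset_filter _ (Finset.powerset_mono.mpr (Finset.erase_subset _ _))
  · exact wt_nonneg (fun p hp => hP p (Finset.mem_powerset.mp (Finset.mem_filter.mp hR).1 hp))

/-- the masses of the families of small products, general form -/
lemma mass_bounds' {C1 : ℝ} (hC1 : 1 ≤ C1)
    (h2 : ∀ H z Y : ℕ, 2 ≤ H → Y ≤ z → Real.log Y / Real.log H ≤
      C1 * ∑ R ∈ (PP H z).powerset.filter (fun R : Finset ℕ => ∏ p ∈ R, p ≤ Y), wt R)
    (h3 : ∀ H z Y : ℕ, 2 ≤ H → H ≤ Y →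
      ∑ R ∈ (PP H z).powerset.filter (fun R : Finset ℕ => ∏ p ∈ R, p ≤ Y), wt R ≤
        C1 * (Real.log Y / Real.log H)) (X θ : ℝ) (hX : 1 < X) (H ps : ℕ) (hH : 4 ≤ H)
    (t : ℝ) (ht : Real.log H / Real.log X ≤ t) (ht' : t ≤ θ) :
    t / (4 * C1 * (Real.log H / Real.log X)) ≤
      ∑ R ∈ (((PP H ⌊X ^ θ⌋₊).erase ps).powerset).filter
        (fun R : Finset ℕ => Real.log (∏ p ∈ R, (p : ℝ)) / Real.log X ≤ t), wt R ∧
      ∑ R ∈ (((PP H ⌊X ^ θ⌋₊).erase ps).powerset).filter
        (fun R : Finset ℕ => Real.log (∏ p ∈ R, (p : ℝ)) / Real.log X ≤ t), wt R ≤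
        4 * C1 * t / (Real.log H / Real.log X) := by
  have hX0 : (0 : ℝ) < X := by linarith
  have hlX : 0 < Real.log X := Real.log_pos hX
  have hH4 : (4 : ℝ) ≤ (H : ℝ) := by exact_mod_cast hH
  have hlH : 0 < Real.log (H : ℝ) := Real.log_pos (by linarith)
  set V : ℝ := Real.log H / Real.log X with hVdef
  have hV : 0 < V := div_pos hlH hlX
  have ht0 : 0 < t := lt_of_lt_of_le hV ht
  have hPp : ∀ p ∈ PP H ⌊X ^ θ⌋₊, p.Prime := fun p hp => PP_prime hp
  have hXt : (H : ℝ) ≤ X ^ t := by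
    have h4 : Real.log H ≤ t * Real.log X := by
      have : V * Real.log X = Real.log H := by
        rw [hVdef]; field_simp
      rw [← this]
      exact mul_le_mul_of_nonneg_right ht hlX.le
    calc (H : ℝ) = Real.exp (Real.log H) := (Real.exp_log (by linarith)).symm
      _ ≤ Real.exp (t * Real.log X) := Real.exp_le_exp.mpr h4
      _ = X ^ t := by rw [Real.rpow_def_of_pos hX0, mul_comm]
  set Y : ℕ := ⌊X ^ t⌋₊ with hY
  have hYH : H ≤ Y := Nat.le_floor hXt
  have hYle : (Y : ℝ) ≤ X ^ t := Nat.floor_le (by positivity)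
  have hYz : Y ≤ ⌊X ^ θ⌋₊ := by
    refine Nat.floor_le_floor ?_
    exact Real.rpow_le_rpow_of_exponent_le hX.le ht'
  have hY1 : (1 : ℝ) ≤ Y := by
    have : (H : ℝ) ≤ Y := by exact_mod_cast hYH
    linarith
  have hfil : (((PP H ⌊X ^ θ⌋₊).erase ps).powerset).filter
        (fun R : Finset ℕ => Real.log (∏ p ∈ R, (p : ℝ)) / Real.log X ≤ t) =
      ((PP H ⌊X ^ θ⌋₊).erase ps).powerset.filter (fun R : Finset ℕ => ∏ p ∈ R, p ≤ Y) := by
    refine Finset.filter_congr (fun R hR => ?_)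
    have hRP : ∀ p ∈ R, p.Prime := fun p hp =>
      hPp p (Finset.mem_of_mem_erase (Finset.mem_powerset.mp hR hp))
    have h1 := prod_ge_one hRP
    rw [div_le_iff₀ hlX, hY, Nat.le_floor_iff (by positivity)]
    push_cast
    rw [← Real.log_rpow hX0]
    exact Real.log_le_log_iff (by linarith) (by positivity)
  rw [hfil]
  have hE1 := mass_erase hPp ps Y
  have hE2 := mass_erase_le hPp ps Y
  constructor
  · have h := h2 H ⌊X ^ θ⌋₊ Y (by omega) hYz
    have hlogY : t / 2 * Real.log X ≤ Real.log Y := by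
      have h5 : X ^ t < Y + 1 := Nat.lt_floor_add_one _
      have h6 : t * Real.log X ≤ Real.log (Y + 1) := by
        rw [← Real.log_rpow hX0]
        exact Real.log_le_log (by positivity) h5.le
      have h7 : Real.log (Y + 1) ≤ Real.log ((Y : ℝ) ^ 2) := by
        refine Real.log_le_log (by positivity) ?_
        have : (4 : ℝ) ≤ Y := by
          have : (H : ℝ) ≤ Y := by exact_mod_cast hYH
          linarith
        nlinarith
      rw [Real.log_pow] at h7
      push_cast at h7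
      linarith
    have h8 : t / (2 * V) ≤ Real.log Y / Real.log H := by
      rw [hVdef, div_le_div_iff₀ (by positivity) hlH]
      field_simp
      nlinarith
    have h9 : t / (4 * C1 * V) = (t / (2 * V)) / (2 * C1) := by
      field_simp
      ring
    rw [h9, div_le_iff₀ (by linarith)]
    calc t / (2 * V) ≤ Real.log Y / Real.log H := h8
      _ ≤ _ := h
      _ ≤ C1 * (2 * ∑ R ∈ ((PP H ⌊X ^ θ⌋₊).erase ps).powerset.filter
            (fun R : Finset ℕ => ∏ p ∈ R, p ≤ Y), wt R) := by gcongr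
      _ = _ := by ring
  · have h := h3 H ⌊X ^ θ⌋₊ Y (by omega) hYH
    refine hE2.trans (h.trans ?_)
    have hlogY : Real.log Y ≤ t * Real.log X := by
      rw [← Real.log_rpow hX0]
      exact Real.log_le_log (by linarith) hYle
    have h8 : Real.log Y / Real.log H ≤ t / V := by
      rw [hVdef, div_div_eq_mul_div]
      gcongr
    calc C1 * (Real.log Y / Real.log H) ≤ C1 * (t / V) := by gcongr
      _ ≤ 4 * C1 * t / V := by
        rw [mul_div_assoc]
        have : 0 ≤ t / V := by positivity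
        nlinarith

/-- Cauchy-Schwarz in the form needed at the end -/
lemma cs_final (M : ℕ) (w W : ℕ → ℝ) (hw : ∀ m, 0 ≤ w m) (G : ℕ → Prop) [DecidablePred G]
    (a F : ℝ) (ha : 0 ≤ a) (hF : 0 < F) (h1 : a ≤ ∑ m ∈ (range M).filter G, w m * W m ^ 2)
    (h2 : ∑ m ∈ range M, w m * W m ^ 4 ≤ F) : a ^ 2 / F ≤ ∑ m ∈ (range M).filter G, w m := by
  have hcs : (∑ m ∈ (range M).filter G, w m * W m ^ 2) ^ 2 ≤
      (∑ m ∈ (range M).filter G, w m) * ∑ m ∈ (range M).filter G, w m * W m ^ 4 := by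
    have h := Finset.sum_mul_sq_le_sq_mul_sq ((range M).filter G) (fun m => Real.sqrt (w m))
      (fun m => Real.sqrt (w m) * W m ^ 2)
    have e1 : ∀ m, Real.sqrt (w m) * (Real.sqrt (w m) * W m ^ 2) = w m * W m ^ 2 := by
      intro m
      rw [← mul_assoc, Real.mul_self_sqrt (hw m)]
    have e2 : ∀ m, Real.sqrt (w m) ^ 2 = w m := fun m => Real.sq_sqrt (hw m)
    have e3 : ∀ m, (Real.sqrt (w m) * W m ^ 2) ^ 2 = w m * W m ^ 4 := by
      intro m
      rw [mul_pow, e2, ← pow_mul]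
    simp only [e1, e2, e3] at h
    exact h
  have h3 : ∑ m ∈ (range M).filter G, w m * W m ^ 4 ≤ F := by
    refine le_trans (Finset.sum_le_sum_of_subset_of_nonneg (Finset.filter_subset _ _) ?_) h2
    intro m _ _
    have := hw m
    positivity
  have h4 : 0 ≤ ∑ m ∈ (range M).filter G, w m := Finset.sum_nonneg (fun m _ => hw m)
  rw [div_le_iff₀ hF]
  calc a ^ 2 ≤ (∑ m ∈ (range M).filter G, w m * W m ^ 2) ^ 2 := by gcongr
    _ ≤ _ := hcs
    _ ≤ _ := by gcongr

end Pool.Agent.H410R2.EN
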