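import Mathlib
import Pool.Agent.H410R2.ENIface
import Pool.Agent.H410R2.ENCore1

set_option autoImplicit false

open Finset Filter

namespace Pool.Agent.H410R2.EN

open Pool.Agent.H410R2.AC

/-- choice of the depth b of the fundamental lemma -/
lemma exists_b (Km K : ℕ) (hKm : 1 ≤ Km) (θ V₀ E : ℝ) (hθ : 0 < θ) (hV₀ : 0 < V₀) :
    ∃ b : ℕ, 1 ≤ b ∧ Km ≤ b ∧ θ / (20 * Km * b) ≤ V₀ ∧ θ / (20 * Km * b) ≤ 1 / 4 ∧
      θ / (20 * Km * b) ≤ θ / 10 ∧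
      E * (2 / (θ / (20 * Km * b))) ^ K * (1 / 2 : ℝ) ^ b ≤ 1 / 32 := by
  have hKm0 : (0 : ℝ) < Km := by exact_mod_cast (by omega : 0 < Km)
  have t1 : Tendsto (fun b : ℕ => θ / (20 * Km * b)) atTop (nhds 0) := by
    have h : Tendsto (fun b : ℕ => (20 * Km * b : ℝ)) atTop atTop :=
      Tendsto.const_mul_atTop (by positivity) tendsto_natCast_atTop_atTop
    exact h.const_div_atTop θ
  have t2 : Tendsto (fun b : ℕ => E * (40 * Km / θ) ^ K * ((b : ℝ) ^ K * (1 / 2 : ℝ) ^ b)) atTop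
      (nhds (E * (40 * Km / θ) ^ K * 0)) := by
    refine Tendsto.const_mul _ ?_
    exact tendsto_pow_const_mul_const_pow_of_lt_one K (by norm_num) (by norm_num)
  rw [mul_zero] at t2
  have ev := (eventually_ge_atTop (max 1 Km)).and ((t1.eventually_le_const hV₀).and
    ((t1.eventually_le_const (show (0 : ℝ) < 1 / 4 by norm_num)).and
    ((t1.eventually_le_const (show (0 : ℝ) < θ / 10 by positivity)).and
    (t2.eventually_le_const (show (0 : ℝ) < 1 / 32 by norm_num)))))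
  obtain ⟨b, h1, h2, h3, h4, h5⟩ := ev.exists
  refine ⟨b, le_trans (le_max_left _ _) h1, le_trans (le_max_right _ _) h1, h2, h3, h4, ?_⟩
  have hb : (0 : ℝ) < b := by
    have : 1 ≤ b := le_trans (le_max_left _ _) h1
    exact_mod_cast (by omega : 0 < b)
  have e : (2 : ℝ) / (θ / (20 * Km * b)) = (40 * Km / θ) * b := by
    field_simp
    ring
  rw [e, mul_pow]
  calc E * ((40 * Km / θ) ^ K * (b : ℝ) ^ K) * (1 / 2 : ℝ) ^ b =
      E * (40 * Km / θ) ^ K * ((b : ℝ) ^ K * (1 / 2 : ℝ) ^ b) := by ring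
    _ ≤ 1 / 32 := h5

/-- choice of delta -/
lemma exists_delta (K : ℕ) (E : ℝ) : ∃ δ : ℝ, 0 < δ ∧ δ ≤ 1 ∧
    E * (Real.exp (K * δ) - 1) ≤ 1 / 32 := by
  have t : Tendsto (fun j : ℕ => E * (Real.exp (K * (1 / ((j : ℝ) + 1))) - 1)) atTop
      (nhds (E * (Real.exp (K * 0) - 1))) := by
    refine Tendsto.const_mul _ (Tendsto.sub_const ?_ 1)
    refine (Real.continuous_exp.tendsto _).comp (Tendsto.const_mul _ ?_)
    exact tendsto_one_div_add_atTop_nhds_zero_nat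
  simp only [mul_zero, Real.exp_zero, sub_self] at t
  obtain ⟨j, hj⟩ := (t.eventually_le_const (show (0 : ℝ) < 1 / 32 by norm_num)).exists
  refine ⟨1 / ((j : ℝ) + 1), by positivity, ?_, hj⟩
  rw [div_le_one (by positivity)]
  have : (0 : ℝ) ≤ j := by positivity
  linarith

/-- choice of J : 2^2^J is a small power of X -/
lemma exists_J (L v : ℝ) (hy : 2 ≤ v * L / Real.log 2) : ∃ J : ℕ, 1 ≤ J ∧
    v * L / 2 ≤ Real.log ((2 ^ 2 ^ J : ℕ) : ℝ) ∧ Real.log ((2 ^ 2 ^ J : ℕ) : ℝ) ≤ v * L := by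
  have hl2 : 0 < Real.log 2 := Real.log_pos (by norm_num)
  set y : ℝ := v * L / Real.log 2 with hydef
  have hvL : v * L = y * Real.log 2 := by rw [hydef]; field_simp
  have hf : 2 ≤ ⌊y⌋₊ := Nat.le_floor (by exact_mod_cast hy)
  refine ⟨Nat.log 2 ⌊y⌋₊, ?_, ?_, ?_⟩
  · exact Nat.log_pos (by norm_num) hf
  · have h1 : ⌊y⌋₊ < 2 ^ (Nat.log 2 ⌊y⌋₊ + 1) := Nat.lt_pow_succ_log_self (by norm_num) _
    have h2 : y < ⌊y⌋₊ + 1 := Nat.lt_floor_add_one y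
    have h3 : ((⌊y⌋₊ : ℝ)) + 1 ≤ 2 ^ (Nat.log 2 ⌊y⌋₊ + 1) := by exact_mod_cast h1
    have h4 : y ≤ 2 * 2 ^ (Nat.log 2 ⌊y⌋₊) := by
      rw [pow_succ] at h3
      linarith
    push_cast
    rw [Real.log_pow]
    push_cast
    rw [hvL]
    nlinarith
  · have h1 : 2 ^ (Nat.log 2 ⌊y⌋₊) ≤ ⌊y⌋₊ := Nat.pow_log_le_self 2 (by omega)
    have h2 : (⌊y⌋₊ : ℝ) ≤ y := Nat.floor_le (by linarith)
    have h3 : ((2 : ℝ) ^ (Nat.log 2 ⌊y⌋₊)) ≤ ⌊y⌋₊ := by exact_mod_cast h1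
    push_cast
    rw [Real.log_pow]
    push_cast
    rw [hvL]
    have h4 : (2 : ℝ) ^ (Nat.log 2 ⌊y⌋₊) ≤ y := h3.trans h2
    nlinarith

lemma ET_mono {K K' : ℕ} (hK : K ≤ K') {P : Finset ℕ} {D0 : ℕ} {err : Finset ℕ → ℝ}
    (h : ∀ T ⊆ P, ∏ p ∈ T, p ≤ D0 → 0 ≤ err T) : ET K P D0 err ≤ ET K' P D0 err := by
  unfold ET
  refine Finset.sum_le_sum (fun T hT => ?_)
  have h1 := Finset.mem_filter.mp hT
  have h2 := h T (Finset.mem_powerset.mp h1.1) h1.2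
  have h3 : (K : ℝ) ≤ K' := by exact_mod_cast hK
  gcongr

lemma ET_nonneg {K : ℕ} {P : Finset ℕ} {D0 : ℕ} {err : Finset ℕ → ℝ}
    (h : ∀ T ⊆ P, ∏ p ∈ T, p ≤ D0 → 0 ≤ err T) : 0 ≤ ET K P D0 err := by
  unfold ET
  refine Finset.sum_nonneg (fun T hT => ?_)
  have h1 := Finset.mem_filter.mp hT
  have h2 := h T (Finset.mem_powerset.mp h1.1) h1.2
  positivity

/-- equidistribution forces the errors to be nonnegative -/
lemma err_nonneg {κ : ℕ → ℕ → ℝ} {w : ℕ → ℝ} {M : ℕ} {A : ℝ} {P : Finset ℕ} {D0 : ℕ}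
    {err : Finset ℕ → ℝ} (hP : ∀ p ∈ P, p.Prime) (h : Equid κ w M A P D0 err) :
    ∀ T ⊆ P, ∏ p ∈ T, p ≤ D0 → 0 ≤ err T := by
  intro T hT hT'
  have := h T hT hT' (fun _ => 0) (fun p hp => (hP p (hT hp)).pos)
  exact (abs_nonneg _).trans this

/-- the numerical end of the argument -/
lemma numericW (A M k V1' G1 η EF1 EF2 s0 sG : ℝ) (hA : 0 ≤ A) (hM : 1 ≤ M) (hG1 : 0 < G1)
    (hlow : A * M - EF1 ≤ s0)
    (hup : s0 - sG ≤ k * ((1 / G1) ^ 2 * (A * (V1' * G1 * (η * M)) + EF2)))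
    (h1 : k * V1' * (1 / G1) * η ≤ 1 / 4) (h2 : EF1 ≤ A / 8)
    (h3 : k * ((1 / G1) ^ 2 * EF2) ≤ A / 8) : A / 2 ≤ sG := by
  have e1 : k * ((1 / G1) ^ 2 * (A * (V1' * G1 * (η * M)) + EF2)) =
      A * M * (k * V1' * (1 / G1) * η) + k * ((1 / G1) ^ 2 * EF2) := by
    field_simp
  rw [e1] at hup
  have h4 : A * M * (k * V1' * (1 / G1) * η) ≤ A * M * (1 / 4) :=
    mul_le_mul_of_nonneg_left h1 (by positivity)
  have h5 : A ≤ A * M := le_mul_of_one_le_right hA hM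
  linarith

end Pool.Agent.H410R2.EN
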