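import Mathlib
import Pool.Agent.H410R2.ENIface
import Pool.Agent.H410R2.ENCore1
import Pool.Agent.H410R2.ENCore2

set_option autoImplicit false

open Finset Filter

namespace Pool.Agent.H410R2.EN

open Pool.Agent.H410R2.AC

/-- the error terms are small -/
lemma errs (n K2 Ko J b k : ℕ) (A L C CB C1 θ v0 V δ E V1' G1 Cst R1 R2 : ℝ)
    (hC : 1 ≤ C) (hCB1 : 1 ≤ CB) (hC1 : 1 ≤ C1) (hθ : 0 < θ) (hA : 0 ≤ A)
    (hKo : 2 * n + 5 ≤ Ko) (hL1 : 1 ≤ L) (hv00 : 0 < v0) (hV : 0 < V) (hV1 : V ≤ 1)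
    (hVlow : v0 / 2 ≤ V) (hδ0 : 0 < δ) (hE0 : 0 ≤ E) (hEL : E ≤ A / L ^ Ko)
    (hCst : Cst = K2 * (1 + CB * (40 * C1 / θ) ^ 2))
    (hR1 : R1 = K2 * (2 / v0) ^ K2 * (2 * C) ^ (2 * n + 2))
    (hR2 : R2 = (2 * C) * (40 * C1 / θ) ^ 2 * R1) (hXR1 : 16 * R1 ≤ L) (hXR2 : 16 * R2 ≤ L)
    (hb : Cst * (2 / v0) ^ K2 * (1 / 2 : ℝ) ^ b ≤ 1 / 32)
    (hd : Cst * (2 / v0) ^ K2 * (Real.exp (K2 * δ) - 1) ≤ 1 / 32)
    (hBL1 : (k : ℝ) + 1 ≤ 2 * C * L) (hJL : (J : ℝ) + 2 ≤ L) (hV10 : 0 < V1')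
    (hBV : (k : ℝ) * V1' ≤ CB / V) (hG1pos : 0 < G1) (hG1inv : 1 / G1 ≤ 40 * C1 / θ * V) :
    EF n K2 b J k A V δ E ≤ A / 8 ∧
      (k : ℝ) * ((1 / G1) ^ 2 * EF n K2 b J k (A * V1') V δ E) ≤ A / 8 := by
  have hL0 : 0 < L := by linarith
  have hinv0 : 0 ≤ 1 / G1 := by positivity
  have hV2 : 1 / V ≤ 2 / v0 := by
    rw [div_le_div_iff₀ hV hv00]
    linarith
  have hVK : (K2 : ℝ) / V ^ K2 ≤ K2 * (2 / v0) ^ K2 := by
    rw [div_eq_mul_inv, ← inv_pow]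
    have h1 : V⁻¹ ≤ 2 / v0 := by rw [← one_div]; exact hV2
    have h2 : 0 ≤ V⁻¹ := by positivity
    gcongr
  have hR10 : 0 ≤ R1 := by rw [hR1]; positivity
  have hR20 : 0 ≤ R2 := by rw [hR2]; positivity
  set tt : ℝ := Real.exp (K2 * δ) - 1 + (1 / 2 : ℝ) ^ b with htt
  have htt0 : 0 ≤ tt := by
    have h1 : (0 : ℝ) ≤ K2 * δ := by positivity
    have := Real.one_le_exp h1
    have h2 : (0 : ℝ) ≤ (1 / 2 : ℝ) ^ b := by positivity
    rw [htt]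
    linarith
  have hCtt : Cst * (2 / v0) ^ K2 * tt ≤ 1 / 16 := by
    rw [htt]
    have h1 : Cst * (2 / v0) ^ K2 * (Real.exp (K2 * δ) - 1 + (1 / 2 : ℝ) ^ b) =
        Cst * (2 / v0) ^ K2 * (Real.exp (K2 * δ) - 1) +
        Cst * (2 / v0) ^ K2 * (1 / 2 : ℝ) ^ b := by ring
    rw [h1]
    linarith
  set e2 : ℝ := K2 / V ^ K2 * (k + 1 : ℝ) ^ (2 * n + 2) * (((J : ℝ) + 2) * E) with he2
  have he20 : 0 ≤ e2 := by positivity
  have hLKo : 0 < L ^ Ko := by positivity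
  have hALK : 0 ≤ A / L ^ Ko := by positivity
  have he2le : e2 ≤ R1 * L ^ (2 * n + 3) * (A / L ^ Ko) := by
    rw [he2]
    calc K2 / V ^ K2 * (k + 1 : ℝ) ^ (2 * n + 2) * (((J : ℝ) + 2) * E) ≤
          (K2 * (2 / v0) ^ K2) * (2 * C * L) ^ (2 * n + 2) * (L * (A / L ^ Ko)) := by
          gcongr
      _ = R1 * L ^ (2 * n + 3) * (A / L ^ Ko) := by
          rw [hR1, mul_pow (2 * C) L]
          ring
  have hLpow : ∀ j : ℕ, j + 1 ≤ Ko → L ^ j * (A / L ^ Ko) ≤ A / L := by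
    intro j hj
    rw [mul_div_assoc', div_le_div_iff₀ hLKo hL0]
    calc L ^ j * A * L = A * L ^ (j + 1) := by ring
      _ ≤ A * L ^ Ko := by
        have := pow_le_pow_right₀ hL1 hj
        gcongr
  have he2A : e2 ≤ A / 16 := by
    refine he2le.trans ?_
    have h1 := hLpow (2 * n + 3) (by omega)
    calc R1 * L ^ (2 * n + 3) * (A / L ^ Ko) = R1 * (L ^ (2 * n + 3) * (A / L ^ Ko)) := by ring
      _ ≤ R1 * (A / L) := by gcongr
      _ = (R1 / L) * A := by ring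
      _ ≤ (1 / 16) * A :=
        mul_le_mul_of_nonneg_right (by rw [div_le_iff₀ hL0]; linarith) hA
      _ = A / 16 := by ring
  constructor
  · have h1 : EF n K2 b J k A V δ E = A * (K2 / V ^ K2 * tt) + e2 := by
      rw [he2, htt]
      rfl
    rw [h1]
    have h2 : K2 / V ^ K2 * tt ≤ 1 / 16 := by
      calc K2 / V ^ K2 * tt ≤ (K2 * (2 / v0) ^ K2) * tt := by gcongr
        _ ≤ (Cst * (2 / v0) ^ K2) * tt := by
            have h3 : (K2 : ℝ) ≤ Cst := by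
              rw [hCst]
              have : 0 ≤ CB * (40 * C1 / θ) ^ 2 := by positivity
              have h4 : (0 : ℝ) ≤ K2 := by positivity
              nlinarith
            gcongr
        _ ≤ 1 / 16 := hCtt
    have h5 : A * (K2 / V ^ K2 * tt) ≤ A * (1 / 16) := by gcongr
    linarith
  · have h1 : EF n K2 b J k (A * V1') V δ E = A * V1' * (K2 / V ^ K2 * tt) + e2 := by
      rw [he2, htt]
      rfl
    have h2 : (k : ℝ) * ((1 / G1) ^ 2 * EF n K2 b J k (A * V1') V δ E) =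
        A * ((k * V1') * (1 / G1) ^ 2 * (K2 / V ^ K2 * tt)) +
        k * (1 / G1) ^ 2 * e2 := by
      rw [h1]; ring
    rw [h2]
    have h4 : (k * V1') * (1 / G1) ^ 2 * (K2 / V ^ K2 * tt) ≤ 1 / 16 := by
      have h30 : (k * V1') * (1 / G1) ^ 2 ≤ (CB / V) * (40 * C1 / θ * V) ^ 2 := by gcongr
      have h31 : (CB / V) * (40 * C1 / θ * V) ^ 2 = CB * (40 * C1 / θ) ^ 2 * V := by field_simp
      have h32 : CB * (40 * C1 / θ) ^ 2 * V ≤ CB * (40 * C1 / θ) ^ 2 * 1 := by gcongr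
      have h3 : (k * V1') * (1 / G1) ^ 2 ≤ CB * (40 * C1 / θ) ^ 2 := by
        rw [h31] at h30
        linarith
      calc (k * V1') * (1 / G1) ^ 2 * (K2 / V ^ K2 * tt) ≤
            (CB * (40 * C1 / θ) ^ 2) * ((K2 * (2 / v0) ^ K2) * tt) := by
            gcongr
        _ = (K2 * (CB * (40 * C1 / θ) ^ 2)) * (2 / v0) ^ K2 * tt := by ring
        _ ≤ Cst * (2 / v0) ^ K2 * tt := by
            have h5 : K2 * (CB * (40 * C1 / θ) ^ 2) ≤ Cst := by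
              rw [hCst]
              have h4 : (0 : ℝ) ≤ K2 := by positivity
              nlinarith
            gcongr
        _ ≤ 1 / 16 := hCtt
    have h6 : k * (1 / G1) ^ 2 * e2 ≤ A / 16 := by
      have h7 : (1 / G1) ^ 2 ≤ (40 * C1 / θ) ^ 2 := by
        have : 1 / G1 ≤ 40 * C1 / θ := by
          refine hG1inv.trans ?_
          have h8 : 0 ≤ 40 * C1 / θ := by positivity
          nlinarith
        gcongr
      calc k * (1 / G1) ^ 2 * e2 ≤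
            (2 * C * L) * (40 * C1 / θ) ^ 2 * (R1 * L ^ (2 * n + 3) * (A / L ^ Ko)) := by
            have h9 : (k : ℝ) ≤ 2 * C * L := by linarith
            gcongr
        _ = R2 * (L ^ (2 * n + 4) * (A / L ^ Ko)) := by rw [hR2]; ring
        _ ≤ R2 * (A / L) := by
            have := hLpow (2 * n + 4) (by omega)
            gcongr
        _ = (R2 / L) * A := by ring
        _ ≤ (1 / 16) * A :=
            mul_le_mul_of_nonneg_right (by rw [div_le_iff₀ hL0]; linarith) hA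
        _ = A / 16 := by ring
    have h10 : A * ((k * V1') * (1 / G1) ^ 2 * (K2 / V ^ K2 * tt)) ≤ A * (1 / 16) := by gcongr
    linarith

lemma err4 (n K4 Ko J k k0 : ℕ) (A L C v0 V E4 F0 : ℝ) (hC : 1 ≤ C) (hA : 0 ≤ A)
    (hKo : 4 * n + 2 ≤ Ko) (hL1 : 1 ≤ L) (hv00 : 0 < v0) (hV : 0 < V)
    (hVlow : v0 / 2 ≤ V) (hE0 : 0 ≤ E4) (hEL : E4 ≤ A / L ^ Ko)
    (hXC : (2 * C) ^ (4 * n) ≤ L) (hF0 : F0 = (2 * K4 / v0) ^ K4 * 2 ^ (4 * n * k0) * 2)
    (hBL1 : (k : ℝ) + 1 ≤ 2 * C * L) (hJL : (J : ℝ) + 2 ≤ L) :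
    (K4 / V) ^ K4 * 2 ^ (4 * n * k0) *
          (A + (k + 1 : ℝ) ^ (4 * n) * (((J : ℝ) + 2) * E4)) ≤ F0 * A := by
  have hL0 : 0 < L := by linarith
  have hLKo : 0 < L ^ Ko := by positivity
  have hALK : 0 ≤ A / L ^ Ko := by positivity
  have hLpow : L ^ (4 * n + 1) * (A / L ^ Ko) ≤ A / L := by
    rw [mul_div_assoc', div_le_div_iff₀ hLKo hL0]
    calc L ^ (4 * n + 1) * A * L = A * L ^ (4 * n + 1 + 1) := by ring
      _ ≤ A * L ^ Ko := by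
        have := pow_le_pow_right₀ hL1 hKo
        gcongr
  have hV2 : 1 / V ≤ 2 / v0 := by
    rw [div_le_div_iff₀ hV hv00]
    linarith
  have hE4 : (k + 1 : ℝ) ^ (4 * n) * (((J : ℝ) + 2) * E4) ≤ A := by
    calc (k + 1 : ℝ) ^ (4 * n) * (((J : ℝ) + 2) * E4) ≤
          (2 * C * L) ^ (4 * n) * (L * (A / L ^ Ko)) := by gcongr
      _ = (2 * C) ^ (4 * n) * (L ^ (4 * n + 1) * (A / L ^ Ko)) := by
          rw [mul_pow (2 * C) L]; ring
      _ ≤ (2 * C) ^ (4 * n) * (A / L) := by gcongr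
      _ = ((2 * C) ^ (4 * n) / L) * A := by ring
      _ ≤ 1 * A :=
          mul_le_mul_of_nonneg_right (by rw [div_le_one hL0]; exact hXC) hA
      _ = A := one_mul A
  have h1 : (K4 / V) ^ K4 ≤ (2 * K4 / v0) ^ K4 := by
    have h2 : (K4 : ℝ) / V ≤ 2 * K4 / v0 := by
      calc (K4 : ℝ) / V = K4 * (1 / V) := by ring
        _ ≤ K4 * (2 / v0) := by gcongr
        _ = 2 * K4 / v0 := by ring
    gcongr
  calc (K4 / V) ^ K4 * 2 ^ (4 * n * k0) *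
        (A + (k + 1 : ℝ) ^ (4 * n) * (((J : ℝ) + 2) * E4)) ≤
        (2 * K4 / v0) ^ K4 * 2 ^ (4 * n * k0) * (A + A) := by gcongr
    _ = F0 * A := by rw [hF0]; ring

end Pool.Agent.H410R2.EN
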