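import Mathlib
import Pool.Agent.H410R2.ENIface
import Pool.Agent.H410R2.ENCore1
import Pool.Agent.H410R2.ENCore2

set_option autoImplicit false

open Finset Filter

namespace Pool.Agent.H410R2.EN

open Pool.Agent.H410R2.AC

/-- the bad m are controlled by the spectator moments -/
lemma up_bound (hCollapse : Collapse) (n : ℕ) (P1 P2 B : Finset ℕ) (ρ : ℕ → ℕ → ℕ) (w : ℕ → ℝ)
    (M : ℕ) (S : Fin n → Finset (Finset ℕ)) (S1 : Finset (Finset ℕ)) (g β : Fin n → ℝ)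
    (hw : ∀ m, 0 ≤ w m) (hSP : ∀ τ, ∀ R ∈ S τ, R ⊆ P2) (hS1P : ∀ R ∈ S1, R ⊆ P2)
    (hgG : ∀ τ, g τ * GG (S τ) = β τ) (hβs : ∑ τ, β τ = 1) (hG1pos : 0 < GG S1) (Z : ℝ)
    (G : ℕ → Prop) [DecidablePred G] (hG : ∀ m, G m ↔ ∀ a ∈ B, ∃ p ∈ P1 ∪ P2, m % p = ρ p a)
    (hZ : ∀ a₀ ∈ B, ∑ m ∈ range M, w m * (WW (B.erase a₀) (coef β) (xx ρ P1 S g m) *
          (rg ρ P1 a₀ m * FF ρ S1 (some a₀) m)) ^ 2 ≤ Z) :
    ∑ m ∈ range M, w m * WW B (fun _ => 1) (xx ρ P1 S g m) ^ 2 -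
      ∑ m ∈ (range M).filter G, w m * WW B (fun _ => 1) (xx ρ P1 S g m) ^ 2 ≤
      B.card * ((1 / GG S1) ^ 2 * Z) := by
  classical
  set x : ℕ → Fin n → ℕ → ℝ := fun m => xx ρ P1 S g m with hx
  have hsplit : ∑ m ∈ range M, w m * WW B (fun _ => 1) (x m) ^ 2 =
      ∑ m ∈ (range M).filter G, w m * WW B (fun _ => 1) (x m) ^ 2 +
      ∑ m ∈ (range M).filter (fun m => ¬ G m), w m * WW B (fun _ => 1) (x m) ^ 2 :=
    (Finset.sum_filter_add_sum_filter_not _ _ _).symm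
  have hsplit' : ∑ m ∈ range M, w m * WW B (fun _ => 1) (x m) ^ 2 -
      ∑ m ∈ (range M).filter G, w m * WW B (fun _ => 1) (x m) ^ 2 =
      ∑ m ∈ (range M).filter (fun m => ¬ G m), w m * WW B (fun _ => 1) (x m) ^ 2 := by
    rw [hsplit, add_sub_cancel_left]
  have hgoal : ∑ m ∈ (range M).filter (fun m => ¬ G m), w m * WW B (fun _ => 1) (x m) ^ 2 ≤
      B.card * ((1 / GG S1) ^ 2 * Z) := by
    have h1 : ∀ m ∈ (range M).filter (fun m => ¬ G m), w m * WW B (fun _ => 1) (x m) ^ 2 ≤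
        ∑ a₀ ∈ B, (1 / GG S1) ^ 2 * (w m * (WW (B.erase a₀) (coef β) (x m) *
          (rg ρ P1 a₀ m * FF ρ S1 (some a₀) m)) ^ 2) := by
      intro m hm
      have hm' := (Finset.mem_filter.mp hm).2
      rw [hG] at hm'
      push Not at hm'
      obtain ⟨a₀, ha₀, hr⟩ := hm'
      have hr1 : ∀ p ∈ P1, m % p ≠ ρ p a₀ := fun p hp => hr p (Finset.mem_union_left _ hp)
      have hr2 : ∀ p ∈ P2, m % p ≠ ρ p a₀ := fun p hp => hr p (Finset.mem_union_right _ hp)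
      have hrg : rg ρ P1 a₀ m = 1 := by
        unfold rg
        rw [if_pos hr1]
      have hxβ : ∀ τ, x m τ a₀ = - β τ := by
        intro τ
        simp only [hx, xx]
        rw [hrg, FF_rough (hSP τ) hr2, ← hgG τ]
        ring
      have hc := hCollapse n B a₀ β (x m) ha₀ hβs hxβ
      have hf : FF ρ S1 (some a₀) m = GG S1 := FF_rough hS1P hr2
      refine le_trans ?_ (Finset.single_le_sum (f := fun a₀ => (1 / GG S1) ^ 2 *
        (w m * (WW (B.erase a₀) (coef β) (x m) * (rg ρ P1 a₀ m * FF ρ S1 (some a₀) m)) ^ 2))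
        (fun a _ => mul_nonneg (sq_nonneg _) (mul_nonneg (hw m) (sq_nonneg _))) ha₀)
      show w m * WW B (fun _ => 1) (x m) ^ 2 ≤ (1 / GG S1) ^ 2 *
        (w m * (WW (B.erase a₀) (coef β) (x m) * (rg ρ P1 a₀ m * FF ρ S1 (some a₀) m)) ^ 2)
      rw [hc, hf, hrg, one_mul, mul_pow]
      have : (1 / GG S1) ^ 2 * (w m * (WW (B.erase a₀) (coef β) (x m) ^ 2 * GG S1 ^ 2)) =
          w m * WW (B.erase a₀) (coef β) (x m) ^ 2 := by
        field_simp
      rw [this]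
    refine (Finset.sum_le_sum h1).trans ?_
    have h1' : ∑ m ∈ (range M).filter (fun m => ¬ G m), ∑ a₀ ∈ B, (1 / GG S1) ^ 2 *
        (w m * (WW (B.erase a₀) (coef β) (x m) * (rg ρ P1 a₀ m * FF ρ S1 (some a₀) m)) ^ 2) ≤
        ∑ m ∈ range M, ∑ a₀ ∈ B, (1 / GG S1) ^ 2 *
        (w m * (WW (B.erase a₀) (coef β) (x m) * (rg ρ P1 a₀ m * FF ρ S1 (some a₀) m)) ^ 2) := by
      refine Finset.sum_le_sum_of_subset_of_nonneg (Finset.filter_subset _ _) (fun m _ _ => ?_)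
      exact Finset.sum_nonneg (fun a _ =>
        mul_nonneg (sq_nonneg _) (mul_nonneg (hw m) (sq_nonneg _)))
    refine h1'.trans ?_
    rw [Finset.sum_comm, ← nsmul_eq_mul]
    refine Finset.sum_le_card_nsmul _ _ _ (fun a₀ ha₀ => ?_)
    rw [← Finset.mul_sum]
    exact mul_le_mul_of_nonneg_left (hZ a₀ ha₀) (sq_nonneg _)
  show ∑ m ∈ range M, w m * WW B (fun _ => 1) (x m) ^ 2 -
      ∑ m ∈ (range M).filter G, w m * WW B (fun _ => 1) (x m) ^ 2 ≤ _
  rw [hsplit']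
  exact hgoal

lemma prod_sub_le {s t : Finset ℕ} (h : s ⊆ t) (h1 : ∀ p ∈ t, (1 : ℝ) ≤ p) :
    ∏ p ∈ s, (p : ℝ) ≤ ∏ p ∈ t, (p : ℝ) := by
  classical
  rw [← Finset.prod_sdiff h]
  have h2 : (1 : ℝ) ≤ ∏ p ∈ t \ s, (p : ℝ) := by
    have := Finset.prod_le_prod (s := t \ s) (f := fun _ => (1 : ℝ)) (g := fun p : ℕ => (p : ℝ))
      (fun _ _ => zero_le_one) (fun p hp => h1 p (Finset.mem_sdiff.mp hp).1)
    simpa using this
  have h3 : 0 ≤ ∏ p ∈ s, (p : ℝ) := Finset.prod_nonneg (fun p _ => by positivity)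
  nlinarith

/-- number of hits -/
lemma hit_bound (C v0 L X : ℝ) (z1 k0 m a M : ℕ) (P1 P2 : Finset ℕ) (ρ : ℕ → ℕ → ℕ)
    (hC : 1 ≤ C) (hv00 : 0 < v0) (hL0 : 0 < L) (hXpos : 0 < X) (hL : L = Real.log X)
    (hk0 : k0 = ⌈2 * C / v0⌉₊) (hz1r : (4 : ℝ) ≤ z1) (hJlow : v0 * L / 2 ≤ Real.log z1)
    (hPp : ∀ p ∈ P1 ∪ P2, p.Prime) (hP2z : ∀ p ∈ P2, z1 < p) (hne : P1.Nonempty)
    (hrg : rg ρ P1 a m ≠ 0)
    (hs : (∏ p ∈ (P1 ∪ P2).filter (fun p => m % p = ρ p a), (p : ℝ)) ≤ X ^ C ∨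
          ∀ p ∈ P1 ∪ P2, m % p = ρ p a) : (P2.filter (fun p => m % p = ρ p a)).card ≤ k0 := by
  have hr1 : ∀ p ∈ P1, m % p ≠ ρ p a := by
    by_contra hcon
    unfold rg at hrg
    rw [if_neg hcon] at hrg
    exact hrg rfl
  rcases hs with hs | hs
  · have h1 : (z1 : ℝ) ^ (P2.filter (fun p => m % p = ρ p a)).card ≤ X ^ C := by
      calc (z1 : ℝ) ^ (P2.filter (fun p => m % p = ρ p a)).card =
            ∏ p ∈ P2.filter (fun p => m % p = ρ p a), (z1 : ℝ) := by rw [Finset.prod_const]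
        _ ≤ ∏ p ∈ P2.filter (fun p => m % p = ρ p a), (p : ℝ) := by
            refine Finset.prod_le_prod (fun _ _ => by positivity) (fun p hp => ?_)
            have := hP2z p (Finset.mem_filter.mp hp).1
            exact_mod_cast this.le
        _ ≤ ∏ p ∈ (P1 ∪ P2).filter (fun p => m % p = ρ p a), (p : ℝ) := by
            refine prod_sub_le (Finset.filter_subset_filter _ Finset.subset_union_right)
              (fun p hp => ?_)
            have := (hPp p (Finset.mem_filter.mp hp).1).one_lt.le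
            exact_mod_cast this
        _ ≤ X ^ C := hs
    have h2 : ((P2.filter (fun p => m % p = ρ p a)).card : ℝ) * (v0 / 2) ≤ C := by
      have h3 : ((P2.filter (fun p => m % p = ρ p a)).card : ℝ) * Real.log z1 ≤ C * L := by
        rw [← Real.log_pow, hL, ← Real.log_rpow hXpos]
        exact Real.log_le_log (by positivity) h1
      have h4 : ((P2.filter (fun p => m % p = ρ p a)).card : ℝ) * (v0 * L / 2) ≤ C * L := by
        refine le_trans ?_ h3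
        gcongr
      have h5 : (((P2.filter (fun p => m % p = ρ p a)).card : ℝ) * (v0 / 2)) * L ≤ C * L := by
        linarith
      exact le_of_mul_le_mul_right h5 hL0
    have h6 : ((P2.filter (fun p => m % p = ρ p a)).card : ℝ) ≤ 2 * C / v0 := by
      rw [le_div_iff₀ hv00]
      linarith
    have h7 := h6.trans (Nat.le_ceil (2 * C / v0))
    rw [hk0]
    exact_mod_cast h7
  · obtain ⟨p, hp⟩ := hne
    exact absurd (hs p (Finset.mem_union_left _ hp)) (hr1 p hp)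

end Pool.Agent.H410R2.EN
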