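import Mathlib
import Pool.Agent.H410R2.ENIface
import Pool.Agent.H410R2.ENCore1
import Pool.Agent.H410R2.ENCore2

set_option autoImplicit false

open Finset Filter

namespace Pool.Agent.H410R2.EN

open Pool.Agent.H410R2.AC

/-- data at a fixed X -/
lemma sizes (C C1 CB θ v0 X L V : ℝ) (z0 z1 z2 J ps k : ℕ)
    (hC : 1 ≤ C) (hC1 : 1 ≤ C1) (hCB : CB = 2 * C * C1) (hθ1 : θ ≤ 1) (hv00 : 0 < v0)
    (hX1 : 1 < X) (hL : L = Real.log X) (hL1 : 1 ≤ L) (hz1 : z1 = 2 ^ 2 ^ J)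
    (hz1r : (4 : ℝ) ≤ z1) (hV : V = Real.log z1 / L)
    (hz2 : z2 = ⌊X ^ θ⌋₊) (hz01 : z0 ≤ z1) (hz12 : z1 ≤ z2) (hz08 : 8 ≤ z0) (hv04 : v0 ≤ 1 / 4)
    (hJup : Real.log z1 ≤ v0 * L)
    (hBc : (k : ℝ) * Real.log z0 ≤ C * L)
    (hN1 : ∀ H z : ℕ, 2 ≤ H → H ≤ z → Pi1 (PP H z) ≤ C1 * (Real.log z / Real.log H))
    (hN2 : ∀ H z Y : ℕ, 2 ≤ H → Y ≤ z → Real.log Y / Real.log H ≤
      C1 * ∑ R ∈ (PP H z).powerset.filter (fun R : Finset ℕ => ∏ p ∈ R, p ≤ Y), wt R) :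
    0 < V1 ((PP z0 z1).erase ps) ∧ Real.log z1 / (2 * C1 * Real.log z0) ≤
      Pi1 ((PP z0 z1).erase ps) ∧ (k : ℝ) * V1 ((PP z0 z1).erase ps) ≤ CB / V ∧
      Pi1 ((PP z1 z2).erase ps) ≤ C1 / V ∧ (k : ℝ) + 1 ≤ 2 * C * L ∧ (J : ℝ) + 2 ≤ L ∨ L < 4 := by
  by_cases hL4 : L < 4
  · exact Or.inr hL4
  push Not at hL4
  refine Or.inl ?_
  have hL0 : 0 < L := by linarith
  have hXpos : 0 < X := by linarith
  have hlz1 : 0 < Real.log (z1 : ℝ) := Real.log_pos (by linarith)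
  have hz08r : (8 : ℝ) ≤ z0 := by exact_mod_cast hz08
  have hlz0 : 1 ≤ Real.log (z0 : ℝ) := by
    have h2 : Real.exp 1 ≤ z0 := by
      have := Real.exp_one_lt_d9
      linarith
    calc (1 : ℝ) = Real.log (Real.exp 1) := (Real.log_exp 1).symm
      _ ≤ Real.log z0 := Real.log_le_log (Real.exp_pos 1) h2
  have hP1p : ∀ p ∈ (PP z0 z1).erase ps, p.Prime :=
    fun p hp => PP_prime (Finset.mem_of_mem_erase hp)
  have hPi1low : Real.log z1 / (2 * C1 * Real.log z0) ≤ Pi1 ((PP z0 z1).erase ps) := by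
    have h1 := hN2 z0 z1 z1 (by omega) le_rfl
    have h2 : ∑ R ∈ (PP z0 z1).powerset.filter (fun R : Finset ℕ => ∏ p ∈ R, p ≤ z1), wt R ≤
        Pi1 (PP z0 z1) := by
      have h3 : Pi1 (PP z0 z1) = ∑ R ∈ (PP z0 z1).powerset, wt R := by
        unfold Pi1 wt
        rw [Finset.prod_one_add]
      rw [h3]
      refine Finset.sum_le_sum_of_subset_of_nonneg (Finset.filter_subset _ _) (fun R hR _ => ?_)
      exact wt_nonneg (fun p hp => PP_prime (Finset.mem_powerset.mp hR hp))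
    have h4 := Pi1_le_erase (P := PP z0 z1) (fun p hp => PP_prime hp) ps
    have h5 : Real.log z1 / Real.log z0 ≤ C1 * (2 * Pi1 ((PP z0 z1).erase ps)) :=
      h1.trans (mul_le_mul_of_nonneg_left (h2.trans h4) (by linarith))
    rw [div_le_iff₀ (by positivity)] at h5 ⊢
    linarith
  have hPpos := Pi1_pos hP1p
  have hV1P : V1 ((PP z0 z1).erase ps) = 1 / Pi1 ((PP z0 z1).erase ps) := by
    rw [eq_div_iff hPpos.ne', V1_mul_Pi1 hP1p]
  have hV10 : 0 < V1 ((PP z0 z1).erase ps) := by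
    rw [hV1P]
    positivity
  have hV1up : V1 ((PP z0 z1).erase ps) ≤ 2 * C1 * Real.log z0 / Real.log z1 := by
    rw [hV1P, div_le_div_iff₀ hPpos hlz1]
    rw [div_le_iff₀ (by positivity)] at hPi1low
    linarith
  have hBV : (k : ℝ) * V1 ((PP z0 z1).erase ps) ≤ CB / V := by
    have h1 : (k : ℝ) * V1 ((PP z0 z1).erase ps) ≤
        k * (2 * C1 * Real.log z0 / Real.log z1) :=
      mul_le_mul_of_nonneg_left hV1up (by positivity)
    have h2 : (k : ℝ) * (2 * C1 * Real.log z0 / Real.log z1) =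
        (k * Real.log z0) * (2 * C1 / Real.log z1) := by ring
    have h3 : (k * Real.log z0) * (2 * C1 / Real.log z1) ≤ (C * L) * (2 * C1 / Real.log z1) :=
      mul_le_mul_of_nonneg_right hBc (by positivity)
    have h4 : (C * L) * (2 * C1 / Real.log z1) = CB / V := by
      rw [hCB, hV]
      field_simp
    rw [h2] at h1
    rw [h4] at h3
    exact h1.trans h3
  have hPi2 : Pi1 ((PP z1 z2).erase ps) ≤ C1 / V := by
    refine (Pi1_erase_le (P := PP z1 z2) (fun p hp => PP_prime hp) ps).trans ?_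
    refine (hN1 z1 z2 (by omega) hz12).trans ?_
    rw [hV, div_div_eq_mul_div, mul_div_assoc]
    have hzX : (z2 : ℝ) ≤ X := by
      rw [hz2]
      refine (Nat.floor_le (by positivity)).trans ?_
      calc X ^ θ ≤ X ^ (1 : ℝ) := Real.rpow_le_rpow_of_exponent_le hX1.le hθ1
        _ = X := Real.rpow_one _
    have hz20 : (0 : ℝ) < z2 := by
      have : (z1 : ℝ) ≤ z2 := by exact_mod_cast hz12
      linarith
    have := Real.log_le_log hz20 hzX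
    rw [hL]
    gcongr
  have hBL : (k : ℝ) ≤ C * L := by
    have h3 : (k : ℝ) * 1 ≤ k * Real.log z0 := mul_le_mul_of_nonneg_left hlz0 (by positivity)
    linarith
  have hBL1 : (k : ℝ) + 1 ≤ 2 * C * L := by
    have h2 : 1 ≤ C * L := one_le_mul_of_one_le_of_one_le hC hL1
    linarith
  have hJL : (J : ℝ) + 2 ≤ L := by
    have h1 : ((J : ℕ) : ℝ) < (2 : ℝ) ^ J := by exact_mod_cast Nat.lt_two_pow_self
    have h2 : (2 : ℝ) ^ J * Real.log 2 ≤ v0 * L := by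
      have h3 := hJup
      rw [hz1] at h3
      push_cast at h3
      rw [Real.log_pow] at h3
      push_cast at h3
      exact h3
    have h4 : (0.5 : ℝ) ≤ Real.log 2 := by
      have := Real.log_two_gt_d9
      linarith
    have h5 : (2 : ℝ) ^ J * 0.5 ≤ (2 : ℝ) ^ J * Real.log 2 :=
      mul_le_mul_of_nonneg_left h4 (by positivity)
    have h6 : v0 * L ≤ (1 / 4) * L := mul_le_mul_of_nonneg_right hv04 hL0.le
    linarith
  exact ⟨hV10, hPi1low, hBV, hPi2, hBL1, hJL⟩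

/-- the level condition -/
lemma level (X θ v0 T0 : ℝ) (n J b K Km Y1 : ℕ) (u : Fin n → ℝ) (hX1 : 1 < X) (hθ : 0 < θ)
    (hv00 : 0 < v0) (hK : K ≤ Km) (hz1X : (((2 ^ 2 ^ J : ℕ)) : ℝ) ≤ X ^ v0)
    (hvb : v0 * (Km * b) = θ / 20) (hT0 : T0 = θ / 10) (hus : ∑ τ, u τ ≤ T0)
    (hY1 : Y1 = ⌊X ^ T0⌋₊) :
    (2 ^ 2 ^ J) ^ (K * b) ≤ ⌊X ^ θ⌋₊ ∧
    (2 ^ 2 ^ J) ^ (K * b) * (Y1 * ∏ τ, ⌊X ^ (u τ)⌋₊) ^ 2 ≤ ⌊X ^ θ⌋₊ := by
  have hXpos : 0 < X := by linarith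
  have hl : (((2 ^ 2 ^ J) ^ (K * b) : ℕ) : ℝ) ≤ X ^ (θ / 20) := by
    rw [Nat.cast_pow]
    calc ((((2 ^ 2 ^ J : ℕ)) : ℝ)) ^ (K * b) ≤ (X ^ v0) ^ (K * b) :=
          pow_le_pow_left₀ (by positivity) hz1X _
      _ = X ^ (v0 * ((K * b : ℕ) : ℝ)) := by
        rw [← Real.rpow_natCast, ← Real.rpow_mul hXpos.le]
      _ ≤ X ^ (θ / 20) := by
        refine Real.rpow_le_rpow_of_exponent_le hX1.le ?_
        rw [← hvb]
        push_cast
        have : (K : ℝ) ≤ Km := by exact_mod_cast hK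
        gcongr
  constructor
  · refine Nat.le_floor (hl.trans ?_)
    exact Real.rpow_le_rpow_of_exponent_le hX1.le (by linarith)
  · refine Nat.le_floor ?_
    have hYprod : ((∏ τ, ⌊X ^ (u τ)⌋₊ : ℕ) : ℝ) ≤ X ^ T0 := by
      push_cast
      calc ∏ τ, ((⌊X ^ (u τ)⌋₊ : ℕ) : ℝ) ≤ ∏ τ, X ^ (u τ) :=
            Finset.prod_le_prod (fun _ _ => by positivity)
              (fun τ _ => Nat.floor_le (by positivity))
        _ = X ^ (∑ τ, u τ) := by rw [Real.rpow_sum_of_pos hXpos]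
        _ ≤ X ^ T0 := Real.rpow_le_rpow_of_exponent_le hX1.le hus
    have h2 : ((Y1 : ℕ) : ℝ) ≤ X ^ T0 := by rw [hY1]; exact Nat.floor_le (by positivity)
    have h3 : (((2 ^ 2 ^ J) ^ (K * b) * (Y1 * ∏ τ, ⌊X ^ (u τ)⌋₊) ^ 2 : ℕ) : ℝ) =
        (((2 ^ 2 ^ J) ^ (K * b) : ℕ) : ℝ) *
          (((Y1 : ℕ) : ℝ) * ((∏ τ, ⌊X ^ (u τ)⌋₊ : ℕ) : ℝ)) ^ 2 := by
      push_cast
      ring
    rw [h3]
    have h4 : (((Y1 : ℕ) : ℝ) * ((∏ τ, ⌊X ^ (u τ)⌋₊ : ℕ) : ℝ)) ^ 2 ≤ (X ^ T0 * X ^ T0) ^ 2 :=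
      pow_le_pow_left₀ (by positivity) (mul_le_mul h2 hYprod (by positivity) (by positivity)) 2
    calc (((2 ^ 2 ^ J) ^ (K * b) : ℕ) : ℝ) *
          (((Y1 : ℕ) : ℝ) * ((∏ τ, ⌊X ^ (u τ)⌋₊ : ℕ) : ℝ)) ^ 2 ≤
          X ^ (θ / 20) * (X ^ T0 * X ^ T0) ^ 2 :=
            mul_le_mul hl h4 (by positivity) (by positivity)
      _ = X ^ (θ / 20 + (T0 + T0) * 2) := by
          rw [← Real.rpow_add hXpos, ← Real.rpow_natCast (X ^ (T0 + T0)) 2,
            ← Real.rpow_mul hXpos.le, ← Real.rpow_add hXpos]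
          norm_num
      _ ≤ X ^ θ := by
          refine Real.rpow_le_rpow_of_exponent_le hX1.le ?_
          rw [hT0]
          linarith

/-- nonemptiness of the first block of primes -/
lemma P1_nonempty (C1 v0 X L : ℝ) (z0 z1 ps : ℕ) (hC1 : 1 ≤ C1)
    (hz08 : 8 ≤ z0) (hz0L : (z0 : ℝ) ≤ L) (hJlow : v0 * L / 2 ≤ Real.log z1)
    (hX : 2 * C1 * Real.log L < v0 * L / 2)
    (hlow : Real.log z1 / (2 * C1 * Real.log z0) ≤ Pi1 ((PP z0 z1).erase ps)) :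
    ((PP z0 z1).erase ps).Nonempty := by
  by_contra hne
  rw [Finset.not_nonempty_iff_eq_empty] at hne
  rw [hne] at hlow
  have h1 : Pi1 (∅ : Finset ℕ) = 1 := by unfold Pi1; simp
  rw [h1] at hlow
  have hz0r : (8 : ℝ) ≤ z0 := by exact_mod_cast hz08
  have hlz0 : 0 < Real.log (z0 : ℝ) := Real.log_pos (by linarith)
  rw [div_le_one (by positivity)] at hlow
  have h2 : Real.log (z0 : ℝ) ≤ Real.log L := Real.log_le_log (by linarith) hz0L
  have h3 : 2 * C1 * Real.log z0 ≤ 2 * C1 * Real.log L := by gcongr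
  linarith

end Pool.Agent.H410R2.EN
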