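import Mathlib
import Pool.Agent.H410R2.ENIface
import Pool.Agent.H410R2.ENCore1
import Pool.Agent.H410R2.ENCore2
import Pool.Agent.H410R2.ENCoreA
import Pool.Agent.H410R2.ENCoreB
import Pool.Agent.H410R2.ENCoreC

set_option autoImplicit false

open Finset Filter

namespace Pool.Agent.H410R2.EN

open Pool.Agent.H410R2.AC

/-- the argument at a fixed X -/
lemma core_fixed (hCollapse : Collapse) (hMain : MainIneq) (C C1 CB θ η T0 v0 δ βm : ℝ)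
    (n K2 K4 Km b Ko k0 : ℕ) (u β : Fin n → ℝ) (Cst R1 R2 F0 C2 : ℝ)
    (hC : 1 ≤ C) (hC1 : 1 ≤ C1) (hCB : CB = 2 * C * C1) (hθ : 0 < θ) (hθ1 : θ ≤ 1)
    (hη : η = θ / (160 * C1 * CB ^ 2)) (hT0 : T0 = θ / 10)
    (hN1 : ∀ H z : ℕ, 2 ≤ H → H ≤ z → Pi1 (PP H z) ≤ C1 * (Real.log z / Real.log H))
    (hN2 : ∀ H z Y : ℕ, 2 ≤ H → Y ≤ z → Real.log Y / Real.log H ≤
      C1 * ∑ R ∈ (PP H z).powerset.filter (fun R : Finset ℕ => ∏ p ∈ R, p ≤ Y), wt R)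
    (huβ : ∀ τ, 0 < u τ ∧ 0 < β τ) (hβs : ∑ τ, β τ = 1) (hus : ∑ τ, u τ ≤ T0)
    (hβm0 : 0 < βm) (hβm : ∀ τ, βm ≤ β τ) (hC2 : C2 = CB + C1 + η / βm + 1)
    (hKm : Km = K2 + K4) (hKo1 : Km + 4 * n + 8 ≤ Ko) (hKoδ : 1 / (Ko : ℝ) ≤ δ)
    (hbK : Km ≤ b) (hb4 : v0 ≤ 1 / 4) (hb10 : v0 ≤ θ / 10) (hv00 : 0 < v0)
    (hvb : v0 * (Km * b) = θ / 20) (hδ0 : 0 < δ) (hδ1 : δ ≤ 1)
    (hCst : Cst = K2 * (1 + CB * (40 * C1 / θ) ^ 2))
    (hbE : Cst * (2 / v0) ^ K2 * (1 / 2 : ℝ) ^ b ≤ 1 / 32)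
    (hδE : Cst * (2 / v0) ^ K2 * (Real.exp (K2 * δ) - 1) ≤ 1 / 32)
    (hR1 : R1 = K2 * (2 / v0) ^ K2 * (2 * C) ^ (2 * n + 2))
    (hR2 : R2 = (2 * C) * (40 * C1 / θ) ^ 2 * R1) (hk0 : k0 = ⌈2 * C / v0⌉₊)
    (hF0 : F0 = (2 * K4 / v0) ^ K4 * 2 ^ (4 * n * k0) * 2) (hF00 : 0 < F0)
    (X L V : ℝ) (J z0 z1 z2 D0 ps : ℕ) (hX1 : 1 < X) (hL : L = Real.log X) (hL8 : 8 ≤ L)
    (hz1 : z1 = 2 ^ 2 ^ J) (hz14 : 4 ≤ z1) (hV : V = Real.log z1 / L)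
    (hJlow : v0 * L / 2 ≤ Real.log z1) (hJup : Real.log z1 ≤ v0 * L)
    (hXz : L ≤ X ^ (v0 / 2)) (hXR1 : 16 * R1 ≤ L) (hXR2 : 16 * R2 ≤ L)
    (hXC : (2 * C) ^ (4 * n) ≤ L) (hXne : 2 * C1 * Real.log L < v0 * L / 2)
    (hz0K : Ko ≤ z0) (hz0L : (z0 : ℝ) ≤ L) (hz2 : z2 = ⌊X ^ θ⌋₊) (hD0 : D0 = ⌊X ^ θ⌋₊)
    (S : Fin n → Finset (Finset ℕ))
    (hSsub : ∀ τ, S τ ⊆ (((PP z1 z2).erase ps).powerset).filter
      (fun R => V < Real.log (∏ p ∈ R, (p : ℝ)) / L ∧ Real.log (∏ p ∈ R, (p : ℝ)) / L ≤ u τ))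
    (hSdis : ∀ τ τ', τ ≠ τ' → Disjoint (S τ) (S τ'))
    (hSGG : ∀ τ, β τ ^ 2 / (η * V) ≤ GG (S τ))
    (hmass0 : T0 / (4 * C1 * V) ≤ ∑ R ∈ (((PP z1 z2).erase ps).powerset).filter
        (fun R : Finset ℕ => Real.log (∏ p ∈ R, (p : ℝ)) / L ≤ T0), wt R)
    (B : Finset ℕ) (ρ : ℕ → ℕ → ℕ) (κ : ℕ → ℕ → ℝ) (e : ℕ → ℕ) (w : ℕ → ℝ) (M : ℕ) (A : ℝ)
    (err : Finset ℕ → ℝ)
    (hSec : ∀ (S : Fin n → Finset (Finset ℕ)) (g : Fin n → ℝ) (Y : Fin n → ℕ) (Y1 : ℕ),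
      Setup K2 b J z0 D0 ((PP z0 z1).erase ps) ((PP z1 z2).erase ps) B ρ κ e w M A err →
      (2 ^ 2 ^ J) ^ (K2 * b) * (Y1 * ∏ τ, Y τ) ^ 2 ≤ D0 → 0 < V → V ≤ 1 → δ ≤ 1 →
      Pi1 ((PP z1 z2).erase ps) ≤ C2 / V → (B.card : ℝ) * V1 ((PP z0 z1).erase ps) ≤ C2 / V →
      (∀ τ, 0 ≤ g τ ∧ g τ ≤ C2) → (∀ τ, ∀ R ∈ S τ, R ⊆ ((PP z1 z2).erase ps)) →
      (∀ τ, ∅ ∉ S τ) → (∀ τ τ', τ ≠ τ' → Disjoint (S τ) (S τ')) →
      (∀ U ⊆ B, U.card ≤ 2 * n + 2 →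
        dl e ρ ((PP z0 z1).erase ps ∪ (PP z1 z2).erase ps) U ≤ δ) →
      (∀ τ, 1 ≤ Y τ ∧ ∀ R ∈ S τ, ∏ p ∈ R, p ≤ Y τ) → 1 ≤ Y1 →
      (∀ (c : (Fin n → Option ℕ) → ℝ), (∀ σ, |c σ| ≤ 1) →
        |∑ m ∈ range M, w m * WW B c (xx ρ ((PP z0 z1).erase ps) S g m) ^ 2 -
          A * ∑ σ ∈ cfg n B, c σ ^ 2 *
            occ (fun τ => g τ ^ 2 * (V1 ((PP z0 z1).erase ps) * GG (S τ))) σ| ≤
        EF n K2 b J B.card A V δ
          (ET K2 ((PP z0 z1).erase ps ∪ (PP z1 z2).erase ps) D0 err)) ∧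
      (∀ (S1 : Finset (Finset ℕ)), (∀ R ∈ S1, R ⊆ ((PP z1 z2).erase ps)) →
        (∀ R ∈ S1, ∏ p ∈ R, p ≤ Y1) →
        ∀ a₀ ∈ B, ∀ (c : (Fin n → Option ℕ) → ℝ), (∀ σ, |c σ| ≤ 1) →
        |∑ m ∈ range M, w m * (WW (B.erase a₀) c (xx ρ ((PP z0 z1).erase ps) S g m) *
            (rg ρ ((PP z0 z1).erase ps) a₀ m * FF ρ S1 (some a₀) m)) ^ 2 -
          A * (V1 ((PP z0 z1).erase ps) * GG S1 * ∑ σ ∈ cfg n (B.erase a₀), c σ ^ 2 *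
            occ (fun τ => g τ ^ 2 * (V1 ((PP z0 z1).erase ps) * GG (S τ))) σ)| ≤
        EF n K2 b J B.card (A * V1 ((PP z0 z1).erase ps)) V δ
          (ET K2 ((PP z0 z1).erase ps ∪ (PP z1 z2).erase ps) D0 err)))
    (hFou : ∀ (S : Fin n → Finset (Finset ℕ)) (g : Fin n → ℝ),
      Setup K4 b J z0 D0 ((PP z0 z1).erase ps) ((PP z1 z2).erase ps) B ρ κ e w M A err →
      (2 ^ 2 ^ J) ^ (K4 * b) ≤ D0 → 0 < V → V ≤ 1 →
      Pi1 ((PP z1 z2).erase ps) ≤ C2 / V → (B.card : ℝ) * V1 ((PP z0 z1).erase ps) ≤ C2 / V →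
      (∀ τ, 0 ≤ g τ ∧ g τ ≤ C2) → (∀ τ, ∀ R ∈ S τ, R ⊆ ((PP z1 z2).erase ps)) →
      (∀ U ⊆ B, U.card ≤ 4 * n →
        dl e ρ ((PP z0 z1).erase ps ∪ (PP z1 z2).erase ps) U ≤ 1) →
      (∀ m < M, w m ≠ 0 → ∀ a ∈ B, rg ρ ((PP z0 z1).erase ps) a m ≠ 0 →
        (((PP z1 z2).erase ps).filter (fun p => m % p = ρ p a)).card ≤ k0) →
      ∑ m ∈ range M, w m * WW B (fun _ => 1) (xx ρ ((PP z0 z1).erase ps) S g m) ^ 4 ≤
        (K4 / V) ^ K4 * 2 ^ (4 * n * k0) *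
          (A + (B.card + 1 : ℝ) ^ (4 * n) * (((J : ℝ) + 2) *
            ET K4 ((PP z0 z1).erase ps ∪ (PP z1 z2).erase ps) D0 err)))
    (hBc : (B.card : ℝ) * Real.log z0 ≤ C * L)
    (hρ : ∀ p ∈ (PP z0 z2).erase ps, ∀ a ∈ B, ρ p a < p)
    (hDens : Dens κ e ((PP z0 z2).erase ps)) (hw : ∀ m, 0 ≤ w m) (hA : 0 < A)
    (hEq : Equid κ w M A ((PP z0 z2).erase ps) D0 err)
    (hdl : ∀ U ⊆ B, U.card ≤ Ko → dl e ρ ((PP z0 z2).erase ps) U ≤ 1 / Ko)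
    (hET : ET Ko ((PP z0 z2).erase ps) D0 err ≤ A / L ^ Ko)
    (hsize : ∀ m < M, w m ≠ 0 → ∀ a ∈ B,
        (∏ p ∈ ((PP z0 z2).erase ps).filter (fun p => m % p = ρ p a), (p : ℝ)) ≤ X ^ C ∨
          ∀ p ∈ (PP z0 z2).erase ps, m % p = ρ p a) :
    1 / (4 * F0) * A ≤ ∑ m ∈ (range M).filter
        (fun m => ∀ a ∈ B, ∃ p ∈ (PP z0 z2).erase ps, m % p = ρ p a), w m := by
  classical
  have hL1 : 1 ≤ L := by linarith
  have hL0 : 0 < L := by linarith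
  have hXpos : 0 < X := by linarith
  have hCB1 : 1 ≤ CB := by rw [hCB]; nlinarith
  have hη0 : 0 < η := by rw [hη]; positivity
  have hz1r : (4 : ℝ) ≤ z1 := by exact_mod_cast hz14
  have hlz1 : 0 < Real.log (z1 : ℝ) := Real.log_pos (by linarith)
  have hVpos : 0 < V := by rw [hV]; positivity
  have hVlow : v0 / 2 ≤ V := by
    rw [hV, le_div_iff₀ hL0]
    linarith
  have hVup : V ≤ v0 := by
    rw [hV, div_le_iff₀ hL0]
    linarith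
  have hV1 : V ≤ 1 := by linarith
  have hz1X : (z1 : ℝ) ≤ X ^ v0 := by
    rw [← Real.log_le_log_iff (by linarith) (by positivity), Real.log_rpow hXpos, ← hL]
    exact hJup
  have hz1X2 : X ^ (v0 / 2) ≤ (z1 : ℝ) := by
    rw [← Real.log_le_log_iff (by positivity) (by linarith), Real.log_rpow hXpos, ← hL]
    linarith
  have hz01 : z0 ≤ z1 := by
    have : (z0 : ℝ) ≤ z1 := hz0L.trans (hXz.trans hz1X2)
    exact_mod_cast this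
  have hz12 : z1 ≤ z2 := by
    rw [hz2]
    refine Nat.le_floor (hz1X.trans (Real.rpow_le_rpow_of_exponent_le hX1.le ?_))
    linarith
  have hz08 : 8 ≤ z0 := by omega
  have hsz := sizes C C1 CB θ v0 X L V z0 z1 z2 J ps B.card hC hC1 hCB hθ1 hv00 hX1 hL hL1 hz1
    hz1r hV hz2 hz01 hz12 hz08 hb4 hJup hBc hN1 hN2
  rcases hsz with ⟨hV10, hPi1low, hBV, hPi2, hBL1, hJL⟩ | hbad
  swap
  · linarith
  have hne : ((PP z0 z1).erase ps).Nonempty :=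
    P1_nonempty C1 v0 X L z0 z1 ps hC1 hz08 hz0L hJlow hXne hPi1low
  have hP12 := split_P (z0 := z0) (z1 := z1) (z2 := z2) ps hz01 hz12
  set P1 : Finset ℕ := (PP z0 z1).erase ps with hP1
  set P2 : Finset ℕ := (PP z1 z2).erase ps with hP2
  have hP1p : ∀ p ∈ P1, p.Prime := fun p hp => PP_prime (Finset.mem_of_mem_erase hp)
  have hP2p : ∀ p ∈ P2, p.Prime := fun p hp => PP_prime (Finset.mem_of_mem_erase hp)
  have hPp : ∀ p ∈ P1 ∪ P2, p.Prime := by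
    intro p hp
    rcases Finset.mem_union.mp hp with h | h
    · exact hP1p p h
    · exact hP2p p h
  rw [← hP12] at hρ hDens hEq hdl hET hsize ⊢
  have herr := err_nonneg hPp hEq
  have hSP : ∀ τ, ∀ R ∈ S τ, R ⊆ P2 := by
    intro τ R hR
    exact Finset.mem_powerset.mp (Finset.mem_filter.mp (hSsub τ hR)).1
  have hSpr : ∀ τ, ∀ R ∈ S τ, ∀ p ∈ R, p.Prime := fun τ R hR p hp => hP2p p (hSP τ R hR hp)
  have hSe : ∀ τ, ∅ ∉ S τ := by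
    intro τ h
    have h1 := (Finset.mem_filter.mp (hSsub τ h)).2.1
    simp at h1
    linarith
  have hGpos : ∀ τ, 0 < GG (S τ) := fun τ =>
    lt_of_lt_of_le (by have := (huβ τ).2; positivity) (hSGG τ)
  set g : Fin n → ℝ := fun τ => β τ / GG (S τ) with hg
  have hgG : ∀ τ, g τ * GG (S τ) = β τ := fun τ => div_mul_cancel₀ _ (hGpos τ).ne'
  have hg0 : ∀ τ, 0 ≤ g τ := fun τ => div_nonneg (huβ τ).2.le (hGpos τ).le
  have hηβ : 0 < η / βm := by positivity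
  have hgC : ∀ τ, g τ ≤ C2 := by
    intro τ
    have hb := (huβ τ).2
    have h1 : g τ ≤ β τ / (β τ ^ 2 / (η * V)) :=
      div_le_div_of_nonneg_left hb.le (by positivity) (hSGG τ)
    have h2 : β τ / (β τ ^ 2 / (η * V)) = η / β τ * V := by field_simp
    have h3 : η / β τ ≤ η / βm := div_le_div_of_nonneg_left hη0.le hβm0 (hβm τ)
    have h4 : η / β τ * V ≤ η / βm * 1 := mul_le_mul h3 hV1 hVpos.le hηβ.le
    rw [hC2]
    linarith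
  have hC2B : CB ≤ C2 := by rw [hC2]; linarith
  have hC2C : C1 ≤ C2 := by rw [hC2]; linarith
  have hPi2' : Pi1 P2 ≤ C2 / V := hPi2.trans (div_le_div_of_nonneg_right hC2C hVpos.le)
  have hBV' : (B.card : ℝ) * V1 P1 ≤ C2 / V :=
    hBV.trans (div_le_div_of_nonneg_right hC2B hVpos.le)
  -- sizes of the divisors
  have hY1 : ∀ τ, 1 ≤ ⌊X ^ (u τ)⌋₊ := fun τ =>
    Nat.le_floor (by exact_mod_cast Real.one_le_rpow hX1.le (huβ τ).1.le)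
  have hszS : ∀ τ, ∀ R ∈ S τ, ∏ p ∈ R, p ≤ ⌊X ^ (u τ)⌋₊ := by
    intro τ R hR
    have h1 := (Finset.mem_filter.mp (hSsub τ hR)).2.2
    have h2 := prod_ge_one (hSpr τ R hR)
    rw [div_le_iff₀ hL0, hL, ← Real.log_rpow hXpos] at h1
    have h3 := (Real.log_le_log_iff (by linarith) (by positivity)).mp h1
    refine Nat.le_floor ?_
    push_cast
    exact h3
  have hT00 : 0 < T0 := by rw [hT0]; positivity
  have hY11 : 1 ≤ ⌊X ^ T0⌋₊ := Nat.le_floor (by exact_mod_cast Real.one_le_rpow hX1.le hT00.le)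
  have hz1X' : (((2 ^ 2 ^ J : ℕ)) : ℝ) ≤ X ^ v0 := by rw [← hz1]; exact hz1X
  have hlev2 := (level X θ v0 T0 n J b K2 Km ⌊X ^ T0⌋₊ u hX1 hθ hv00 (by omega) hz1X' hvb hT0
    hus rfl).2
  have hlev4 := (level X θ v0 T0 n J b K4 Km ⌊X ^ T0⌋₊ u hX1 hθ hv00 (by omega) hz1X' hvb hT0
    hus rfl).1
  rw [← hD0] at hlev2 hlev4
  have hSetup : ∀ K : ℕ, K ≤ Km → Setup K b J z0 D0 P1 P2 B ρ κ e w M A err := by
    intro K hK
    refine ⟨hK.trans hbK, by omega, ?_, ?_, hDens, hw, hA.le, hEq, hρ⟩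
    · intro p hp
      have h1 := Finset.mem_of_mem_erase hp
      exact ⟨PP_prime h1, PP_gt h1, by rw [← hz1]; exact PP_le h1⟩
    · intro p hp
      have h1 := Finset.mem_of_mem_erase hp
      exact ⟨PP_prime h1, lt_of_le_of_lt hz01 (PP_gt h1), by rw [← hz1]; exact PP_gt h1⟩
  have hdlU : ∀ U ⊆ B, U.card ≤ Ko → dl e ρ (P1 ∪ P2) U ≤ δ := fun U hU hUc =>
    (hdl U hU hUc).trans hKoδ
  obtain ⟨hAA, hBB⟩ := hSec S g (fun τ => ⌊X ^ (u τ)⌋₊) ⌊X ^ T0⌋₊ (hSetup K2 (by omega)) hlev2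
    hVpos hV1 hδ1 hPi2' hBV' (fun τ => ⟨hg0 τ, hgC τ⟩) hSP hSe hSdis
    (fun U hU hUc => hdlU U hU (by omega)) (fun τ => ⟨hY1 τ, hszS τ⟩) hY11
  have hA1 := hAA (fun _ => 1) (fun σ => by simp)
  simp only [one_pow, one_mul] at hA1
  -- main inequality
  have hβ0 : ∀ τ, 0 ≤ β τ := fun τ => (huβ τ).2.le
  have hq : ∀ τ, 0 ≤ g τ ^ 2 * (V1 P1 * GG (S τ)) := fun τ =>
    mul_nonneg (sq_nonneg _) (mul_nonneg hV10.le (hGpos τ).le)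
  have hqη : ∀ τ, (B.card : ℝ) * (g τ ^ 2 * (V1 P1 * GG (S τ))) ≤ CB * η := by
    intro τ
    have h1 : g τ ^ 2 * (V1 P1 * GG (S τ)) = V1 P1 * (β τ ^ 2 / GG (S τ)) := by
      simp only [hg]
      have := (hGpos τ).ne'
      field_simp
    have h2 : β τ ^ 2 / GG (S τ) ≤ η * V := by
      rw [div_le_iff₀ (hGpos τ)]
      have h3 := hSGG τ
      rw [div_le_iff₀ (by positivity)] at h3
      linarith
    have h4 : 0 ≤ β τ ^ 2 / GG (S τ) := div_nonneg (sq_nonneg _) (hGpos τ).le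
    have h5 : (B.card : ℝ) * (g τ ^ 2 * (V1 P1 * GG (S τ))) =
        (B.card * V1 P1) * (β τ ^ 2 / GG (S τ)) := by rw [h1]; ring
    have h6 : (B.card * V1 P1) * (β τ ^ 2 / GG (S τ)) ≤ (CB / V) * (η * V) :=
      mul_le_mul hBV h2 h4 (by positivity)
    have h7 : (CB / V) * (η * V) = CB * η := by field_simp
    rw [h5, ← h7]
    exact h6
  obtain ⟨-, hM1⟩ := hMain n B 0 β _ (CB * η) hβ0 hβs hq hqη
  -- the star family
  set S1 : Finset (Finset ℕ) := (P2.powerset).filter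
        (fun R : Finset ℕ => Real.log (∏ p ∈ R, (p : ℝ)) / L ≤ T0) with hS1
  have hS1P : ∀ R ∈ S1, R ⊆ P2 := fun R hR =>
    Finset.mem_powerset.mp (Finset.mem_filter.mp hR).1
  have hS1pr : ∀ R ∈ S1, ∀ p ∈ R, p.Prime := fun R hR p hp => hP2p p (hS1P R hR hp)
  have hG1 : θ / (40 * C1 * V) ≤ GG S1 := by
    have h2 : T0 / (4 * C1 * V) = θ / (40 * C1 * V) := by
      rw [hT0]
      field_simp
      norm_num
    rw [h2] at hmass0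
    exact hmass0
  have hG1pos : 0 < GG S1 := lt_of_lt_of_le (by positivity) hG1
  have hG1inv : 1 / GG S1 ≤ 40 * C1 / θ * V := by
    rw [div_le_iff₀ hG1pos]
    calc (1 : ℝ) = 40 * C1 / θ * V * (θ / (40 * C1 * V)) := by field_simp
      _ ≤ 40 * C1 / θ * V * GG S1 := mul_le_mul_of_nonneg_left hG1 (by positivity)
  have hinv0 : 0 ≤ 1 / GG S1 := by positivity
  have hsz1 : ∀ R ∈ S1, ∏ p ∈ R, p ≤ ⌊X ^ T0⌋₊ := by
    intro R hR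
    have h1 := (Finset.mem_filter.mp hR).2
    have h2 := prod_ge_one (hS1pr R hR)
    rw [div_le_iff₀ hL0, hL, ← Real.log_rpow hXpos] at h1
    have h3 := (Real.log_le_log_iff (by linarith) (by positivity)).mp h1
    refine Nat.le_floor ?_
    push_cast
    exact h3
  -- errors
  have hE0 : 0 ≤ ET K2 (P1 ∪ P2) D0 err := ET_nonneg herr
  have hEL : ET K2 (P1 ∪ P2) D0 err ≤ A / L ^ Ko := (ET_mono (by omega) herr).trans hET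
  obtain ⟨hEF1A, hEF2A⟩ := errs n K2 Ko J b B.card A L C CB C1 θ v0 V δ
    (ET K2 (P1 ∪ P2) D0 err) (V1 P1) (GG S1) Cst R1 R2 hC hCB1 hC1 hθ hA.le (by omega) hL1 hv00
    hVpos hV1 hVlow hδ0 hE0 hEL hCst hR1 hR2 hXR1 hXR2 hbE hδE hBL1 hJL hV10 hBV hG1pos hG1inv
  -- good m
  set G : ℕ → Prop := fun m => ∀ a ∈ B, ∃ p ∈ P1 ∪ P2, m % p = ρ p a with hG
  have hlow : A * ∑ σ ∈ cfg n B, occ (fun τ => g τ ^ 2 * (V1 P1 * GG (S τ))) σ -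
      EF n K2 b J B.card A V δ (ET K2 (P1 ∪ P2) D0 err) ≤
      ∑ m ∈ range M, w m * WW B (fun _ => 1) (xx ρ P1 S g m) ^ 2 := by
    have := (abs_le.mp hA1).1
    linarith
  have hup := up_bound hCollapse n P1 P2 B ρ w M S S1 g β hw hSP hS1P hgG hβs hG1pos
    (A * (V1 P1 * GG S1 * ((CB * η) *
      ∑ σ ∈ cfg n B, occ (fun τ => g τ ^ 2 * (V1 P1 * GG (S τ))) σ)) +
      EF n K2 b J B.card (A * V1 P1) V δ (ET K2 (P1 ∪ P2) D0 err)) G (fun m => Iff.rfl) (by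
      intro a₀ ha₀
      have h2 := hBB S1 hS1P hsz1 a₀ ha₀ (coef β) (fun σ => coef_abs hβ0 hβs σ)
      have h3 := (abs_le.mp h2).2
      have h4 := (hMain n B a₀ β _ (CB * η) hβ0 hβs hq hqη).1
      have h5 : A * (V1 P1 * GG S1 * ∑ σ ∈ cfg n (B.erase a₀),
          coef β σ ^ 2 * occ (fun τ => g τ ^ 2 * (V1 P1 * GG (S τ))) σ) ≤
          A * (V1 P1 * GG S1 * ((CB * η) *
            ∑ σ ∈ cfg n B, occ (fun τ => g τ ^ 2 * (V1 P1 * GG (S τ))) σ)) :=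
        mul_le_mul_of_nonneg_left (mul_le_mul_of_nonneg_left h4
          (mul_nonneg hV10.le hG1pos.le)) hA.le
      linarith)
  have hmain1 : (B.card : ℝ) * V1 P1 * (1 / GG S1) * (CB * η) ≤ 1 / 4 := by
    have h1 : (B.card : ℝ) * V1 P1 * (1 / GG S1) ≤ (CB / V) * (40 * C1 / θ * V) :=
      mul_le_mul hBV hG1inv hinv0 (by positivity)
    have h2 : (CB / V) * (40 * C1 / θ * V) * (CB * η) = 1 / 4 := by
      rw [hη]
      field_simp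
      norm_num
    rw [← h2]
    exact mul_le_mul_of_nonneg_right h1 (by positivity)
  have hsG : A / 2 ≤ ∑ m ∈ (range M).filter G, w m * WW B (fun _ => 1) (xx ρ P1 S g m) ^ 2 :=
    numericW A _ B.card (V1 P1) (GG S1) (CB * η) _ _ _ _ hA.le hM1 hG1pos hlow hup hmain1
      hEF1A hEF2A
  -- the fourth moment
  have hhit : ∀ m < M, w m ≠ 0 → ∀ a ∈ B, rg ρ P1 a m ≠ 0 →
      (P2.filter (fun p => m % p = ρ p a)).card ≤ k0 := by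
    intro m hm hwm a ha hrg
    exact hit_bound C v0 L X z1 k0 m a M P1 P2 ρ hC hv00 hL0 hXpos hL hk0 hz1r hJlow hPp
      (fun p hp => PP_gt (Finset.mem_of_mem_erase hp)) hne hrg (hsize m hm hwm a ha)
  have hfour := hFou S g (hSetup K4 (by omega)) hlev4 hVpos hV1 hPi2' hBV'
    (fun τ => ⟨hg0 τ, hgC τ⟩) hSP (fun U hU hUc => (hdlU U hU (by omega)).trans hδ1) hhit
  have hE40 : 0 ≤ ET K4 (P1 ∪ P2) D0 err := ET_nonneg herr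
  have hE4L : ET K4 (P1 ∪ P2) D0 err ≤ A / L ^ Ko := (ET_mono (by omega) herr).trans hET
  have hfourA := hfour.trans (err4 n K4 Ko J B.card k0 A L C v0 V (ET K4 (P1 ∪ P2) D0 err) F0 hC
    hA.le (by omega) hL1 hv00 hVpos hVlow hE40 hE4L hXC hF0 hBL1 hJL)
  have hfin := cs_final M w (fun m => WW B (fun _ => 1) (xx ρ P1 S g m)) hw G (A / 2) (F0 * A)
    (by positivity) (by positivity) hsG hfourA
  have hlast : 1 / (4 * F0) * A = (A / 2) ^ 2 / (F0 * A) := by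
    field_simp
    norm_num
  rw [hlast]
  exact hfin

end Pool.Agent.H410R2.EN
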