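import Mathlib
import Pool.Agent.H410R2.ENIface
import Pool.Agent.H410R2.ENCore1
import Pool.Agent.H410R2.ENCore2
import Pool.Agent.H410R2.ENCore

set_option autoImplicit false

open Finset Filter

namespace Pool.Agent.H410R2.EN

open Pool.Agent.H410R2.AC

lemma ev_X (v0 R1 R2 Cn C1 : ℝ) (hv00 : 0 < v0) :
    ∀ᶠ X : ℝ in atTop, 1 < X ∧ 8 ≤ Real.log X ∧ 2 ≤ v0 * Real.log X / Real.log 2 ∧
      Real.log X ≤ X ^ (v0 / 2) ∧ 16 * R1 ≤ Real.log X ∧ 16 * R2 ≤ Real.log X ∧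
      Cn ≤ Real.log X ∧ 2 * C1 * Real.log (Real.log X) < v0 * Real.log X / 2 := by
  have hlog := Real.tendsto_log_atTop
  have hl2 : 0 < Real.log 2 := Real.log_pos (by norm_num)
  have h0 : Tendsto (fun x : ℝ => 2 * C1 * (Real.log x / x)) atTop (nhds 0) := by
    have h := Real.isLittleO_log_id_atTop.tendsto_div_nhds_zero
    have h' : Tendsto (fun x : ℝ => Real.log x / x) atTop (nhds 0) := by simpa using h
    have := h'.const_mul (2 * C1)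
    simpa using this
  have h1 : Tendsto (fun X : ℝ => 2 * C1 * (Real.log (Real.log X) / Real.log X)) atTop (nhds 0) :=
    h0.comp hlog
  filter_upwards [eventually_gt_atTop (1 : ℝ), hlog.eventually_ge_atTop 8,
    hlog.eventually_ge_atTop (2 * Real.log 2 / v0), hlog.eventually_ge_atTop (16 * R1),
    hlog.eventually_ge_atTop (16 * R2), hlog.eventually_ge_atTop Cn,
    (isLittleO_log_rpow_atTop (show (0 : ℝ) < v0 / 2 by positivity)).bound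
      (show (0 : ℝ) < 1 by norm_num),
    h1.eventually_lt_const (show (0 : ℝ) < v0 / 2 by positivity)] with X g1 g2 g3 g5 g6 g7 g4 g8
  refine ⟨g1, g2, ?_, ?_, g5, g6, g7, ?_⟩
  · rw [le_div_iff₀ hl2]
    rw [div_le_iff₀ hv00] at g3
    linarith
  · have h9 : 0 ≤ X ^ (v0 / 2) := by positivity
    rw [one_mul, Real.norm_of_nonneg h9] at g4
    exact (le_abs_self _).trans g4
  · have h9 : 0 < Real.log X := by linarith
    have h10 : 2 * C1 * (Real.log (Real.log X) / Real.log X) =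
        (2 * C1 * Real.log (Real.log X)) / Real.log X := by ring
    rw [h10, div_lt_iff₀ h9] at g8
    linarith

theorem coreW_of (hSecond : SecondW) (hFourth : FourthW) (hCollapse : Collapse)
    (hMain : MainIneq) (hNT : NT) (hTypes : Types) : CoreW := by
  classical
  intro C θ hC hθ hθ1
  obtain ⟨C1, hC1, hN1, hN2, hN3, hN4, hN5, -⟩ := hNT
  obtain ⟨CB, hCB⟩ : ∃ CB : ℝ, CB = 2 * C * C1 := ⟨_, rfl⟩
  have hCB1 : 1 ≤ CB := by rw [hCB]; nlinarith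
  obtain ⟨η, hη⟩ : ∃ η : ℝ, η = θ / (160 * C1 * CB ^ 2) := ⟨_, rfl⟩
  have hη0 : 0 < η := by rw [hη]; positivity
  obtain ⟨T0, hT0⟩ : ∃ T0 : ℝ, T0 = θ / 10 := ⟨_, rfl⟩
  have hT00 : 0 < T0 := by rw [hT0]; positivity
  obtain ⟨n, u, β, V₀, hV₀, huβ, hβs, hus, hS⟩ := hTypes (4 * C1) η T0 (by linarith) hη0 hT00
  have hn0 : 0 < n := by
    rcases Nat.eq_zero_or_pos n with h | h
    · subst h
      simp at hβs
    · exact h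
  have hne : Nonempty (Fin n) := ⟨⟨0, hn0⟩⟩
  obtain ⟨βm, hβm0, hβm⟩ : ∃ βm : ℝ, 0 < βm ∧ ∀ τ, βm ≤ β τ := by
    obtain ⟨τ0, -, h⟩ := Finset.exists_min_image (Finset.univ : Finset (Fin n)) β
      Finset.univ_nonempty
    exact ⟨β τ0, (huβ τ0).2, fun τ => h τ (Finset.mem_univ τ)⟩
  obtain ⟨C2, hC2⟩ : ∃ C2 : ℝ, C2 = CB + C1 + η / βm + 1 := ⟨_, rfl⟩
  have hηβ : 0 < η / βm := by positivity
  have hC2' : 1 ≤ C2 := by linarith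
  obtain ⟨K2, hK2, hSec⟩ := hSecond n C2 hC2'
  obtain ⟨K4, hK4, hFou⟩ := hFourth n C2 hC2'
  obtain ⟨Km, hKm⟩ : ∃ Km : ℕ, Km = K2 + K4 := ⟨_, rfl⟩
  obtain ⟨Cst, hCst⟩ : ∃ Cst : ℝ, Cst = K2 * (1 + CB * (40 * C1 / θ) ^ 2) := ⟨_, rfl⟩
  obtain ⟨b, hb1, hbK, hbV, hb4, hb10, hbE⟩ := exists_b Km K2 (by omega) θ V₀ Cst hθ hV₀
  obtain ⟨v0, hv0⟩ : ∃ v0 : ℝ, v0 = θ / (20 * Km * b) := ⟨_, rfl⟩
  rw [← hv0] at hbV hb4 hb10 hbE
  have hKm0 : (0 : ℝ) < Km := by exact_mod_cast (by omega : 0 < Km)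
  have hb0 : (0 : ℝ) < b := by exact_mod_cast (by omega : 0 < b)
  have hv00 : 0 < v0 := by rw [hv0]; positivity
  have hvb : v0 * (Km * b) = θ / 20 := by
    rw [hv0]
    field_simp
  obtain ⟨δ, hδ0, hδ1, hδE⟩ := exists_delta K2 (Cst * (2 / v0) ^ K2)
  obtain ⟨k0, hk0⟩ : ∃ k0 : ℕ, k0 = ⌈2 * C / v0⌉₊ := ⟨_, rfl⟩
  obtain ⟨F0, hF0⟩ : ∃ F0 : ℝ, F0 = (2 * K4 / v0) ^ K4 * 2 ^ (4 * n * k0) * 2 := ⟨_, rfl⟩
  have hK40 : (0 : ℝ) < K4 := by exact_mod_cast (by omega : 0 < K4)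
  have hF00 : 0 < F0 := by rw [hF0]; positivity
  obtain ⟨Ko, hKo⟩ : ∃ Ko : ℕ, Ko = Km + 4 * n + 8 + ⌈1 / δ⌉₊ := ⟨_, rfl⟩
  have hKoδ : 1 / (Ko : ℝ) ≤ δ := by
    have h1 : 1 / δ ≤ Ko := by
      refine (Nat.le_ceil _).trans ?_
      exact_mod_cast (by omega : ⌈1 / δ⌉₊ ≤ Ko)
    have h2 : (0 : ℝ) < Ko := lt_of_lt_of_le (by positivity) h1
    rw [div_le_iff₀ h2]
    rw [div_le_iff₀ hδ0] at h1
    linarith
  obtain ⟨R1, hR1⟩ : ∃ R1 : ℝ, R1 = K2 * (2 / v0) ^ K2 * (2 * C) ^ (2 * n + 2) := ⟨_, rfl⟩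
  obtain ⟨R2, hR2⟩ : ∃ R2 : ℝ, R2 = (2 * C) * (40 * C1 / θ) ^ 2 * R1 := ⟨_, rfl⟩
  obtain ⟨X0, hX0⟩ := eventually_atTop.mp (ev_X v0 R1 R2 ((2 * C) ^ (4 * n)) C1 hv00)
  refine ⟨1 / (4 * F0), by positivity, Ko, by omega, X0, ?_⟩
  intro X hX z0 z2 D0 ps hz0K hz0L hz2 hD0 B ρ κ e w M A err hBc hρ hDens hw hA hEq hdl hET hsize
  obtain ⟨hX1, hL8, hXJ, hXz, hXR1, hXR2, hXC, hXne⟩ := hX0 X hX
  obtain ⟨J, hJ1, hJlow, hJup⟩ := exists_J (Real.log X) v0 hXJ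
  have hz14 : 4 ≤ 2 ^ 2 ^ J := by
    have : 2 ≤ 2 ^ J := by
      calc 2 = 2 ^ 1 := rfl
        _ ≤ 2 ^ J := Nat.pow_le_pow_right (by norm_num) hJ1
    calc 4 = 2 ^ 2 := rfl
      _ ≤ 2 ^ 2 ^ J := Nat.pow_le_pow_right (by norm_num) this
  have hL0 : 0 < Real.log X := by linarith
  have hz1r : (4 : ℝ) ≤ ((2 ^ 2 ^ J : ℕ) : ℝ) := by exact_mod_cast hz14
  have hlz1 : 0 < Real.log ((2 ^ 2 ^ J : ℕ) : ℝ) := Real.log_pos (by linarith)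
  have hV : 0 < Real.log ((2 ^ 2 ^ J : ℕ) : ℝ) / Real.log X := div_pos hlz1 hL0
  have hVup : Real.log ((2 ^ 2 ^ J : ℕ) : ℝ) / Real.log X ≤ v0 := by
    rw [div_le_iff₀ hL0]
    linarith
  have hP2p : ∀ p ∈ (PP (2 ^ 2 ^ J) z2).erase ps, p.Prime :=
    fun p hp => PP_prime (Finset.mem_of_mem_erase hp)
  have hmass : ∀ t : ℝ, Real.log ((2 ^ 2 ^ J : ℕ) : ℝ) / Real.log X ≤ t → t ≤ T0 →
      t / (4 * C1 * (Real.log ((2 ^ 2 ^ J : ℕ) : ℝ) / Real.log X)) ≤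
      ∑ R ∈ (((PP (2 ^ 2 ^ J) z2).erase ps).powerset).filter
        (fun R : Finset ℕ => Real.log (∏ p ∈ R, (p : ℝ)) / Real.log X ≤ t), wt R ∧
      ∑ R ∈ (((PP (2 ^ 2 ^ J) z2).erase ps).powerset).filter
        (fun R : Finset ℕ => Real.log (∏ p ∈ R, (p : ℝ)) / Real.log X ≤ t), wt R ≤
        4 * C1 * t / (Real.log ((2 ^ 2 ^ J : ℕ) : ℝ) / Real.log X) := by
    intro t ht ht'
    have h := mass_bounds' hC1 hN2 hN3 X θ hX1 (2 ^ 2 ^ J) ps hz14 t ht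
      (ht'.trans (by rw [hT0]; linarith))
    rw [← hz2] at h
    exact h
  have hpow : ∀ R ∈ ((PP (2 ^ 2 ^ J) z2).erase ps).powerset, ∀ p ∈ R, p.Prime := fun R hR p hp =>
    hP2p p (Finset.mem_powerset.mp hR hp)
  obtain ⟨S, hSsub, hSdis, hSmass⟩ := hS (Real.log ((2 ^ 2 ^ J : ℕ) : ℝ) / Real.log X)
    ((PP (2 ^ 2 ^ J) z2).erase ps).powerset wt
    (fun R => Real.log (∏ p ∈ R, (p : ℝ)) / Real.log X) hV (hVup.trans hbV)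
    (fun R hR => ⟨wt_nonneg (hpow R hR), wt_le_one (hpow R hR)⟩) hmass
  rcases hA.eq_or_lt with hA0 | hApos
  · rw [← hA0, mul_zero]
    exact Finset.sum_nonneg (fun m _ => hw m)
  · exact core_fixed hCollapse hMain C C1 CB θ η T0 v0 δ βm n K2 K4 Km b Ko k0 u β Cst R1 R2 F0
      C2 hC hC1 hCB hθ hθ1 hη hT0 hN1 hN2 huβ hβs hus hβm0 hβm hC2 hKm (by omega) hKoδ hbK hb4
      hb10 hv00 hvb hδ0 hδ1 hCst hbE hδE hR1 hR2 hk0 hF0 hF00 X (Real.log X)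
      (Real.log ((2 ^ 2 ^ J : ℕ) : ℝ) / Real.log X) J z0 (2 ^ 2 ^ J) z2 D0 ps hX1 rfl hL8 rfl
      hz14 rfl hJlow hJup hXz hXR1 hXR2 hXC hXne hz0K hz0L hz2 hD0 S hSsub hSdis hSmass
      (hmass T0 (hVup.trans (by rw [hT0]; exact hb10)) le_rfl).1 B ρ κ e w M A err
      (fun S g Y Y1 => hSec b J z0 D0 _ _ B ρ κ e w M A err S g Y Y1 _ δ)
      (fun S g h1 h2 h3 h4 h5 h6 h7 h8 h9 h10 => hFou b J z0 D0 k0 _ _ B ρ κ e w M A err S g _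
        h1 h2 h3 h4 h5 h6 h7 h8 h9 h10 (fun _ => 1) (fun σ => by simp))
      hBc hρ hDens hw hApos hEq hdl hET hsize

end Pool.Agent.H410R2.EN
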