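import Mathlib
import Pool.Agent.H410R2.ENIface
import Pool.Agent.H378R2.Defs

/-!
ENGINE, third interface file: prime weights in a class modulo a big modulus.
-/

set_option autoImplicit false

open Finset

namespace Pool.Agent.H410R2.EN

open Pool.Agent.H410R2.AC Pool.Agent.H378R2

/-- local densities of the primes -/
noncomputable def kP (p c : ℕ) : ℝ := if c = 0 then 0 else 1 / ((p : ℝ) - 1)

/-- smoothly weighted primes (and prime powers) in a class -/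
noncomputable def wP (X : ℝ) (Q b n : ℕ) : ℝ :=
  if n ≤ ⌊3 * X⌋₊ ∧ n % Q = b % Q then Phi (n / X) * ArithmeticFunction.vonMangoldt n else 0

/-- total weight -/
noncomputable def PsiT (X : ℝ) : ℝ :=
  ∑ n ∈ range (⌊3 * X⌋₊ + 1), Phi (n / X) * ArithmeticFunction.vonMangoldt n

/-- EN7a: equidistribution of the prime weights -/
def PrimeEq : Prop := ∃ c1 : ℝ, 0 < c1 ∧ ∀ K : ℕ, ∃ X0 : ℝ, ∀ X : ℝ, X0 ≤ X →
  c1 * X ≤ PsiT X ∧ ∃ (ps : ℕ) (S : Finset ℕ), GoodP 2 ps ∧ GoodS X S ∧ ∃ err : Finset ℕ → ℝ,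
    (∀ b : ℕ, b.Coprime (WW X S ps) →
      Equid kP (wP X (WW X S ps) b) (⌊3 * X⌋₊ + 1) (PsiT X / (WW X S ps).totient)
        ((PP (yy X) ⌊X ^ (1 / 100 : ℝ)⌋₊).erase ps) ⌊X ^ (1 / 100 : ℝ)⌋₊ err) ∧
    ET K ((PP (yy X) ⌊X ^ (1 / 100 : ℝ)⌋₊).erase ps) ⌊X ^ (1 / 100 : ℝ)⌋₊ err ≤
      (PsiT X / (WW X S ps).totient) / Real.log X ^ K

/-- EN7b: the average number of classes for which a position survives -/
def AvgB : Prop := ∃ C' X0 : ℝ, 1 ≤ C' ∧ ∀ X : ℝ, X0 ≤ X → ∀ (ps : ℕ) (S : Finset ℕ),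
  GoodP 2 ps → GoodS X S → ∀ a : ℤ, a ≠ 0 →
    (((range (WW X S ps)).filter (fun b : ℕ => b.Coprime (WW X S ps) ∧
      ∀ p ∈ PW X S ps, ¬ (p : ℤ) ∣ (b : ℤ) - a)).card : ℝ) * Real.log (yy X) ≤
    C' * (WW X S ps).totient * ((a.natAbs : ℝ) / (a.natAbs.totient : ℝ))

end Pool.Agent.H410R2.EN
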