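import Mathlib
import Pool.Agent.H410R2.ENIface
import Pool.Agent.H410R2.ENIface2
import Pool.Agent.H410R2.ENIface3
import Pool.Agent.H410R2.ENCoreF
import Pool.Agent.H415R2.ACLocal
import Pool.Agent.H898R2.AC5
import Pool.Agent.H708R2.ACTypes
import Pool.Agent.H212R2.AC4b
import Pool.Agent.H647R2.ACNT
import Pool.Agent.H20R2.EN.FLem
import Pool.Agent.H488R2.EN.D
import Pool.Agent.H911R2.EN.SumW
import Pool.Agent.H602R2.MomW
import Pool.Agent.H909R2.EN3
import Pool.Agent.H575R2.EN4

set_option autoImplicit false

namespace Pool.Agent.H410R2.EN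

/-- expansion of products of divisor weights along a class -/
theorem expandW : ExpandW := Pool.Agent.H488R2.EN2a.expandW_of Pool.Agent.H20R2.fLem

/-- weighted moments -/
theorem momW : MomW :=
  Pool.Agent.H602R2.momW_of expandW Pool.Agent.H911R2.EN.sumW Pool.Agent.H415R2.ACLocal.localSum

/-- second moment, two sided, with main terms -/
theorem secondW : SecondW :=
  Pool.Agent.H909R2.EN3.secondW_of Pool.Agent.H212R2.AC4b.countMaps momW

/-- fourth moment of unimodular combinations -/
theorem fourthW : FourthW :=
  Pool.Agent.H575R2.EN4.fourthW_of Pool.Agent.H212R2.AC4b.countMaps expandW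

/-- the core theorem with proportion -/
theorem coreW : CoreW :=
  coreW_of secondW fourthW Pool.Agent.H898R2.AC5.collapse Pool.Agent.H898R2.AC5.mainIneq
    Pool.Agent.H647R2.ACNT.nt Pool.Agent.H708R2.types

end Pool.Agent.H410R2.EN
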