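import Mathlib
import Pool.Agent.H410R2.ENMain
import Pool.Agent.H747R2.EN6
import Pool.Agent.H797R2.PrimeEq
import Pool.Agent.H414R2.ENAvg
import Pool.Agent.H880R2.EN7

set_option autoImplicit false

namespace Pool.Agent.H410R2.EN

theorem zFinal : ZFinal := Pool.Agent.H747R2.EN6.zFinal_of coreW

theorem pFinal : PFinal :=
  Pool.Agent.H880R2.EN7.pFinal_of coreW Pool.Agent.H797R2.PE.primeEq Pool.Agent.H414R2.ENAvg.avgB

end Pool.Agent.H410R2.EN
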